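import Pool.Agent.Lib.MP_13d336_gt.Cut

set_option autoImplicit false
set_option linter.unusedSimpArgs false
set_option linter.unusedSectionVars false
set_option linter.unusedVariables false
set_option linter.deprecated false

namespace Pool.Agent.Lib.MP_13d336_gt

open Finset Filter Topology MeasureTheory MvPolynomial
open scoped RealInnerProductSpace

variable {E : Type*} [NormedAddCommGroup E] [InnerProductSpace ℝ E] [FiniteDimensional ℝ E]
  [CompleteSpace E]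

section
variable {p u f : E} {U F : E →L[ℝ] E} {l' a' : E →L[ℝ] ℝ} {r a σ : ℝ}
  (h : PD p u f U F l' a' r a σ)
include h

theorem PD.norm_sq (z : E) :
    ‖z‖ ^ 2 = r ^ 2 * (l' z ^ 2 + 4 * a' z ^ 2 / σ ^ 2 + 4 * a ^ 2 * σ ^ 2 * ‖U z‖ ^ 2) := by
  have pp : ⟪p, p⟫ = 1 := by rw [real_inner_self_eq_norm_sq, h.hp]; norm_num
  have uu : ⟪u, u⟫ = 1 := by rw [real_inner_self_eq_norm_sq, h.hu]; norm_num
  have up : ⟪u, p⟫ = 0 := by rw [real_inner_comm, h.pu]
  have Up : ⟪U z, p⟫ = 0 := by rw [real_inner_comm, h.pU]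
  have Uu : ⟪U z, u⟫ = 0 := by rw [real_inner_comm, h.uU]
  have hσ := h.σ0.ne'
  rw [← real_inner_self_eq_norm_sq, ← real_inner_self_eq_norm_sq]
  conv_lhs => rw [h.hI z]
  simp only [inner_add_left, inner_add_right, inner_sub_left, inner_sub_right,
    real_inner_smul_left, real_inner_smul_right, pp, uu, up, Up, Uu, h.pu, h.pU, h.uU]
  field_simp
  linear_combination (r ^ 2 * (4 * a ^ 2 * σ ^ 2 * l' z ^ 2 + 16 * a ^ 2 * a' z ^ 2)) * h.hσ

theorem PD.a'_le (z : E) : 2 * r * |a' z| ≤ σ * ‖z‖ := by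
  have h1 := h.norm_sq z
  have := h.r0
  have := h.σ0
  refine abs_le_of_sq_le_sq' ?_ (by positivity) |>.2
  rw [mul_pow σ, h1, mul_pow, sq_abs]
  have e : σ ^ 2 * (r ^ 2 * (l' z ^ 2 + 4 * a' z ^ 2 / σ ^ 2 + 4 * a ^ 2 * σ ^ 2 * ‖U z‖ ^ 2))
      = (2 * r) ^ 2 * a' z ^ 2
        + σ ^ 2 * r ^ 2 * (l' z ^ 2 + 4 * a ^ 2 * σ ^ 2 * ‖U z‖ ^ 2) := by field_simp; ring
  rw [e, le_add_iff_nonneg_right]; positivity

theorem PD.U_le (z : E) : 2 * r * a * σ * ‖U z‖ ≤ ‖z‖ := by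
  have h1 := h.norm_sq z
  refine abs_le_of_sq_le_sq' ?_ (by positivity) |>.2
  have : 0 ≤ r ^ 2 * (l' z ^ 2 + 4 * a' z ^ 2 / σ ^ 2) := by positivity
  rw [h1]; nlinarith

theorem PD.Y_le (ha : 1 / 2 ≤ a) : ‖r • YY u f U F σ‖ ≤ r * ‖F‖ + 4 := by
  have hr := h.r0
  have hσ := h.σ0
  have hσ1 : σ ≤ 1 := by nlinarith [h.hσ, sq_nonneg a]
  refine ContinuousLinearMap.opNorm_le_bound _ (by positivity) fun z => ?_
  have h1 := h.U_le z
  have h2 : |⟪f, U z⟫| ≤ ‖U z‖ := by simpa [h.hf] using abs_real_inner_le_norm f (U z)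
  have h3 : |⟪u, f⟫| ≤ 1 := by simpa [h.hf, h.hu] using abs_real_inner_le_norm u f
  have h4 : ‖⟪f, U z⟫ • u - ⟪u, f⟫ • U z‖ ≤ 2 * ‖U z‖ := by
    refine (norm_sub_le _ _).trans ?_
    rw [norm_smul, norm_smul, h.hu, Real.norm_eq_abs, Real.norm_eq_abs]
    nlinarith [norm_nonneg (U z)]
  have h5 := F.le_opNorm z
  have h6 : r * σ * ‖U z‖ ≤ ‖z‖ := by
    nlinarith [mul_nonneg (mul_pos hr hσ).le (norm_nonneg (U z))]
  calc ‖(r • YY u f U F σ) z‖ = r * ‖F z + (2 * σ ^ 2) • (⟪f, U z⟫ • u - ⟪u, f⟫ • U z)‖ := by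
        rw [ContinuousLinearMap.smul_apply, norm_smul, Real.norm_eq_abs, abs_of_pos hr]; rfl
    _ ≤ r * (‖F‖ * ‖z‖ + 2 * σ ^ 2 * (2 * ‖U z‖)) := by
        gcongr
        refine (norm_add_le _ _).trans (add_le_add h5 ?_)
        rw [norm_smul, Real.norm_eq_abs, abs_of_pos (by positivity)]
        gcongr
    _ = r * ‖F‖ * ‖z‖ + 4 * (σ * (r * σ * ‖U z‖)) := by ring
    _ ≤ r * ‖F‖ * ‖z‖ + 4 * (1 * ‖z‖) := by gcongr
    _ = _ := by ring
end

theorem gd_bound (R : ℝ) : ∃ M : ℝ, ∀ D : E →L[ℝ] E, ‖D‖ ≤ R → gd D ≤ M := by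
  have := FiniteDimensional.proper_real (E →L[ℝ] E)
  obtain ⟨M, hM⟩ := (isCompact_closedBall (0 : E →L[ℝ] E) R).exists_bound_of_continuousOn
    continuous_gd.continuousOn
  exact ⟨M, fun D hD => (le_abs_self _).trans (hM D (by simpa using hD))⟩

def Good1 (p : E) (f : E → E) : Prop :=
  ∀ x ∈ Om1 p, ContDiffAt ℝ 2 f x ∧ ‖f x‖ = 1 ∧ ⟪p, f x⟫ = 0

variable {p : E} {f : E → E}

theorem Good1.good (hf : Good1 p f) (hp : ‖p‖ = 1) : Good p f := fun x hx => hf x (Om.om1 hp hx)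

theorem norm_pr_le (hp : ‖p‖ = 1) (z : E) : ‖pr p z‖ ≤ ‖z‖ :=
  abs_le_of_sq_le_sq' (by rw [pr_sq hp]; nlinarith [sq_nonneg ⟪p, z⟫]) (norm_nonneg _) |>.2

theorem neg_mem_Om1 (hp : ‖p‖ = 1) : -p ∈ Om1 p := by
  simp [Om1, hp]

noncomputable def prL (p : E) : E →L[ℝ] E := ContinuousLinearMap.id ℝ E - (innerSL ℝ p).smulRight p

theorem prL_apply (p z : E) : prL p z = pr p z := rfl

/-- collapse of a neighbourhood of the antipodal ray -/
noncomputable def kap (p : E) (ε : ℝ) (x : E) : E :=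
  x - Real.smoothTransition (2 - 2 * (1 - aa p x ^ 2) / ε) • pr p x

theorem inner_kap (hp : ‖p‖ = 1) (ε : ℝ) (x : E) : ⟪p, kap p ε x⟫ = ⟪p, x⟫ := by
  rw [kap, inner_sub_right, inner_smul_right, inner_pr hp]; ring

theorem kap_eq {ε : ℝ} (hε : 0 < ε) {x : E} (h : ε ≤ 1 - aa p x ^ 2) : kap p ε x = x := by
  rw [kap, Real.smoothTransition.zero_of_nonpos, zero_smul, sub_zero]
  rw [sub_nonpos, le_div_iff₀ hε]; linarith

theorem inner_le_of_small (hp : ‖p‖ = 1) {x : E} (hx : x ∈ Om p) (h : 1 - aa p x ^ 2 ≤ 1 / 4) :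
    ⟪p, x⟫ ≤ -(‖x‖ / 2) := by
  have h0 := Om.norm_pos hp hx
  have h1 : cs p x ≤ -(1 / 2) := by rw [aa_sq hp] at h; linarith
  rw [cs, div_le_iff₀ h0] at h1
  linarith

theorem kap_mem (hp : ‖p‖ = 1) {ε : ℝ} (hε : 0 < ε) (hε1 : ε ≤ 1 / 4) {x : E} (hx : x ∈ Om p) :
    kap p ε x ∈ Om1 p := by
  rcases le_total ε (1 - aa p x ^ 2) with h | h
  · rw [kap_eq hε h]; exact Om.om1 hp hx
  · have h1 := inner_le_of_small hp hx (h.trans hε1)
    have h0 := Om.norm_pos hp hx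
    change ⟪p, kap p ε x⟫ < _
    rw [inner_kap hp]
    linarith [norm_nonneg (kap p ε x)]

theorem contDiffAt_kap (hp : ‖p‖ = 1) (ε : ℝ) {x : E} (hx : x ∈ Om p) :
    ContDiffAt ℝ 2 (kap p ε) x :=
  contDiffAt_id.sub ((Real.smoothTransition.contDiffAt.comp x (contDiffAt_const.sub
    ((contDiffAt_const.mul (contDiffAt_const.sub ((Om.contDiffAt_aa hp hx).pow 2))).div_const
      ε))).smul (contDiff_pr p).contDiffAt)

theorem kap_eventually (hp : ‖p‖ = 1) {ε : ℝ} (hε : 0 < ε) {x : E} (hx : x ∈ Om p)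
    (h : ε < 1 - aa p x ^ 2) : (f ∘ kap p ε) =ᶠ[𝓝 x] f := by
  have hc : ContinuousAt (fun y => 1 - aa p y ^ 2) x :=
    continuousAt_const.sub ((Om.contDiffAt_aa (n := 0) hp hx).continuousAt.pow 2)
  filter_upwards [hc.eventually (lt_mem_nhds h)] with y hy
  rw [Function.comp_apply, kap_eq hε hy.le]

theorem fderiv_kap_le (hp : ‖p‖ = 1) {C : ℝ} (hC : ∀ t, |deriv Real.smoothTransition t| ≤ C)
    {ε : ℝ} (hε : 0 < ε) {x : E} (hx : x ∈ Om p) (h : 1 - aa p x ^ 2 ≤ ε) :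
    ‖fderiv ℝ (kap p ε) x‖ ≤ 2 + 4 * C := by
  have hC0 : 0 ≤ C := (abs_nonneg _).trans (hC 0)
  have ha := Om.hasFDerivAt_aa hp hx
  have h1 := (hasDerivAt_st _).comp_hasFDerivAt x
    (((((ha.pow 2).const_sub 1).const_mul 2).mul_const ε⁻¹).const_sub 2)
  have h2 := (hasFDerivAt_id x).fun_sub (h1.fun_smul (prL p).hasFDerivAt)
  have h3 : HasFDerivAt (kap p ε) _ x := h2
  rw [h3.fderiv]
  refine ContinuousLinearMap.opNorm_le_bound _ (by positivity) fun z => ?_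
  have hpd := (good_const (Om.norm_uh hx) (inner_uh hp x)).pd hp hx
  have h4 := hpd.a'_le z
  have h5 := norm_pr hp (norm_pos_iff.1 (Om.norm_pos hp hx))
  have h6 := norm_pr_le hp z
  have a0 := Om.aa_pos hp hx
  have a1 := Om.aa_lt hp hx
  have s0 := Om.sg_pos hp hx
  have r0 := Om.norm_pos hp hx
  rw [← sg_sq hp] at h
  simp only [ContinuousLinearMap.sub_apply, ContinuousLinearMap.add_apply,
    ContinuousLinearMap.smul_apply, ContinuousLinearMap.id_apply, ContinuousLinearMap.neg_apply,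
    ContinuousLinearMap.smulRight_apply, prL_apply, Function.comp_apply, smul_eq_mul]
  set d := deriv Real.smoothTransition (2 - 2 * (1 - aa p x ^ 2) * ε⁻¹)
  set s := Real.smoothTransition (2 - 2 * (1 - aa p x ^ 2) * ε⁻¹)
  have hd : |d| ≤ C := hC _
  have hs : |s| ≤ 1 := by
    rw [abs_of_nonneg (Real.smoothTransition.nonneg _)]; exact Real.smoothTransition.le_one _
  refine (norm_sub_le _ _).trans ?_
  refine (add_le_add le_rfl (norm_add_le _ _)).trans ?_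
  rw [norm_smul, norm_smul, h5, Real.norm_eq_abs, Real.norm_eq_abs]
  have h7 : |s| * ‖pr p z‖ ≤ 1 * ‖z‖ := by gcongr
  have h8 : |d * -(ε⁻¹ * (2 * -(2 • aa p x ^ (2 - 1) * (fderiv ℝ (aa p) x) z)))|
      * (‖x‖ * (2 * aa p x * sg p x)) ≤ 4 * C * ‖z‖ := by
    calc _ = 4 * |d| * (aa p x ^ 2 * (sg p x / ε * (2 * ‖x‖ * |fderiv ℝ (aa p) x z|))) := by
          simp only [abs_mul, abs_neg, abs_inv, abs_of_pos hε, abs_two, nsmul_eq_mul,
            Nat.cast_ofNat, Nat.add_one_sub_one, pow_one, abs_of_pos a0]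
          field_simp; ring
      _ ≤ 4 * C * (1 * (sg p x / ε * (sg p x * ‖z‖))) := by
          gcongr
          nlinarith
      _ = 4 * C * (sg p x ^ 2 / ε * ‖z‖) := by ring
      _ ≤ 4 * C * (1 * ‖z‖) := by
          gcongr
          rwa [div_le_one hε]
      _ = _ := by ring
  linarith

variable [MeasurableSpace E] [BorelSpace E]

theorem integrable_weight {ψ : ℝ → ℝ} (hψ : Continuous ψ) (hψ0 : ∀ t, ψ t ≠ 0 → 1 ≤ t ∧ t ≤ 3) :
    Integrable (fun x : E => ψ ‖x‖) volume :=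
  integrable_of_cpt (isCompact_closedBall 0 3) (fun x _ => (hψ.comp continuous_norm).continuousAt)
    fun x hx => by
      by_contra h
      exact hx (by simpa using (hψ0 _ h).2)

theorem ma3 (J : ℕ) (hE : Module.finrank ℝ E = 2 * (J + 1) + 3) (hp : ‖p‖ = 1) (hf : Good1 p f)
    {b : E} (hfb : ∀ t : ℝ, t < 0 → f (t • p) = b) {ψ : ℝ → ℝ} (hψ : ContDiff ℝ 1 ψ)
    (hψ0 : ∀ t, ψ t ≠ 0 → 1 ≤ t ∧ t ≤ 3) (hψn : ∀ t, 0 ≤ ψ t)
    {h h' : E → ℝ} (hh : Integrable h volume) (hh' : Integrable h' volume)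
    (hb : ∀ x ∈ Om p, ψ ‖x‖ * dens (J + 1) p f x ≤ h x)
    (hb' : ∀ x ∈ Om p, ψ ‖x‖ * dens (J + 1) p (fun _ => b) x ≤ h' x) :
    Integrable (fun x => ψ ‖x‖ * (Lf (J + 1) p f x - Lf (J + 1) p (fun _ => b) x)) volume ∧
    ∫ x, ψ ‖x‖ * (Lf (J + 1) p f x - Lf (J + 1) p (fun _ => b) x) = 0 := by
  obtain ⟨C, hC0, hC⟩ := st_bound
  have hg : Good p fun _ => b := by
    have h1 := hf _ (neg_mem_Om1 hp)
    have h2 := hfb (-1) (by norm_num)
    rw [neg_one_smul] at h2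
    rw [h2] at h1
    exact good_const h1.2.1 h1.2.2
  let K : Set E := Metric.closedBall 0 6 ∩ {x | ⟪p, x⟫ ≤ -(1 / 2)}
  have hK : IsCompact K := (isCompact_closedBall _ _).inter_right
    (isClosed_le (continuous_const.inner continuous_id) continuous_const)
  obtain ⟨M1, hM1⟩ := hK.exists_bound_of_continuousOn (f := fderiv ℝ f) fun x hx =>
    ((hf x (by
      have : ⟪p, x⟫ ≤ -(1 / 2) := hx.2
      change ⟪p, x⟫ < ‖x‖; linarith [norm_nonneg x])).1
      |>.continuousAt_fderiv two_ne_zero).continuousWithinAt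
  obtain ⟨M, hM⟩ := gd_bound (E := E) (3 * (M1 * (2 + 4 * C)) + 4)
  let ε : ℕ → ℝ := fun n => 1 / (4 * ((n : ℝ) + 1))
  have hε : ∀ n, 0 < ε n := fun n => by positivity
  have hε1 : ∀ n, ε n ≤ 1 / 4 := fun n => by
    have : (0 : ℝ) ≤ n := Nat.cast_nonneg n
    exact one_div_le_one_div_of_le (by norm_num) (by linarith)
  have hG : ∀ n, Good p (f ∘ kap p (ε n)) := fun n x hx =>
    have := hf _ (kap_mem hp (hε n) (hε1 n) hx)
    ⟨this.1.comp x (contDiffAt_kap hp _ hx), this.2⟩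
  have hd : ∀ n, ∀ x ∈ Om p,
      ψ ‖x‖ * dens (J + 1) p (f ∘ kap p (ε n)) x ≤ h x + |M| * ψ ‖x‖ := by
    intro n x hx
    have h0 : 0 ≤ |M| * ψ ‖x‖ := mul_nonneg (abs_nonneg _) (hψn _)
    have h1 := hb x hx
    rcases lt_or_ge (ε n) (1 - aa p x ^ 2) with h2 | h2
    · rw [dens_congr _ p (kap_eventually hp (hε n) hx h2)]; linarith
    have h3 := mul_nonneg (hψn ‖x‖) (dens_nonneg (J + 1) p f x)
    by_cases h4 : ψ ‖x‖ = 0
    · rw [h4] at h1 ⊢; linarith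
    obtain ⟨r1, r3⟩ := hψ0 _ h4
    have h5 := inner_le_of_small hp hx (h2.trans (hε1 n))
    have h6 : kap p (ε n) x ∈ K := by
      refine ⟨?_, by rw [Set.mem_setOf_eq, inner_kap hp]; linarith⟩
      rw [mem_closedBall_zero_iff, kap]
      refine (norm_sub_le _ _).trans ?_
      rw [norm_smul, Real.norm_eq_abs, abs_of_nonneg (Real.smoothTransition.nonneg _)]
      have := mul_le_mul (Real.smoothTransition.le_one (2 - 2 * (1 - aa p x ^ 2) / ε n))
        (norm_pr_le hp x) (norm_nonneg _) zero_le_one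
      linarith
    have h7 : ‖fderiv ℝ (f ∘ kap p (ε n)) x‖ ≤ M1 * (2 + 4 * C) := by
      rw [fderiv_comp x ((hf _ (kap_mem hp (hε n) (hε1 n) hx)).1.differentiableAt two_ne_zero)
        ((contDiffAt_kap hp _ hx).differentiableAt two_ne_zero)]
      exact (ContinuousLinearMap.opNorm_comp_le _ _).trans (mul_le_mul (hM1 _ h6)
        (fderiv_kap_le hp hC (hε n) hx h2) (norm_nonneg _) ((norm_nonneg _).trans (hM1 _ h6)))
    have h8 : ‖Yf p (f ∘ kap p (ε n)) x‖ ≤ 3 * (M1 * (2 + 4 * C)) + 4 := by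
      refine (((hG n).pd hp hx).Y_le ?_).trans ?_
      · have := hε1 n
        nlinarith [aa_nonneg p x]
      · gcongr
    have h9 : dens (J + 1) p (f ∘ kap p (ε n)) x ≤ |M| :=
      (div_le_self (gd_pos _).le (one_le_pow₀ r1)).trans ((hM _ h8).trans (le_abs_self M))
    nlinarith [hψn ‖x‖]
  have hw := integrable_weight (E := E) hψ.continuous hψ0
  have hH : Integrable (fun x => h x + |M| * ψ ‖x‖ + h' x) volume := (hh.add (hw.const_mul _)).add hh'
  have hbd : ∀ n, ∀ x ∈ Om p, ψ ‖x‖ * (dens (J + 1) p (f ∘ kap p (ε n)) x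
      + dens (J + 1) p (fun _ => b) x) ≤ h x + |M| * ψ ‖x‖ + h' x := fun n x hx => by
    rw [mul_add]; exact add_le_add (hd n x hx) (hb' x hx)
  have key := fun n => ma2 J hE hp (hG n) hg hψ hψ0 hψn (a0 := √(1 - ε n / 2))
    (by rw [Real.sqrt_lt' one_pos]; linarith [hε n]) (fun x hx h1 => by
      have h2 : 1 - ε n / 2 < aa p x ^ 2 := Real.lt_sq_of_sqrt_lt h1
      have h3 := inner_le_of_small hp hx (by linarith [hε1 n])
      have h4 := Om.norm_pos hp hx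
      rw [Function.comp_apply, kap, Real.smoothTransition.one_of_one_le, one_smul, pr,
        sub_sub_cancel]
      · exact hfb _ (by linarith)
      · rw [le_sub_comm, div_le_iff₀ (hε n)]; linarith) hH (hbd n)
  refine dct0 (fun n => (key n).1) (fun n => (key n).2) hH (fun n => ?_) ?_
  · filter_upwards [ae_Om (by omega) p] with x hx
    refine le_trans ?_ (hbd n x hx)
    rw [abs_mul, abs_of_nonneg (hψn _)]
    exact mul_le_mul_of_nonneg_left ((abs_sub _ _).trans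
      (add_le_add (((hG n).pd hp hx).LE_le J hE) ((hg.pd hp hx).LE_le J hE))) (hψn _)
  · filter_upwards [ae_Om (by omega) p] with x hx
    have hs : 0 < 1 - aa p x ^ 2 := by rw [← sg_sq hp]; exact pow_pos (Om.sg_pos hp hx) 2
    obtain ⟨N, hN⟩ := exists_nat_gt (1 / (1 - aa p x ^ 2))
    refine tendsto_const_nhds.congr' ?_
    filter_upwards [eventually_ge_atTop N] with n hn
    have h1 : ε n < 1 - aa p x ^ 2 := by
      have h2 : (N : ℝ) ≤ n := by exact_mod_cast hn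
      have h3 : (0 : ℝ) ≤ n := Nat.cast_nonneg n
      rw [div_lt_iff₀ hs] at hN
      simp only [ε]
      rw [div_lt_iff₀ (by positivity)]
      nlinarith
    rw [Lf_congr _ p (kap_eventually hp (hε n) hx h1)]

end Pool.Agent.Lib.MP_13d336_gt
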