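import Mathlib

set_option autoImplicit false

namespace Pool.Agent.Lib.MP_13d336_gt

open Finset Function

/-- Banach's theorem on symmetric multilinear maps on a Euclidean space. -/
theorem banach {k : ℕ} {H Q : Type*} [NormedAddCommGroup H] [InnerProductSpace ℝ H]
    [FiniteDimensional ℝ H] [Nontrivial H] [NormedAddCommGroup Q] [NormedSpace ℝ Q]
    (B : MultilinearMap ℝ (fun _ : Fin k => H) Q) (hB : Continuous B)
    (hs : ∀ (a : Fin k → H) (i j : Fin k), B (a ∘ Equiv.swap i j) = B a)
    (h : ∀ x : H, ‖x‖ = 1 → ‖B fun _ => x‖ ≤ 1) (a : Fin k → H) (ha : ∀ i, ‖a i‖ = 1) :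
    ‖B a‖ ≤ 1 := by
  classical
  have : ProperSpace H := FiniteDimensional.proper ℝ H
  let K : Set (Fin k → H) := Set.pi Set.univ fun _ => Metric.sphere 0 1
  have hK : IsCompact K := isCompact_univ_pi fun _ => isCompact_sphere 0 1
  have memK : ∀ a : Fin k → H, a ∈ K ↔ ∀ i, ‖a i‖ = 1 := by
    intro a; simp [K, Set.mem_pi]
  obtain ⟨a0, ha0, hM⟩ := hK.exists_isMaxOn ⟨a, (memK a).2 ha⟩ hB.norm.continuousOn
  set M := ‖B a0‖ with hMd
  have hM' : ∀ a, (∀ i, ‖a i‖ = 1) → ‖B a‖ ≤ M := fun a ha => hM ((memK a).2 ha)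
  have hK' : IsCompact (K ∩ {a | ‖B a‖ = M}) :=
    hK.inter_right (isClosed_eq hB.norm continuous_const)
  obtain ⟨a1, ⟨ha1, ha1M⟩, hφ⟩ := hK'.exists_isMaxOn (f := fun a : Fin k → H => ‖∑ i, a i‖ ^ 2)
    ⟨a0, ha0, rfl⟩ (by fun_prop)
  replace ha1 := (memK a1).1 ha1
  have ha1M' : ‖B a1‖ = M := ha1M
  have key : ∀ i j, a1 i = a1 j ∨ a1 i = -a1 j := by
    intro i j
    by_contra hcon
    push Not at hcon
    have hij : i ≠ j := by rintro rfl; exact hcon.1 rfl
    set x := a1 i
    set y := a1 j
    have hx : ‖x‖ = 1 := ha1 i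
    have hy : ‖y‖ = 1 := ha1 j
    have h1 : 0 < ‖x + y‖ := norm_pos_iff.2 fun h => hcon.2 (eq_neg_of_add_eq_zero_left h)
    have h2 : 0 < ‖x - y‖ := norm_pos_iff.2 fun h => hcon.1 (sub_eq_zero.1 h)
    set c := ‖x + y‖ / 2 with hc
    set s := ‖x - y‖ / 2 with hsd
    have hc0 : 0 < c := by positivity
    have hs0 : 0 < s := by positivity
    have hcs : c ^ 2 + s ^ 2 = 1 := by
      have := parallelogram_law_with_norm ℝ x y
      rw [hx, hy] at this
      rw [hc, hsd]; nlinarith
    set e := ‖x + y‖⁻¹ • (x + y) with he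
    set e' := ‖x - y‖⁻¹ • (x - y) with he'
    have hen : ‖e‖ = 1 := by rw [he, norm_smul, norm_inv, norm_norm, inv_mul_cancel₀ h1.ne']
    have hen' : ‖e'‖ = 1 := by rw [he', norm_smul, norm_inv, norm_norm, inv_mul_cancel₀ h2.ne']
    have hce : c • e = (1 / 2 : ℝ) • (x + y) := by
      rw [he, smul_smul, hc]; congr 1; field_simp
    have hse : s • e' = (1 / 2 : ℝ) • (x - y) := by
      rw [he', smul_smul, hsd]; congr 1; field_simp
    have hxe : x = c • e + s • e' := by rw [hce, hse]; module
    have hye : y = c • e + (-s) • e' := by rw [neg_smul, hce, hse]; module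
    let b : H → H → Q := fun u v => B (update (update a1 i u) j v)
    have b1 : ∀ (p q : ℝ) u u' v, b (p • u + q • u') v = p • b u v + q • b u' v := by
      intro p q u u' v
      simp only [b, update_comm hij, B.map_update_add, B.map_update_smul]
    have b2 : ∀ (p q : ℝ) u v v', b u (p • v + q • v') = p • b u v + q • b u v' := by
      intro p q u v v'
      simp only [b, B.map_update_add, B.map_update_smul]
    have bs : ∀ u v, b u v = b v u := by
      intro u v
      simp only [b]
      rw [← hs _ i j]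
      congr 1
      ext l
      by_cases hl : l = j
      · subst hl; simp [update_of_ne hij]
      by_cases hl' : l = i
      · subst hl'; simp [update_of_ne hl]
      · simp [Equiv.swap_apply_of_ne_of_ne hl' hl, update_of_ne hl, update_of_ne hl']
    have bn : ∀ u v, ‖u‖ = 1 → ‖v‖ = 1 → ∀ l, ‖update (update a1 i u) j v l‖ = 1 := by
      intro u v hu hv l
      by_cases hl : l = j
      · subst hl; simpa using hv
      by_cases hl' : l = i
      · subst hl'; simpa [update_of_ne hl] using hu
      · simpa [update_of_ne hl, update_of_ne hl'] using ha1 l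
    have bxy : b x y = B a1 := by simp [b, x, y]
    have hexp : B a1 = c ^ 2 • b e e - s ^ 2 • b e' e' := by
      rw [← bxy, hxe]
      conv_lhs => rw [hye]
      rw [b1, b2, b2, bs e' e]; module
    have n1 : ‖b e e‖ ≤ M := hM' _ (bn e e hen hen)
    have n2 : ‖b e' e'‖ ≤ M := hM' _ (bn e' e' hen' hen')
    have n3 : ‖b e e‖ = M := by
      have : M ≤ c ^ 2 * ‖b e e‖ + s ^ 2 * ‖b e' e'‖ := by
        rw [← ha1M', hexp]
        refine (norm_sub_le _ _).trans ?_
        rw [norm_smul, norm_smul, Real.norm_of_nonneg (sq_nonneg _),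
          Real.norm_of_nonneg (sq_nonneg _)]
      by_contra hne
      have h3 : ‖b e e‖ < M := lt_of_le_of_ne n1 hne
      have h4 := mul_lt_mul_of_pos_left h3 (pow_pos hc0 2)
      have h5 := mul_le_mul_of_nonneg_left n2 (sq_nonneg s)
      have h6 : c ^ 2 * M + s ^ 2 * M = M := by rw [← add_mul, hcs, one_mul]
      linarith
    have n4 : ‖b (-e) (-e)‖ = M := by
      have : b (-e) (-e) = b e e := by
        have e1 : -e = (-1 : ℝ) • e + (0 : ℝ) • e := by module
        rw [e1, b1, b2]; module
      rw [this, n3]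
    set R := ∑ l, a1 l - x - y with hR
    have hsum : ∀ u v, ∑ l, update (update a1 i u) j v l = R + u + v := by
      intro u v
      rw [sum_update_of_mem (mem_univ j), sum_update_of_mem (by simp [hij]), hR,
        ← add_sum_erase univ a1 (mem_univ j), ← add_sum_erase (univ.erase j) a1 (a := i)
          (by simp [hij]), sdiff_singleton_eq_erase, sdiff_singleton_eq_erase]
      simp only [x, y]; abel
    have hsum1 : ∑ l, a1 l = R + (2 * c) • e := by
      rw [mul_smul, hce, hR]; module
    have f1 := hφ (a := update (update a1 i e) j e) ⟨(memK _).2 (bn e e hen hen), n3⟩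
    have f2 := hφ (a := update (update a1 i (-e)) j (-e))
      ⟨(memK _).2 (bn _ _ (by simpa using hen) (by simpa using hen)), n4⟩
    simp only [Set.mem_ofPred_eq, hsum, hsum1] at f1 f2
    have g1 : R + e + e = R + (2 : ℝ) • e := by module
    have g2 : R + -e + -e = R + (-2 : ℝ) • e := by module
    rw [g1] at f1
    rw [g2] at f2
    simp only [norm_add_sq_real, inner_smul_right, norm_smul, hen, Real.norm_eq_abs, mul_one,
      sq_abs] at f1 f2
    have hc1 : c < 1 := by nlinarith
    nlinarith
  rw [← ha1M'] at hM'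
  refine (hM' a ha).trans ?_
  cases k with
  | zero =>
    obtain ⟨x, hx⟩ := exists_norm_eq H zero_le_one
    have : a1 = fun _ => x := Subsingleton.elim _ _
    rw [this]; exact h x hx
  | succ k =>
    choose ε hε using fun i => show ∃ ε : ℝ, |ε| = 1 ∧ a1 i = ε • a1 0 by
      rcases key i 0 with h | h
      · exact ⟨1, by simp, by simpa using h⟩
      · exact ⟨-1, by simp, by simpa using h⟩
    have : a1 = fun i => ε i • a1 0 := funext fun i => (hε i).2
    rw [this, B.map_smul_univ ε fun _ => a1 0, norm_smul, Real.norm_eq_abs, abs_prod,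
      prod_congr rfl fun i _ => (hε i).1, prod_const_one, one_mul]
    exact h _ (ha1 0)

end Pool.Agent.Lib.MP_13d336_gt
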