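import Pool.Agent.Lib.MP_13d336_gt.Series

set_option autoImplicit false

namespace Pool.Agent.Lib.MP_13d336_gt

open PowerSeries Finset

/-- truncated sum -/
noncomputable def ps (f : PowerSeries ℝ) (n : ℕ) (w : ℝ) : ℝ := ∑ j ∈ range n, coeff j f * w ^ j

def NN (f : PowerSeries ℝ) : Prop := ∀ j, 0 ≤ coeff j f

theorem NN.mul {f g : PowerSeries ℝ} (hf : NN f) (hg : NN g) : NN (f * g) := by
  intro j; rw [coeff_mul]; exact sum_nonneg fun p _ => mul_nonneg (hf _) (hg _)

theorem NN.X_mul {f : PowerSeries ℝ} (hf : NN f) : NN (X * f) := by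
  intro j; cases j with
  | zero => simp
  | succ j => rw [coeff_succ_X_mul]; exact hf j

theorem NN.C_mul {f : PowerSeries ℝ} (hf : NN f) {r : ℝ} (hr : 0 ≤ r) : NN (C r * f) := by
  intro j; rw [coeff_C_mul]; exact mul_nonneg hr (hf j)

theorem ps_nonneg {f : PowerSeries ℝ} (hf : NN f) (n : ℕ) {w : ℝ} (hw : 0 ≤ w) : 0 ≤ ps f n w :=
  sum_nonneg fun j _ => mul_nonneg (hf j) (pow_nonneg hw j)

theorem ps_mul_le_aux {f g : PowerSeries ℝ} (hf : NN f) (hg : NN g) (n m : ℕ) {w : ℝ} (hw : 0 ≤ w)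
    (h : ∀ i l, i + l < n → coeff i f * coeff l g ≠ 0 → i < m ∧ l < m) :
    ps (f * g) n w ≤ ps f m w * ps g m w := by
  classical
  let T : ℕ × ℕ → ℝ := fun p => coeff p.1 f * w ^ p.1 * (coeff p.2 g * w ^ p.2)
  have hT : ∀ p, 0 ≤ T p := fun p =>
    mul_nonneg (mul_nonneg (hf _) (pow_nonneg hw _)) (mul_nonneg (hg _) (pow_nonneg hw _))
  have e1 : ps (f * g) n w = ∑ p ∈ (range n).biUnion (fun j => HasAntidiagonal.antidiagonal j), T p := by
    rw [sum_biUnion]
    · unfold ps
      refine sum_congr rfl fun j _ => ?_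
      rw [coeff_mul, sum_mul]
      refine sum_congr rfl fun p hp => ?_
      rw [HasAntidiagonal.mem_antidiagonal] at hp
      simp only [T, ← hp, pow_add]; ring
    · intro i _ j _ hij
      rw [Function.onFun, disjoint_left]
      intro p h1 h2
      rw [HasAntidiagonal.mem_antidiagonal] at h1 h2
      exact hij (h1.symm.trans h2)
  have e2 : ps f m w * ps g m w = ∑ p ∈ range m ×ˢ range m, T p := by
    unfold ps; rw [sum_mul_sum, sum_product]
  rw [e1, e2, ← sum_filter_ne_zero]
  apply sum_le_sum_of_subset_of_nonneg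
  · intro p hp
    simp only [mem_filter, mem_biUnion, mem_range, HasAntidiagonal.mem_antidiagonal] at hp
    obtain ⟨⟨j, hj, hp⟩, h0⟩ := hp
    have : coeff p.1 f * coeff p.2 g ≠ 0 := by
      intro h1; apply h0
      have : T p = (coeff p.1 f * coeff p.2 g) * (w ^ p.1 * w ^ p.2) := by simp only [T]; ring
      rw [this, h1, zero_mul]
    have := h p.1 p.2 (by omega) this
    simp [mem_product, this]
  · intro p _ _; exact hT p

theorem ps_mul_le {f g : PowerSeries ℝ} (hf : NN f) (hg : NN g) (n : ℕ) {w : ℝ} (hw : 0 ≤ w) :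
    ps (f * g) n w ≤ ps f n w * ps g n w :=
  ps_mul_le_aux hf hg n n hw fun i l h _ => ⟨by omega, by omega⟩

theorem ps_sq_le {f : PowerSeries ℝ} (hf : NN f) (h0 : coeff 0 f = 0) (n : ℕ) {w : ℝ}
    (hw : 0 ≤ w) : ps (f * f) (n + 1) w ≤ ps f n w * ps f n w := by
  refine ps_mul_le_aux hf hf (n + 1) n hw fun i l h h1 => ?_
  have hi : i ≠ 0 := by rintro rfl; simp [h0] at h1
  have hl : l ≠ 0 := by rintro rfl; simp [h0] at h1
  omega

theorem ps_add (f g : PowerSeries ℝ) (n : ℕ) (w : ℝ) : ps (f + g) n w = ps f n w + ps g n w := by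
  simp [ps, add_mul, sum_add_distrib]

theorem ps_sub (f g : PowerSeries ℝ) (n : ℕ) (w : ℝ) : ps (f - g) n w = ps f n w - ps g n w := by
  simp [ps, sub_mul, sum_sub_distrib]

theorem ps_C_mul (r : ℝ) (f : PowerSeries ℝ) (n : ℕ) (w : ℝ) : ps (C r * f) n w = r * ps f n w := by
  simp only [ps, coeff_C_mul, mul_sum, mul_assoc]

theorem ps_X_mul (f : PowerSeries ℝ) (n : ℕ) (w : ℝ) : ps (X * f) (n + 1) w = w * ps f n w := by
  unfold ps
  rw [sum_range_succ', mul_sum]
  simp only [coeff_succ_X_mul, coeff_zero_X_mul, zero_mul, add_zero]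
  exact sum_congr rfl fun j _ => by ring

theorem ps_one (n : ℕ) (w : ℝ) : ps 1 (n + 1) w = 1 := by
  unfold ps
  rw [sum_range_succ']; simp [coeff_one]

theorem cat_NN {c : PowerSeries ℝ} {u : ℝ} (hu : 0 ≤ u) (hc : c = 1 + C u * X * c ^ 2) : NN c := by
  intro n
  induction n using Nat.strong_induction_on with
  | _ n ih =>
    rw [hc]
    cases n with
    | zero => simp
    | succ n =>
      rw [map_add, mul_assoc, coeff_C_mul, coeff_succ_X_mul, sq, coeff_mul, coeff_one]
      simp only [Nat.succ_ne_zero, if_false, zero_add]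
      refine mul_nonneg hu (sum_nonneg fun p hp => ?_)
      rw [HasAntidiagonal.mem_antidiagonal] at hp
      exact mul_nonneg (ih _ (by omega)) (ih _ (by omega))

theorem sqrt_NN {y z : PowerSeries ℝ} (hz : NN z) (h0 : coeff 0 y = 0) (hy : 2 * y = z + y ^ 2) :
    NN y := by
  intro n
  induction n using Nat.strong_induction_on with
  | _ n ih =>
    have h := congrArg (coeff n) hy
    have e2 : (2 : PowerSeries ℝ) = C 2 := by simp [map_ofNat]
    rw [e2, coeff_C_mul, map_add, sq, coeff_mul] at h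
    have : 0 ≤ ∑ p ∈ HasAntidiagonal.antidiagonal n, coeff p.1 y * coeff p.2 y := by
      refine sum_nonneg fun p hp => ?_
      rw [HasAntidiagonal.mem_antidiagonal] at hp
      rcases Nat.eq_zero_or_pos p.1 with h1 | h1
      · rw [h1, h0, zero_mul]
      rcases Nat.eq_zero_or_pos p.2 with h2 | h2
      · rw [h2, h0, mul_zero]
      exact mul_nonneg (ih _ (by omega)) (ih _ (by omega))
    have := hz n
    linarith

theorem sqrt_ps_le {y z : PowerSeries ℝ} (hz : NN z) (h0 : coeff 0 y = 0) (hy : 2 * y = z + y ^ 2)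
    {w : ℝ} (hw : 0 ≤ w) (h1 : ∀ n, ps z n w ≤ 1) (n : ℕ) : ps y n w ≤ 1 := by
  have hN := sqrt_NN hz h0 hy
  induction n with
  | zero => simp [ps]
  | succ n ih =>
    have e2 : (2 : PowerSeries ℝ) = C 2 := by simp [map_ofNat]
    have h := congrArg (fun f => ps f (n + 1) w) hy
    simp only [e2, ps_C_mul, ps_add, sq] at h
    have h2 := ps_sq_le hN h0 n hw
    have h3 := ps_nonneg hN n hw
    have h4 := h1 (n + 1)
    nlinarith

theorem quot_NN {y k c : PowerSeries ℝ} (hy : NN y) (hc : NN c) (h0 : coeff 0 y = 0)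
    (hk : (1 - y) * k = c) : NN k := by
  intro n
  induction n using Nat.strong_induction_on with
  | _ n ih =>
    have hk' : k = c + y * k := by linear_combination hk
    rw [hk', map_add, coeff_mul]
    refine add_nonneg (hc n) (sum_nonneg fun p hp => ?_)
    rw [HasAntidiagonal.mem_antidiagonal] at hp
    rcases Nat.eq_zero_or_pos p.1 with h1 | h1
    · rw [h1, h0, zero_mul]
    exact mul_nonneg (hy _) (ih _ (by omega))

/-- central binomial coefficients over `4^j` -/
noncomputable def bet : ℕ → ℝ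
  | 0 => 1
  | j + 1 => bet j * (2 * j + 1) / (2 * j + 2)

theorem bet_nonneg (j : ℕ) : 0 ≤ bet j := by
  induction j with
  | zero => simp [bet]
  | succ j ih => unfold bet; positivity

theorem bet_succ (j : ℕ) : bet (j + 1) * (2 * j + 2) = bet j * (2 * j + 1) := by
  rw [bet]; field_simp

noncomputable def bS : PowerSeries ℝ := PowerSeries.mk bet

theorem bS_sq : (1 - X) * bS ^ 2 = 1 := by
  have h : 2 * (1 - X) * derivative ℝ bS = bS := by
    have e2 : (2 : PowerSeries ℝ) = C 2 := by simp [map_ofNat]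
    apply PowerSeries.ext; intro n
    rw [mul_assoc, e2, coeff_C_mul, sub_mul, one_mul, map_sub, coeff_derivative]
    cases n with
    | zero =>
      have := bet_succ 0
      simp [bS] at this ⊢; rw [bet] at *; simp [bet]
    | succ n =>
      rw [coeff_succ_X_mul, coeff_derivative]
      have := bet_succ (n + 1)
      simp only [bS, coeff_mk]
      push_cast at this ⊢
      linarith
  apply derivative.ext
  · rw [Derivation.leibniz, derivative_pow, map_sub, derivative_X, derivative_one]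
    simp only [smul_eq_mul, Nat.cast_ofNat, Nat.add_one_sub_one, pow_one]
    linear_combination bS * h
  · have : constantCoeff bS = 1 := by
      rw [← coeff_zero_eq_constantCoeff_apply]; simp [bS, bet]
    simp [this]

theorem bet_bound (J : ℕ) {w : ℝ} (hw0 : 0 ≤ w) (hw1 : w ≤ 1) :
    (1 - w) * (∑ j ∈ range (J + 1), bet j * w ^ j) ^ 2 + w * (bet J * w ^ J) ^ 2 ≤ 1 := by
  let B : ℕ → ℝ → ℝ := fun J w => ∑ j ∈ range (J + 1), bet j * w ^ j
  let B' : ℕ → ℝ → ℝ := fun J w => ∑ j ∈ range (J + 1), bet j * (j * w ^ (j - 1))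
  have hB : ∀ J w, HasDerivAt (B J) (B' J w) w := by
    intro J w
    have := HasDerivAt.fun_sum (u := range (J + 1))
      (fun j _ => (hasDerivAt_pow j w).const_mul (bet j))
    exact this
  have hid : ∀ J w, 2 * (1 - w) * B' J w - B J w = -(2 * J + 1) * bet J * w ^ J := by
    intro J w
    induction J with
    | zero => simp [B, B', bet]
    | succ J ih =>
      have e1 : B (J + 1) w = B J w + bet (J + 1) * w ^ (J + 1) := by
        simp only [B]; rw [sum_range_succ]
      have e2 : B' (J + 1) w = B' J w + bet (J + 1) * ((J + 1) * w ^ J) := by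
        simp only [B']; rw [sum_range_succ]; simp
      rw [e1, e2]
      have := bet_succ J
      push_cast
      linear_combination ih + w ^ J * this
  have hle : ∀ w, 0 ≤ w → bet J * w ^ J ≤ B J w := by
    intro w hw
    exact single_le_sum (f := fun j => bet j * w ^ j)
      (fun j _ => mul_nonneg (bet_nonneg j) (pow_nonneg hw j)) (self_mem_range_succ J)
  let M : ℝ → ℝ := fun w => (1 - w) * B J w ^ 2 + bet J ^ 2 * w ^ (2 * J + 1)
  have hM : ∀ w, HasDerivAt M
      (-(2 * J + 1) * (bet J * w ^ J) * (B J w - bet J * w ^ J)) w := by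
    intro w
    have h1 := (((hasDerivAt_id w).const_sub 1).mul ((hB J w).pow 2)).add
      ((hasDerivAt_pow (2 * J + 1) w).const_mul (bet J ^ 2))
    refine h1.congr_deriv ?_
    have := hid J w
    simp only [id, Pi.pow_apply, Nat.cast_ofNat, Nat.add_one_sub_one, pow_one]
    push_cast
    rw [pow_mul' w 2 J]
    linear_combination (B J w) * this
  have hanti : AntitoneOn M (Set.Icc 0 1) := by
    apply antitoneOn_of_deriv_nonpos (convex_Icc 0 1)
    · exact fun x _ => (hM x).continuousAt.continuousWithinAt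
    · exact fun x _ => (hM x).differentiableAt.differentiableWithinAt
    · intro x hx
      rw [interior_Icc] at hx
      rw [(hM x).deriv]
      have h1 := hle x hx.1.le
      have h2 : 0 ≤ bet J * x ^ J := mul_nonneg (bet_nonneg J) (pow_nonneg hx.1.le J)
      have h3 : (0 : ℝ) ≤ 2 * J + 1 := by positivity
      have := mul_nonneg (mul_nonneg h3 h2) (sub_nonneg.2 h1)
      linarith
  have h := hanti ⟨le_rfl, zero_le_one⟩ ⟨hw0, hw1⟩ hw0
  have hM0 : M 0 = 1 := by
    simp only [M, B]; rw [sum_range_succ']; simp [bet]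
  rw [hM0] at h
  have : M w = (1 - w) * (∑ j ∈ range (J + 1), bet j * w ^ j) ^ 2 + w * (bet J * w ^ J) ^ 2 := by
    simp only [M, B]; ring
  linarith

section real

variable (s : ℝ)

noncomputable def evS (f : PS) : PowerSeries ℝ := PowerSeries.map (Polynomial.evalRingHom s) f

theorem coeff_evS (f : PS) (j : ℕ) : coeff j (evS s f) = (coeff j f).eval s := by simp [evS]

theorem ev_eqs :
    evS s cS = 1 + C (1 - s) * X * evS s cS ^ 2 ∧ coeff 0 (evS s yS) = 0 ∧
    2 * evS s yS = C s * X * evS s cS ^ 2 + evS s yS ^ 2 ∧ (1 - evS s yS) * evS s kS = evS s cS ∧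
    C (1 - s) * evS s cS + (C s - X) * evS s kS ^ 2 = 1 ∧ evS s xS = 1 - evS s yS := by
  have h1 := congrArg (PowerSeries.map (Polynomial.evalRingHom s)) cS_eq
  have h2 := congrArg (PowerSeries.map (Polynomial.evalRingHom s)) yS_eq
  have h3 := congrArg (PowerSeries.map (Polynomial.evalRingHom s)) kS_eq
  have h4 := E2
  rw [mul_assoc, kS_eq] at h4
  replace h4 := congrArg (PowerSeries.map (Polynomial.evalRingHom s)) h4
  simp only [map_add, map_mul, map_sub, map_pow, map_one, map_X, uS, sS, xS, map_C, map_ofNat,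
    Polynomial.coe_evalRingHom, Polynomial.eval_X] at h1 h2 h3 h4
  refine ⟨?_, ?_, h2, h3, ?_, ?_⟩
  · rw [map_sub, map_one]; exact h1
  · rw [coeff_evS, coeff_zero_eq_constantCoeff_apply, yS_zero]; simp
  · rw [map_sub, map_one]; exact h4
  · simp [evS, xS]

variable {s}

theorem xc_ps_bound (hs0 : 0 ≤ s) (hs1 : s ≤ 1) {w : ℝ} (hw0 : 0 ≤ w) (hw : w ≤ s) (J : ℕ) :
    0 ≤ ∑ j ∈ range (J + 1), (xc j).eval s * w ^ j ∧
    ∑ j ∈ range (J + 1), (xc j).eval s * w ^ j ≤ 1 ∧
    (1 ≤ J → ∑ j ∈ range (J + 1), (xc j).eval s * w ^ j ≤ 1 - s * w / 2) := by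
  obtain ⟨h1, h2, h3, -, -, h6⟩ := ev_eqs s
  have hc := cat_NN (sub_nonneg.2 hs1) h1
  have hcs : ∀ n, s * ps (evS s cS) n w ≤ 1 := by
    intro n
    induction n with
    | zero => simp [ps]
    | succ n ih =>
      have h := congrArg (fun f => ps f (n + 1) w) h1
      simp only [ps_add, ps_one, mul_assoc, ps_C_mul, ps_X_mul, sq] at h
      have h2 := ps_mul_le hc hc n hw0
      have h3 := ps_nonneg hc n hw0
      set P := ps (evS s cS) n w
      set Q := ps (evS s cS * evS s cS) n w
      have h4 : s * (w * Q) ≤ 1 := by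
        calc s * (w * Q) ≤ s * (s * (P * P)) := by
              apply mul_le_mul_of_nonneg_left _ hs0
              exact mul_le_mul hw h2 (ps_nonneg (hc.mul hc) n hw0) hs0
          _ = (s * P) * (s * P) := by ring
          _ ≤ 1 := mul_le_one₀ ih (mul_nonneg hs0 h3) ih
      rw [h]
      nlinarith
  have hz : NN (C s * X * evS s cS ^ 2) := by
    rw [mul_assoc, sq]; exact (hc.mul hc).X_mul.C_mul hs0
  have hz1 : ∀ n, ps (C s * X * evS s cS ^ 2) n w ≤ 1 := by
    intro n
    cases n with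
    | zero => simp [ps]
    | succ n =>
      rw [mul_assoc, ps_C_mul, ps_X_mul, sq]
      have h2 := ps_mul_le hc hc n hw0
      have h3 := ps_nonneg hc n hw0
      have ih := hcs n
      set P := ps (evS s cS) n w
      calc s * (w * ps (evS s cS * evS s cS) n w) ≤ s * (s * (P * P)) := by
            apply mul_le_mul_of_nonneg_left _ hs0
            exact mul_le_mul hw h2 (ps_nonneg (hc.mul hc) n hw0) hs0
        _ = (s * P) * (s * P) := by ring
        _ ≤ 1 := mul_le_one₀ ih (mul_nonneg hs0 h3) ih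
  have hy := sqrt_NN hz h2 h3
  have hy1 := sqrt_ps_le hz h2 h3 hw0 hz1 (J + 1)
  have hy0 := ps_nonneg hy (J + 1) hw0
  have e : ∑ j ∈ range (J + 1), (xc j).eval s * w ^ j = 1 - ps (evS s yS) (J + 1) w := by
    rw [← ps_one J w, ← ps_sub, ← h6]
    simp only [ps, coeff_evS, xc]
  rw [e]
  refine ⟨by linarith, by linarith, fun hJ => ?_⟩
  have hy1' : coeff 1 (evS s yS) = s / 2 := by
    have h := congrArg (coeff 1) h3
    have e2 : (2 : PowerSeries ℝ) = C 2 := by simp [map_ofNat]
    have hc0 : coeff 0 (evS s cS) = 1 := by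
      rw [coeff_evS, coeff_zero_eq_constantCoeff_apply, cS_zero]; simp
    rw [e2, coeff_C_mul, map_add, mul_assoc, coeff_C_mul, coeff_succ_X_mul, sq, sq, coeff_mul,
      coeff_mul] at h
    simp only [Nat.antidiagonal_succ, sum_cons, h2, zero_mul] at h
    rw [coeff_zero_eq_constantCoeff_apply] at hc0
    simp [h2, hc0] at h
    linarith
  have := single_le_sum (f := fun j => coeff j (evS s yS) * w ^ j) (s := range (J + 1))
    (fun j _ => mul_nonneg (hy j) (pow_nonneg hw0 j)) (mem_range.2 (by omega : 1 < J + 1))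
  simp only [hy1', pow_one] at this
  unfold ps; linarith

theorem kc_bound (hs0 : 0 < s) (hs1 : s ≤ 1) (j : ℕ) :
    0 ≤ (kc j).eval s ∧ (kc j).eval s * s ^ j ≤ bet j := by
  obtain ⟨h1, h2, h3, h4, h5, -⟩ := ev_eqs s
  have hc := cat_NN (sub_nonneg.2 hs1) h1
  have hz : NN (C s * X * evS s cS ^ 2) := by
    rw [mul_assoc, sq]; exact (hc.mul hc).X_mul.C_mul hs0.le
  have hy := sqrt_NN hz h2 h3
  have hk := quot_NN hy hc h2 h4
  refine ⟨by have := hk j; rwa [coeff_evS] at this, ?_⟩
  set k := rescale s (evS s kS) with hkd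
  set c := rescale s (evS s cS) with hcd
  have hcN : NN c := by
    intro i; rw [hcd, coeff_rescale]; exact mul_nonneg (pow_nonneg hs0.le i) (hc i)
  have rC : ∀ r : ℝ, rescale s (C r) = C r := by
    intro r; apply PowerSeries.ext; intro n
    rw [coeff_rescale, coeff_C]; split_ifs with h <;> simp [h]
  have h1' := congrArg (rescale s) h1
  have h5' := congrArg (rescale s) h5
  simp only [map_add, map_mul, map_sub, map_pow, map_one, rescale_X, rC, ← hkd, ← hcd] at h1' h5'
  have hCs : (C s : PowerSeries ℝ) ≠ 0 := by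
    intro h; have := congrArg constantCoeff h; simp at this; exact hs0.ne' this
  have hk2 : (1 - X) * k ^ 2 = 1 - (1 - C s) ^ 2 * X * c ^ 2 := by
    apply mul_left_cancel₀ hCs
    linear_combination h5' - (1 - C s) * h1'
  obtain ⟨D, hD⟩ := exists_cat (C (1 / 4 : ℝ) * ((1 - C s) ^ 2 * X * c ^ 2)) (by simp)
  set w : PowerSeries ℝ := C (1 / 4 : ℝ) * ((1 - C s) ^ 2 * X * c ^ 2) with hw
  have h4w : 4 * w = (1 - C s) ^ 2 * X * c ^ 2 := by
    have : (4 : PowerSeries ℝ) * C (1 / 4 : ℝ) = 1 := by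
      have e : (4 : PowerSeries ℝ) = C (4 : ℝ) := by simp [map_ofNat]
      rw [e, ← map_mul]; norm_num
    rw [hw, ← mul_assoc, this, one_mul]
  have hY0 : coeff 0 (2 * w * D) = 0 := by simp [hw]
  have hY : 2 * (2 * w * D) = (1 - C s) ^ 2 * X * c ^ 2 + (2 * w * D) ^ 2 := by
    rw [← h4w]; linear_combination 4 * w * hD
  set Y := 2 * w * D
  have hYN : NN Y := by
    refine sqrt_NN ?_ hY0 hY
    have : (1 - C s) ^ 2 * X * c ^ 2 = C ((1 - s) ^ 2) * (X * (c * c)) := by
      simp only [map_pow, map_sub, map_one]; ring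
    rw [this]; exact (hcN.mul hcN).X_mul.C_mul (sq_nonneg _)
  have hB := bS_sq
  have hX1 : (1 - X : PowerSeries ℝ) ≠ 0 := by
    intro h; have := congrArg constantCoeff h; simp at this
  have hprod : (k - bS * (1 - Y)) * (k + bS * (1 - Y)) = 0 := by
    apply mul_left_cancel₀ hX1
    linear_combination hk2 - (1 - Y) ^ 2 * hB + hY
  have hk0 : constantCoeff k = 1 := by
    rw [← coeff_zero_eq_constantCoeff_apply, hkd, coeff_rescale, coeff_evS,
      coeff_zero_eq_constantCoeff_apply, kS_zero]; simp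
  have hb0 : constantCoeff bS = 1 := by
    rw [← coeff_zero_eq_constantCoeff_apply]; simp [bS, bet]
  have hne : k + bS * (1 - Y) ≠ 0 := by
    intro h; have := congrArg constantCoeff h
    rw [coeff_zero_eq_constantCoeff_apply] at hY0
    simp [hk0, hb0, hY0] at this
  have hkk : k = bS - bS * Y := by
    have := (mul_eq_zero.1 hprod).resolve_right hne
    linear_combination this
  have hBN : NN bS := fun i => by simp [bS, bet_nonneg]
  have := congrArg (coeff j) hkk
  rw [map_sub, hkd, coeff_rescale, coeff_evS] at this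
  have h7 := hBN.mul hYN j
  have h8 : coeff j bS = bet j := by simp [bS]
  unfold kc
  linarith

/-- The comass bound on the unit circle. -/
theorem norm_bound (hs0 : 0 < s) (hs1 : s ≤ 1) {w : ℝ} (hw0 : 0 ≤ w) (hw : w ≤ s) {J : ℕ}
    (hJ : 1 ≤ J) :
    (1 - s) * (∑ j ∈ range (J + 1), (xc j).eval s * w ^ j) ^ 2
      + (s - w) * (∑ j ∈ range (J + 1), (kc j).eval s * w ^ j) ^ 2
      + w * ((kc J).eval s * w ^ J) ^ 2 ≤ 1 - (1 - s) * s * w / 2 := by
  obtain ⟨h1, h2, h3⟩ := xc_ps_bound hs0.le hs1 hw0 hw J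
  replace h3 := h3 hJ
  set Xs := ∑ j ∈ range (J + 1), (xc j).eval s * w ^ j
  have hX : Xs ^ 2 ≤ 1 - s * w / 2 := by nlinarith
  set t := w / s with ht
  have hwt : w = s * t := by rw [ht]; field_simp
  have ht0 : 0 ≤ t := div_nonneg hw0 hs0.le
  have ht1 : t ≤ 1 := (div_le_one hs0).2 hw
  have hterm : ∀ j, 0 ≤ (kc j).eval s * w ^ j ∧ (kc j).eval s * w ^ j ≤ bet j * t ^ j := by
    intro j
    obtain ⟨a, b⟩ := kc_bound hs0 hs1 j
    refine ⟨mul_nonneg a (pow_nonneg hw0 j), ?_⟩
    rw [hwt, mul_pow, ← mul_assoc]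
    exact mul_le_mul_of_nonneg_right b (pow_nonneg ht0 j)
  have hK0 : 0 ≤ ∑ j ∈ range (J + 1), (kc j).eval s * w ^ j := sum_nonneg fun j _ => (hterm j).1
  have hK1 : ∑ j ∈ range (J + 1), (kc j).eval s * w ^ j ≤ ∑ j ∈ range (J + 1), bet j * t ^ j :=
    sum_le_sum fun j _ => (hterm j).2
  have hb := bet_bound J ht0 ht1
  have a1 := pow_le_pow_left₀ hK0 hK1 2
  have a2 := pow_le_pow_left₀ (hterm J).1 (hterm J).2 2
  have a3 : (s - w) * (∑ j ∈ range (J + 1), (kc j).eval s * w ^ j) ^ 2
      + w * ((kc J).eval s * w ^ J) ^ 2 ≤ s := by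
    calc _ ≤ (s - w) * (∑ j ∈ range (J + 1), bet j * t ^ j) ^ 2 + w * (bet J * t ^ J) ^ 2 := by
          gcongr
      _ = s * ((1 - t) * (∑ j ∈ range (J + 1), bet j * t ^ j) ^ 2 + t * (bet J * t ^ J) ^ 2) := by
          rw [hwt]; ring_nf
      _ ≤ s := by nlinarith
  have a4 := mul_le_mul_of_nonneg_left hX (sub_nonneg.2 hs1)
  nlinarith

end real

end Pool.Agent.Lib.MP_13d336_gt
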