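import Pool.Agent.Lib.MP_13d336_gt.Coef
import Pool.Agent.Lib.MP_13d336_gt.SeriesBound

set_option autoImplicit false
set_option linter.unusedSimpArgs false

namespace Pool.Agent.Lib.MP_13d336_gt

open MvPolynomial Finset

noncomputable def ev (a t U F : ℝ) : PP →+* ℝ := eval ![a, t, U, F]

def rs (a t : ℝ) : ℝ := a ^ 2 + (1 - a ^ 2) * t ^ 2
def rR (a t U F : ℝ) : ℝ := 4 * a ^ 2 * (1 - a ^ 2) * U ^ 2 + (F - 2 * (1 - a ^ 2) * t * U) ^ 2

section
variable (a t U F : ℝ)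
theorem ev_a : ev a t U F va = a := by simp [ev, va]
theorem ev_t : ev a t U F vt = t := by simp [ev, vt]
theorem ev_U : ev a t U F vU = U := by simp [ev, vU]
theorem ev_F : ev a t U F vF = F := by simp [ev, vF]
theorem ev_S : ev a t U F pS = 1 - a ^ 2 := by simp [pS, ev_a, sq]
theorem ev_sm : ev a t U F psm = rs a t := by
  simp only [psm, map_add, map_mul, ev_a, ev_t, ev_S, rs]; ring
theorem ev_V : ev a t U F pV = F - 2 * (1 - a ^ 2) * t * U := by
  simp only [pV, map_sub, map_mul, ev_t, ev_S, ev_U, ev_F, map_ofNat]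
theorem ev_R : ev a t U F pR = rR a t U F := by
  simp only [pR, map_add, map_mul, ev_a, ev_S, ev_U, ev_V, map_ofNat, rR]; ring
theorem ev_Xi : ev a t U F pXi = t * F - 2 * rs a t * U := by
  simp only [pXi, map_sub, map_mul, ev_t, ev_sm, ev_U, ev_F, map_ofNat]
theorem ev_ph : ev a t U F pph = a * F := by simp only [pph, map_mul, ev_a, ev_F]
theorem ev_ev1 (q : Polynomial ℝ) : ev a t U F (ev1 q) = q.eval (rs a t) := by
  unfold ev1
  induction q using Polynomial.induction_on' with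
  | add p q hp hq => rw [map_add, map_add, hp, hq, Polynomial.eval_add]
  | monomial n c =>
    rw [Polynomial.aeval_monomial, algebraMap_eq, map_mul, map_pow, ev_sm,
      Polynomial.eval_monomial]
    simp [ev]

theorem key_id : rs a t * rR a t U F
    = (1 - a ^ 2) * (t * F - 2 * rs a t * U) ^ 2 + (a * F) ^ 2 := by
  unfold rs rR; ring

variable {a t U F}

theorem ev_pX (w : ℝ) (hw : (a * F) ^ 2 = rR a t U F * w) (J : ℕ) :
    ev a t U F (pX J) = rR a t U F ^ J * ∑ j ∈ range (J + 1), (xc j).eval (rs a t) * w ^ j := by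
  induction J with
  | zero => simp [pX, xc_zero]
  | succ J ih =>
    rw [pX, sum_range_succ _ (J + 1)]
    simp only [map_add, map_mul, map_pow, ev_R, ih, ev_ev1, ev_ph]
    rw [pow_mul, ← sq, hw]; ring

theorem ev_pT (w : ℝ) (hw : (a * F) ^ 2 = rR a t U F * w) (J : ℕ) :
    ev a t U F (pT J) = rR a t U F ^ J * ((kc J).eval (rs a t) * w ^ J) := by
  simp only [pT, map_mul, map_pow, ev_ev1, ev_ph]
  rw [pow_mul, hw]; ring

theorem ev_pK (w : ℝ) (hw : (a * F) ^ 2 = rR a t U F * w) (J : ℕ) :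
    ev a t U F (pK (J + 1))
      = rR a t U F ^ J * ∑ j ∈ range (J + 1), (kc j).eval (rs a t) * w ^ j := by
  induction J with
  | zero => simp [pK, kc_zero, ev_ev1]
  | succ J ih =>
    rw [pK, sum_range_succ _ (J + 1)]
    have := ev_pT w hw (J + 1)
    rw [pT] at this
    rw [map_add, map_mul, ev_R, ih, this]; ring

end

/-- the squared length of the calibrating vector -/
noncomputable def rN (J : ℕ) (a t U F : ℝ) : ℝ :=
  (1 - a ^ 2) * (ev a t U F (pE (pX J) (pK J) (pT J))) ^ 2 + (ev a t U F (pQv (pK J) (pT J))) ^ 2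
    + (1 - a ^ 2) * (1 - t ^ 2) * (t * ev a t U F (pX J) - ev a t U F (pZ (pK J) (pT J))) ^ 2

theorem rs_pos {a t : ℝ} (ha : 0 < a) (ha1 : a < 1) : 0 < rs a t := by
  have : 0 < 1 - a ^ 2 := by nlinarith
  unfold rs; positivity

theorem rs_le {a t : ℝ} (ha : 0 < a) (ha1 : a < 1) (ht : t ^ 2 ≤ 1) : rs a t ≤ 1 := by
  have : 0 < 1 - a ^ 2 := by nlinarith
  unfold rs; nlinarith

theorem rR_nonneg {a t U F : ℝ} (ha : 0 ≤ a) (ha1 : a ≤ 1) : 0 ≤ rR a t U F := by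
  have : 0 ≤ 1 - a ^ 2 := by nlinarith
  unfold rR; positivity

theorem rN_le (J : ℕ) {a t : ℝ} (ha : 0 < a) (ha1 : a < 1) (ht : t ^ 2 ≤ 1) (U F : ℝ) {η : ℝ}
    (h0 : 0 ≤ η) (h1 : η ≤ (1 - rs a t) * rs a t ^ 2 / (4 * (J + 1))) :
    rN (J + 1) a t U F ≤ (rR a t U F - η * (a * F) ^ 2 / rs a t) ^ (2 * (J + 1)) := by
  have hS : 0 < 1 - a ^ 2 := by nlinarith
  have hs0 := rs_pos (t := t) ha ha1
  have hs1 := rs_le ha ha1 ht
  have hid := key_id a t U F
  set s := rs a t with hs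
  set R := rR a t U F with hR
  have hR0 : 0 ≤ R := rR_nonneg ha.le ha1.le
  obtain ⟨w, hw0, hws, hw⟩ : ∃ w, 0 ≤ w ∧ w ≤ s ∧ (a * F) ^ 2 = R * w := by
    rcases hR0.lt_or_eq with h | h
    · refine ⟨(a * F) ^ 2 / R, by positivity, ?_, by field_simp⟩
      rw [div_le_iff₀ h]; nlinarith [mul_nonneg hS.le (sq_nonneg (t * F - 2 * s * U))]
    · refine ⟨0, le_rfl, hs0.le, ?_⟩
      rw [← h] at hid ⊢
      nlinarith [mul_nonneg hS.le (sq_nonneg (t * F - 2 * s * U)), sq_nonneg (a * F)]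
  have hnb := norm_bound hs0 hs1 hw0 hws (J := J + 1) (by omega)
  have eX := ev_pX w hw (J + 1)
  have eK := ev_pK w hw J
  have eT := ev_pT w hw (J + 1)
  rw [sum_range_succ (fun j => (kc j).eval s * w ^ j) (J + 1)] at hnb
  rw [← hs, ← hR] at eX eK eT
  set x := ∑ j ∈ range (J + 1 + 1), (xc j).eval s * w ^ j
  set k := ∑ j ∈ range (J + 1), (kc j).eval s * w ^ j
  set τ := (kc (J + 1)).eval s * w ^ (J + 1)
  have hN : rN (J + 1) a t U F
      = R ^ (2 * (J + 1)) * ((1 - s) * x ^ 2 + (s - w) * (k + τ) ^ 2 + w * τ ^ 2) := by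
    have hXi : (1 - a ^ 2) * (t * F - 2 * s * U) ^ 2 = R * (s - w) := by linarith
    have hsd : s = a ^ 2 + (1 - a ^ 2) * t ^ 2 := rfl
    have hRd : R = 4 * a ^ 2 * (1 - a ^ 2) * U ^ 2 + (F - 2 * (1 - a ^ 2) * t * U) ^ 2 := rfl
    simp only [rN, pE, pQv, pZ, map_add, map_sub, map_mul, map_one, map_ofNat, ev_a, ev_t, ev_U,
      ev_S, ev_V, ev_Xi, eX, eK, eT, ← hs]
    set Ξ := t * F - 2 * s * U with hΞ
    set V := F - 2 * (1 - a ^ 2) * t * U with hV
    have hc : t * V - 2 * a ^ 2 * U = Ξ := by rw [hV, hΞ, hsd]; ring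
    set P := R ^ J
    have e1 : R ^ (J + 1) = P * R := pow_succ _ _
    have e2 : R ^ (2 * (J + 1)) = (P * R) ^ 2 := by rw [← e1, ← pow_mul, mul_comm]
    rw [e1, e2]
    linear_combination (P ^ 2 * k ^ 2 * R + 2 * P ^ 2 * R * k * τ) * hXi
      - (1 - a ^ 2) * Ξ ^ 2 * P ^ 2 * k ^ 2 * hRd
      + 2 * (1 - a ^ 2) * Ξ * P ^ 2 * R * k * τ * hc
      + (P * R) ^ 2 * (x ^ 2 - τ ^ 2) * hsd
  have hb : 1 - (1 - s) * s * w / 2 ≤ (1 - η * w / s) ^ (2 * (J + 1)) := by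
    have hη : η ≤ 1 := by
      refine h1.trans ?_
      rw [div_le_one (by positivity)]
      have : (0 : ℝ) ≤ J := Nat.cast_nonneg J
      have h3 : (1 - s) * s ^ 2 ≤ 1 * 1 :=
        mul_le_mul (by linarith) (pow_le_one₀ hs0.le hs1) (sq_nonneg s) zero_le_one
      linarith
    have hx : η * w / s ≤ 1 := by
      rw [div_le_one hs0]
      calc η * w ≤ 1 * s := mul_le_mul hη hws hw0 zero_le_one
        _ = s := one_mul s
    have := one_add_mul_le_pow (a := -(η * w / s)) (by linarith) (2 * (J + 1))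
    rw [← sub_eq_add_neg] at this
    refine le_trans ?_ this
    push_cast
    rw [le_div_iff₀ (by positivity)] at h1
    have h2 : 2 * ((J : ℝ) + 1) * (η * w / s) ≤ (1 - s) * s * w / 2 := by
      rw [show 2 * ((J : ℝ) + 1) * (η * w / s) = (η * (4 * (J + 1))) * w / (2 * s) by
        field_simp; ring, div_le_iff₀ (by positivity)]
      calc _ ≤ (1 - s) * s ^ 2 * w := mul_le_mul_of_nonneg_right h1 hw0
        _ = _ := by ring
    linarith
  rw [hN, hw, show R - η * (R * w) / s = R * (1 - η * w / s) by ring, mul_pow R (1 - η * w / s)]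
  exact mul_le_mul_of_nonneg_left (hnb.trans hb) (pow_nonneg hR0 _)

theorem rN_le0 (J : ℕ) {a t : ℝ} (ha : 0 < a) (ha1 : a < 1) (ht : t ^ 2 ≤ 1) (U F : ℝ) :
    rN (J + 1) a t U F ≤ rR a t U F ^ (2 * (J + 1)) := by
  have hs1 := rs_le ha ha1 ht
  have := rN_le J ha ha1 ht U F le_rfl (by have := sub_nonneg.2 hs1; positivity)
  simpa using this

/-- values on the leaf direction `F = 0` -/
theorem ev_leaf (J : ℕ) (a t : ℝ) :
    ev a t 1 0 (pE (pX (J + 1)) (pK (J + 1)) (pT (J + 1))) = (4 * (1 - a ^ 2) * rs a t) ^ (J + 1) ∧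
    ev a t 1 0 (pQv (pK (J + 1)) (pT (J + 1))) = a * (4 * (1 - a ^ 2) * rs a t) ^ (J + 1) ∧
    t * ev a t 1 0 (pX (J + 1)) - ev a t 1 0 (pZ (pK (J + 1)) (pT (J + 1))) = 0 := by
  have hw : (a * 0) ^ 2 = rR a t 1 0 * 0 := by simp
  have eX := ev_pX 0 hw (J + 1)
  have eK := ev_pK 0 hw J
  have eT := ev_pT 0 hw (J + 1)
  have hR : rR a t 1 0 = 4 * (1 - a ^ 2) * rs a t := by unfold rR rs; ring
  rw [sum_range_succ'] at eX eK
  simp only [xc_zero, kc_zero, Polynomial.eval_one, pow_zero, mul_one, ne_eq,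
    Nat.add_eq_zero_iff, one_ne_zero, and_false, not_false_eq_true, zero_pow, mul_zero,
    sum_const_zero, zero_add, hR] at eX eK eT
  simp only [pE, pQv, pZ, map_add, map_sub, map_mul, map_one, map_ofNat, ev_a, ev_t, ev_U,
      ev_S, ev_V, ev_Xi, eX, eK, eT]
  refine ⟨by ring, by ring, by ring⟩

theorem hasFDerivAt_eval {E : Type*} [NormedAddCommGroup E] [NormedSpace ℝ E]
    {g : Fin 4 → E → ℝ} {g' : Fin 4 → E →L[ℝ] ℝ} {x : E} (hg : ∀ i, HasFDerivAt (g i) (g' i) x)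
    (p : PP) : HasFDerivAt (fun y => eval (fun i => g i y) p)
      (∑ i, eval (fun i => g i x) (pderiv i p) • g' i) x := by
  induction p using MvPolynomial.induction_on with
  | C a => simpa using hasFDerivAt_const a x
  | add p q hp hq =>
    simp only [map_add, add_smul, sum_add_distrib]
    exact hp.add hq
  | mul_X p n hp =>
    simp only [map_mul, eval_X, pderiv_mul, map_add, add_smul, sum_add_distrib]
    have h := hp.mul (hg n)
    refine h.congr_fderiv ?_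
    rw [add_comm]
    congr 1
    · rw [smul_sum]; refine sum_congr rfl fun i _ => ?_
      rw [smul_smul, mul_comm]
    · rw [sum_eq_single n]
      · simp
      · intro b _ hb; simp [pderiv_X_of_ne hb.symm]
      · simp

theorem hasDerivAt_ev (t U F : ℝ) (p : PP) (a : ℝ) :
    HasDerivAt (fun a => ev a t U F p) (ev a t U F (pderiv 0 p)) a := by
  have h := hasFDerivAt_eval (g := fun i a => ![a, t, U, F] i)
    (g' := ![ContinuousLinearMap.id ℝ ℝ, 0, 0, 0]) (x := a) (by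
      intro i; fin_cases i
      · exact hasFDerivAt_id a
      all_goals exact hasFDerivAt_const _ a) p
  have h2 := h.hasDerivAt
  simpa [Fin.sum_univ_four, ev] using h2

theorem mvt_bound {f f' : ℝ → ℝ} (hf : ∀ x, HasDerivAt f (f' x) x) (h0 : f 0 = 0) {a M : ℝ}
    (ha : 0 < a) (hM : ∀ x, 0 < x → x < a → |f' x| ≤ M) : |f a| ≤ M * a := by
  obtain ⟨c, hc, h⟩ := exists_hasDerivAt_eq_slope f f' ha
    (fun x _ => (hf x).continuousAt.continuousWithinAt) (fun x _ => hf x)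
  rw [h0, sub_zero, sub_zero, eq_div_iff ha.ne'] at h
  rw [← h, abs_mul, abs_of_pos ha]
  exact mul_le_mul_of_nonneg_right (hM c hc.1 hc.2) ha.le

theorem ev_anti_zero (t U F : ℝ) (p : PP) : ev 0 t U F (anti p) = 0 := by
  rw [anti, map_mul, ev_a, zero_mul]

theorem anti_bound (J : ℕ) {a t : ℝ} (ha : 0 < a) (ha1 : a ≤ 1 / 2) (ht : t ^ 2 ≤ 1) (U F : ℝ) :
    (1 - a ^ 2) * (ev a t U F (anti (qH1 (J + 1))) / 2) ^ 2
      + ((ev a t U F (anti (qH2 (J + 1)))
        + 2 * (1 - a ^ 2) * ev a t U F (anti (qH1 (J + 1)))) / (4 * a)) ^ 2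
      ≤ (3 * 2 ^ (J + 1) * a) ^ 2 * rR a t U F ^ (2 * (J + 1)) := by
  set R := rR a t U F with hR
  have hR0 : 0 ≤ R := rR_nonneg ha.le (by linarith)
  set M := 2 ^ (J + 1) * R ^ (J + 1) with hM
  have hM0 : 0 ≤ M := by positivity
  have hb : ∀ x, 0 < x → x < a →
      |ev x t U F (pE (pX (J + 1)) (pK (J + 1)) (pT (J + 1)))| ≤ 3 / 2 * M ∧
      |ev x t U F (pQv (pK (J + 1)) (pT (J + 1)))| ≤ M := by
    intro x hx hxa
    have h1 := rN_le0 J hx (by linarith) ht U F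
    have hx2 : x ^ 2 ≤ a ^ 2 := by nlinarith
    have ha2 : a ^ 2 ≤ 1 / 4 := by nlinarith
    have h2 : rR x t U F ≤ 2 * R := by
      rw [hR]; unfold rR
      set V := F - 2 * (1 - a ^ 2) * t * U
      have e : F - 2 * (1 - x ^ 2) * t * U = V - 2 * (a ^ 2 - x ^ 2) * t * U := by
        simp only [V]; ring
      rw [e]
      have h3 : (V - 2 * (a ^ 2 - x ^ 2) * t * U) ^ 2
          ≤ 2 * V ^ 2 + 8 * (a ^ 2 - x ^ 2) ^ 2 * (t ^ 2 * U ^ 2) := by
        nlinarith [sq_nonneg (V + 2 * (a ^ 2 - x ^ 2) * t * U)]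
      have h4 : t ^ 2 * U ^ 2 ≤ U ^ 2 := by nlinarith [sq_nonneg U]
      have h5 : (a ^ 2 - x ^ 2) ^ 2 ≤ a ^ 2 / 4 := by nlinarith [sq_nonneg x]
      have h6 : (a ^ 2 - x ^ 2) ^ 2 * (t ^ 2 * U ^ 2) ≤ a ^ 2 / 4 * U ^ 2 :=
        mul_le_mul h5 h4 (by positivity) (by positivity)
      have h7 : x ^ 2 * (1 - x ^ 2) * U ^ 2 ≤ a ^ 2 * U ^ 2 := by
        apply mul_le_mul_of_nonneg_right _ (sq_nonneg U); nlinarith [sq_nonneg x]
      have h8 : 3 / 4 * a ^ 2 * U ^ 2 ≤ a ^ 2 * (1 - a ^ 2) * U ^ 2 := by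
        apply mul_le_mul_of_nonneg_right _ (sq_nonneg U); nlinarith [sq_nonneg a]
      nlinarith
    have h3 : rR x t U F ^ (2 * (J + 1)) ≤ M ^ 2 := by
      rw [hM, ← mul_pow, ← pow_mul, mul_comm (J + 1) 2]
      exact pow_le_pow_left₀ (rR_nonneg hx.le (by linarith)) h2 _
    have h4 := h1.trans h3
    unfold rN at h4
    have hS : 3 / 4 ≤ 1 - x ^ 2 := by linarith
    have h5 : 0 ≤ (1 - x ^ 2) * (1 - t ^ 2) * (t * ev x t U F (pX (J + 1))
        - ev x t U F (pZ (pK (J + 1)) (pT (J + 1)))) ^ 2 :=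
      mul_nonneg (mul_nonneg (by linarith) (by linarith)) (sq_nonneg _)
    set E := ev x t U F (pE (pX (J + 1)) (pK (J + 1)) (pT (J + 1)))
    set Q := ev x t U F (pQv (pK (J + 1)) (pT (J + 1)))
    constructor
    · apply abs_le_of_sq_le_sq' _ (by positivity) |> abs_le.2
      nlinarith [sq_nonneg E, sq_nonneg Q, sq_nonneg M]
    · apply abs_le_of_sq_le_sq' _ hM0 |> abs_le.2
      nlinarith [sq_nonneg E, sq_nonneg Q]
  have b1 : |ev a t U F (anti (qH1 (J + 1)))| ≤ 3 * M * a := by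
    refine mvt_bound (hasDerivAt_ev t U F _) (ev_anti_zero _ _ _ _) ha fun x hx hxa => ?_
    rw [d0_anti, qH1, pH1, map_mul, map_ofNat, abs_mul, abs_two]
    linarith [(hb x hx hxa).1]
  have b2 : |ev a t U F (anti (qH2 (J + 1)))
      + 2 * (1 - a ^ 2) * ev a t U F (anti (qH1 (J + 1)))| ≤ 7 * a * M * a := by
    refine mvt_bound (f := fun x => ev x t U F (anti (qH2 (J + 1)))
      + 2 * (1 - a ^ 2) * ev x t U F (anti (qH1 (J + 1))))
      (fun x => (hasDerivAt_ev t U F _ x).add ((hasDerivAt_ev t U F _ x).const_mul _))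
      (by simp [ev_anti_zero]) ha fun x hx hxa => ?_
    obtain ⟨c1, c2⟩ := hb x hx hxa
    simp only [d0_anti, qH1, qH2, pH1, pH2, map_mul, map_neg, map_add, map_ofNat, ev_S, ev_a]
    set E := ev x t U F (pE (pX (J + 1)) (pK (J + 1)) (pT (J + 1)))
    set Q := ev x t U F (pQv (pK (J + 1)) (pT (J + 1)))
    have e : -(4 * ((1 - x ^ 2) * E + x * Q)) + 2 * (1 - a ^ 2) * (2 * E)
        = -(4 * x * Q) - 4 * (a ^ 2 - x ^ 2) * E := by ring
    rw [e]
    have hx2 : 0 ≤ a ^ 2 - x ^ 2 := by nlinarith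
    have hx3 : a ^ 2 - x ^ 2 ≤ a / 2 := by nlinarith [sq_nonneg x]
    calc _ ≤ |-(4 * x * Q)| + |4 * (a ^ 2 - x ^ 2) * E| := abs_sub _ _
      _ = 4 * x * |Q| + 4 * (a ^ 2 - x ^ 2) * |E| := by
          rw [abs_neg, abs_mul, abs_mul (4 * (a ^ 2 - x ^ 2)), abs_of_pos (by positivity : 0 < 4 * x),
            abs_of_nonneg (by positivity : 0 ≤ 4 * (a ^ 2 - x ^ 2))]
      _ ≤ 4 * a * M + 4 * (a / 2) * (3 / 2 * M) := by gcongr
      _ = 7 * a * M := by ring
  set A := ev a t U F (anti (qH1 (J + 1)))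
  set B := ev a t U F (anti (qH2 (J + 1))) + 2 * (1 - a ^ 2) * A
  have hA : A ^ 2 ≤ (3 * M * a) ^ 2 := by rw [← sq_abs A]; gcongr
  have hB : (B / (4 * a)) ^ 2 ≤ (7 / 4 * M * a) ^ 2 := by
    rw [← sq_abs (B / (4 * a)), abs_div, abs_of_pos (by positivity : 0 < 4 * a)]
    gcongr
    rw [div_le_iff₀ (by positivity)]; linarith
  have e : (3 * 2 ^ (J + 1) * a) ^ 2 * R ^ (2 * (J + 1)) = 9 * (M * a) ^ 2 := by
    rw [hM, mul_comm 2 (J + 1), pow_mul]; ring
  rw [e]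
  nlinarith [sq_nonneg A, sq_nonneg a, sq_nonneg (M * a), mul_nonneg (sq_nonneg a) (sq_nonneg A)]

end Pool.Agent.Lib.MP_13d336_gt
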