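import Pool.Agent.Lib.MP_13d336_gt.Frame

set_option autoImplicit false
set_option linter.unusedSimpArgs false
set_option linter.unusedSectionVars false
set_option linter.deprecated false

namespace Pool.Agent.Lib.MP_13d336_gt

open Finset Matrix

section
variable {ι : Type*} [Fintype ι] [DecidableEq ι]

theorem gram_eq {κ : Type*} [Fintype κ] (A : Matrix κ ι ℝ) : Aᵀ * A = ∑ j, oo (A j) := by
  ext i j
  simp [oo, mul_apply, vecMulVec_apply, Matrix.sum_apply]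

open scoped MatrixOrder in
theorem det_mono {H K : Matrix ι ι ℝ} (hH : H.PosSemidef) (hK : K.PosSemidef) :
    H.det ≤ (H + K).det := by
  by_cases h : H.det = 0
  · rw [h]; exact (hH.add hK).det_nonneg
  · obtain ⟨B, rfl⟩ := CStarAlgebra.nonneg_iff_eq_star_mul_self.mp hK.nonneg
    rw [star_eq_conjTranspose, conjTranspose_eq_transpose_of_trivial, gram_eq]
    exact det_le_sum (hH.posDef_iff_det_ne_zero.2 h) _ _

theorem le_det_of_eps {x : ℝ} {G : Matrix ι ι ℝ}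
    (h : ∀ ε : ℝ, 0 < ε → x ≤ (ε • (1 : Matrix ι ι ℝ) + G).det) : x ≤ G.det := by
  have hc : Continuous fun ε : ℝ => (ε • (1 : Matrix ι ι ℝ) + G).det :=
    Continuous.matrix_det (by fun_prop)
  have h1 := (hc.tendsto 0).mono_left (nhdsWithin_le_nhds (s := Set.Ioi 0))
  simp only [zero_smul, zero_add] at h1
  exact ge_of_tendsto h1 (eventually_nhdsWithin_of_forall fun ε hε => h ε hε)

theorem oo_rot (c s : ℝ) (h : c ^ 2 + s ^ 2 = 1) (x y : ι → ℝ) :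
    oo (c • x + s • y) + oo ((-s) • x + c • y) = oo x + oo y := by
  ext i j
  simp only [oo, Matrix.add_apply, vecMulVec_apply, Pi.add_apply, Pi.smul_apply, smul_eq_mul]
  linear_combination (x i * x j + y i * y j) * h

theorem oo_smul (c : ℝ) (x : ι → ℝ) : oo (c • x) = c ^ 2 • oo x := by
  ext i j
  simp only [oo, Matrix.smul_apply, vecMulVec_apply, Pi.smul_apply, smul_eq_mul]
  ring

theorem oo_zero : oo (0 : ι → ℝ) = 0 := by simp [oo]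
end

theorem polar (x y : ℝ) : ∃ ρ c s : ℝ, c ^ 2 + s ^ 2 = 1 ∧ x = ρ * c ∧ y = ρ * s ∧
    ρ ^ 2 = x ^ 2 + y ^ 2 := by
  by_cases h : x ^ 2 + y ^ 2 = 0
  · refine ⟨0, 1, 0, by norm_num, ?_, ?_, by simp [h]⟩ <;> nlinarith [sq_nonneg x, sq_nonneg y]
  · have h1 : 0 < x ^ 2 + y ^ 2 := lt_of_le_of_ne (by positivity) (Ne.symm h)
    have h2 := Real.sq_sqrt h1.le
    have h3 := Real.sqrt_pos.2 h1
    refine ⟨√(x ^ 2 + y ^ 2), x / √(x ^ 2 + y ^ 2), y / √(x ^ 2 + y ^ 2), ?_, ?_, ?_, h2⟩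
    · rw [div_pow, div_pow, h2]; field_simp
    · field_simp
    · field_simp

variable {k : ℕ}

theorem D3_sq (r0 r1 r2 : Fin (k + 3) → ℝ) (c : Fin k → Fin (k + 3) → ℝ) :
    D3 r0 r1 r2 c ^ 2 = (oo r0 + oo r1 + oo r2 + ∑ i, oo (c i)).det := by
  rw [D3_apply, dM_apply, sq]
  nth_rewrite 1 [← det_transpose]
  rw [← det_mul, gram_eq]
  simp only [Fin.sum_univ_succ, add_assoc]
  rfl

theorem base_bound (l ϱ υ v : Fin (k + 3) → ℝ) (c : Fin k → Fin (k + 3) → ℝ) {q0 q1 q2 : ℝ}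
    (hq : q0 ^ 2 + q1 ^ 2 + q2 ^ 2 ≤ 1) :
    (q0 * D3 l ϱ v c + q1 * D3 l ϱ υ c + q2 * D3 l υ v c) ^ 2
      ≤ (oo l + oo ϱ + oo υ + oo v + ∑ i, oo (c i)).det := by
  obtain ⟨n, c1, s1, h1, e0, e1, hn⟩ := polar q0 q1
  obtain ⟨ρ, c2, s2, h2, en, e2, hρ⟩ := polar n q2
  set w := c1 • v + s1 • υ with hw
  set w' := (-s1) • v + c1 • υ with hw'
  have e : q0 * D3 l ϱ v c + q1 * D3 l ϱ υ c + q2 * D3 l υ v c
      = ρ * D3 l (c2 • ϱ + s2 • w') w c := by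
    rw [e0, e1, e2, en]
    simp only [hw, hw', D3_add1, D3_add2, D3_smul1, D3_smul2, D3_self12, D3_swap12 l υ v]
    linear_combination (-(ρ * s2 * D3 l υ v c)) * h1
  have eG : oo l + oo ϱ + oo υ + oo v + ∑ i, oo (c i)
      = (oo l + oo (c2 • ϱ + s2 • w') + oo w + ∑ i, oo (c i)) + oo ((-s2) • ϱ + c2 • w') := by
    have a1 := oo_rot c1 s1 h1 v υ
    have a2 := oo_rot c2 s2 h2 ϱ w'
    rw [← hw, ← hw'] at a1
    rw [eq_sub_of_add_eq' a2, eq_sub_of_add_eq a1]; abel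
  rw [e, eG, mul_pow, D3_sq]
  have hp : (oo l + oo (c2 • ϱ + s2 • w') + oo w + ∑ i, oo (c i)).PosSemidef :=
    (((oo_psd _).add (oo_psd _)).add (oo_psd _)).add (posSemidef_sum _ fun i _ => oo_psd _)
  refine le_trans ?_ (det_mono hp (oo_psd _))
  have := hp.det_nonneg
  have h3 : ρ ^ 2 ≤ 1 := by linarith
  nlinarith

/-- the Gram matrix of the graph -/
noncomputable def Gm (l ϱ υ v : Fin (k + 3) → ℝ) (α β γ : ℝ) (U F : Fin k → Fin (k + 3) → ℝ) :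
    Matrix (Fin (k + 3)) (Fin (k + 3)) ℝ :=
  oo l + oo ϱ + oo υ + oo v + ∑ i, (oo (α • U i + β • F i) + oo (γ • F i))

theorem Gm_psd (l ϱ υ v : Fin (k + 3) → ℝ) (α β γ : ℝ) (U F : Fin k → Fin (k + 3) → ℝ) :
    (Gm l ϱ υ v α β γ U F).PosSemidef :=
  ((((oo_psd _).add (oo_psd _)).add (oo_psd _)).add (oo_psd _)).add
    (posSemidef_sum _ fun _ _ => (oo_psd _).add (oo_psd _))

/-- the diagonal polynomial of a coefficient sequence -/
noncomputable def dg (k : ℕ) (q : ℕ → ℝ) (y1 y2 : ℝ) : ℝ :=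
  ∑ c : Fin k → Bool, y1 ^ cnt c * y2 ^ (k - cnt c) * q (cnt c)

/-- the calibration pairing -/
noncomputable def cal (l ϱ υ v : Fin (k + 3) → ℝ) (q0 q1 q2 : ℕ → ℝ)
    (U F : Fin k → Fin (k + 3) → ℝ) : ℝ :=
  ∑ c : Fin k → Bool, (q0 (cnt c) * D3 l ϱ v (sel U F c) + q1 (cnt c) * D3 l ϱ υ (sel U F c)
    + q2 (cnt c) * D3 l υ v (sel U F c))

theorem cal_le1 {α β γ : ℝ} (hα : α ≠ 0) (hγ : γ ≠ 0) (q0 q1 q2 : ℕ → ℝ)
    (h : ∀ y1 y2 : ℝ, (α * y1 + β * y2) ^ 2 + (γ * y2) ^ 2 = 1 →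
      dg k q0 y1 y2 ^ 2 + dg k q1 y1 y2 ^ 2 + dg k q2 y1 y2 ^ 2 ≤ 1)
    (l ϱ υ v : Fin (k + 3) → ℝ) (U F : Fin k → Fin (k + 3) → ℝ) :
    cal l ϱ υ v q0 q1 q2 U F ^ 2 ≤ (Gm l ϱ υ v α β γ U F).det := by
  let Q := EuclideanSpace ℝ (Fin 3)
  let b : ℕ → Q := fun j => !₂[q0 j, q1 j, q2 j]
  let δ : MultilinearMap ℝ (fun _ : Fin k => Fin (k + 3) → ℝ) Q :=
    (D3 l ϱ v).smulRight (!₂[1, 0, 0] : Q) + (D3 l ϱ υ).smulRight (!₂[0, 1, 0] : Q)
      + (D3 l υ v).smulRight (!₂[0, 0, 1] : Q)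
  have hδ : ∀ (q : Q) r, inner ℝ q (δ r)
      = q 0 * D3 l ϱ v r + q 1 * D3 l ϱ υ r + q 2 * D3 l υ v r := by
    intro q r
    simp only [δ, MultilinearMap.add_apply, MultilinearMap.smulRight_apply, inner_add_right,
      inner_smul_right, Q, PiLp.inner_apply, Fin.sum_univ_three]
    simp; ring
  apply le_det_of_eps
  intro ε hε
  have hG : (ε • (1 : Matrix (Fin (k + 3)) (Fin (k + 3)) ℝ)
      + (oo l + oo ϱ + oo υ + oo v)).PosDef :=
    (PosDef.one.smul hε).add_posSemidef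
      ((((oo_psd _).add (oo_psd _)).add (oo_psd _)).add (oo_psd _))
  have key := torus (β := β) hα hγ k b δ _ hG ?_ ?_ U F
  · rw [Gm, ← add_assoc]
    convert key using 2
    simp only [cal, pairing, hδ]
    rfl
  · intro y hy
    refine blos_le hα hγ k b ?_ y hy
    intro y1 y2 hy
    have h1 := h y1 y2 hy
    have h2 : ‖∑ c : Fin k → Bool, (y1 ^ cnt c * y2 ^ (k - cnt c)) • b (cnt c)‖ ^ 2 ≤ 1 := by
      rw [EuclideanSpace.real_norm_sq_eq, Fin.sum_univ_three]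
      simp only [Q, WithLp.ofLp_sum, WithLp.ofLp_smul, Finset.sum_apply, Pi.smul_apply,
        smul_eq_mul]
      exact h1
    nlinarith [norm_nonneg (∑ c : Fin k → Bool, (y1 ^ cnt c * y2 ^ (k - cnt c)) • b (cnt c))]
  · intro q r hq
    have h2 : q 0 ^ 2 + q 1 ^ 2 + q 2 ^ 2 ≤ 1 := by
      have := EuclideanSpace.real_norm_sq_eq q
      rw [Fin.sum_univ_three] at this
      rw [← this]
      nlinarith [norm_nonneg q]
    rw [hδ]
    refine (base_bound l ϱ υ v r h2).trans ?_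
    rw [add_assoc (ε • _), add_comm (ε • _)]
    exact det_mono (((((oo_psd _).add (oo_psd _)).add (oo_psd _)).add (oo_psd _)).add
      (posSemidef_sum _ fun i _ => oo_psd _)) (PosDef.one.smul hε).posSemidef

theorem cal_le {α β γ Λ : ℝ} (hα : α ≠ 0) (hγ : γ ≠ 0) (hΛ : 0 < Λ) (q0 q1 q2 : ℕ → ℝ)
    (h : ∀ y1 y2 : ℝ, (α * y1 + β * y2) ^ 2 + (γ * y2) ^ 2 = 1 →
      dg k q0 y1 y2 ^ 2 + dg k q1 y1 y2 ^ 2 + dg k q2 y1 y2 ^ 2 ≤ Λ ^ 2)
    (l ϱ υ v : Fin (k + 3) → ℝ) (U F : Fin k → Fin (k + 3) → ℝ) :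
    cal l ϱ υ v q0 q1 q2 U F ^ 2 ≤ Λ ^ 2 * (Gm l ϱ υ v α β γ U F).det := by
  have hd : ∀ (q : ℕ → ℝ) y1 y2, dg k (fun j => Λ⁻¹ * q j) y1 y2 = Λ⁻¹ * dg k q y1 y2 := by
    intro q y1 y2
    simp only [dg, mul_sum]
    exact sum_congr rfl fun c _ => by ring
  have key := cal_le1 hα hγ (fun j => Λ⁻¹ * q0 j) (fun j => Λ⁻¹ * q1 j) (fun j => Λ⁻¹ * q2 j)
    (fun y1 y2 hy => by
      rw [hd, hd, hd, mul_pow, mul_pow, mul_pow, ← mul_add, ← mul_add, inv_pow,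
        inv_mul_le_iff₀ (by positivity), mul_one]
      exact h y1 y2 hy) l ϱ υ v U F
  have e : cal l ϱ υ v (fun j => Λ⁻¹ * q0 j) (fun j => Λ⁻¹ * q1 j) (fun j => Λ⁻¹ * q2 j) U F
      = Λ⁻¹ * cal l ϱ υ v q0 q1 q2 U F := by
    simp only [cal, mul_sum]
    exact sum_congr rfl fun c _ => by ring
  rwa [e, mul_pow, inv_pow, inv_mul_le_iff₀ (by positivity)] at key

theorem cal_F0 (l ϱ υ v : Fin (k + 3) → ℝ) (q0 q1 q2 : ℕ → ℝ) (U : Fin k → Fin (k + 3) → ℝ) :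
    cal l ϱ υ v q0 q1 q2 U 0 = dg k q0 1 0 * D3 l ϱ v U + dg k q1 1 0 * D3 l ϱ υ U
      + dg k q2 1 0 * D3 l υ v U := by
  simp only [cal, dg, sum_mul, ← sum_add_distrib]
  refine sum_congr rfl fun c _ => ?_
  by_cases hc : ∀ i, c i = true
  · have e1 : sel U 0 c = U := by funext i; simp [sel, hc i]
    have e2 : cnt c = k := by simp [cnt, hc]
    simp [e1, e2]
  · push Not at hc
    obtain ⟨i, hi⟩ := hc
    have e1 : ∀ δ : MultilinearMap ℝ (fun _ : Fin k => Fin (k + 3) → ℝ) ℝ, δ (sel U 0 c) = 0 :=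
      fun δ => δ.map_coord_zero i (by simp [sel, hi])
    have e2 : cnt c < k := by
      calc cnt c < ∑ _i : Fin k, 1 :=
            sum_lt_sum (fun i _ => by split_ifs <;> simp) ⟨i, mem_univ _, by simp [hi]⟩
        _ = k := by simp
    have e3 : k - cnt c ≠ 0 := by omega
    simp [e1, e3]

end Pool.Agent.Lib.MP_13d336_gt
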