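import Pool.Agent.Lib.MP_13d336_gt.Star

set_option autoImplicit false
set_option linter.unusedSimpArgs false

namespace Pool.Agent.Lib.MP_13d336_gt

open MvPolynomial Finset

theorem pd_comm (i j : Fin 4) (p : PP) : pderiv i (pderiv j p) = pderiv j (pderiv i p) := by
  induction p using MvPolynomial.induction_on with
  | C a => simp
  | add p q hp hq => simp only [map_add, hp, hq]
  | mul_X p n hp =>
    have h : ∀ i j : Fin 4, pderiv i (pderiv j (X n : PP)) = 0 := by
      intro i j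
      rw [pderiv_X]
      by_cases hn : n = j
      · subst hn; simp
      · simp [Pi.single_eq_of_ne hn]
    simp only [pderiv_mul, map_add, hp, h]; ring

/-! ### division by `1 - t^2` -/

noncomputable def sub1 (c : ℝ) : PP →ₐ[ℝ] PP := aeval ![va, C c, vU, vF]

theorem sub1_dvd (c : ℝ) (p : PP) : (vt - C c) ∣ p - sub1 c p := by
  induction p using MvPolynomial.induction_on with
  | C a => simp [sub1]
  | add p q hp hq =>
    rw [map_add, show p + q - (sub1 c p + sub1 c q) = (p - sub1 c p) + (q - sub1 c q) by ring]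
    exact dvd_add hp hq
  | mul_X p n hp =>
    have h : (vt - C c) ∣ X n - sub1 c (X n) := by
      fin_cases n <;> simp [sub1, va, vt, vU, vF]
    rw [map_mul, show p * X n - sub1 c p * sub1 c (X n)
      = (p - sub1 c p) * X n + sub1 c p * (X n - sub1 c (X n)) by ring]
    exact dvd_add (hp.mul_right _) (h.mul_left _)

theorem sub1_a (c : ℝ) : sub1 c va = va := by simp [sub1, va]
theorem sub1_t (c : ℝ) : sub1 c vt = C c := by simp [sub1, vt]
theorem sub1_U (c : ℝ) : sub1 c vU = vU := by simp [sub1, vU]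
theorem sub1_F (c : ℝ) : sub1 c vF = vF := by simp [sub1, vF]

theorem exists_G {L W : PP} (h : (1 - vt * vt) * L - (vU - vt * vF) * W = 0) :
    ∃ G : PP, W = (1 - vt * vt) * G ∧ L = (vU - vt * vF) * G := by
  have hne : ∀ c : ℝ, vU - C c * vF ≠ 0 := by
    intro c h0
    have := congrArg (eval ![0, 0, 1, 0]) h0
    simp [vU, vF] at this
  have hne1 : ∀ c : ℝ, vt - C c ≠ 0 := by
    intro c h0
    have := congrArg (eval ![0, c + 1, 1, 0]) h0
    simp [vt] at this
  have h1 : sub1 1 W = 0 := by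
    have := congrArg (sub1 1) h
    simp only [map_sub, map_mul, map_one, sub1_t, sub1_U, sub1_F, map_zero, C_1, mul_one,
      sub_self, zero_mul, zero_sub, neg_eq_zero] at this
    have h2 := hne 1
    rw [C_1] at h2
    exact (mul_eq_zero.1 this).resolve_left h2
  obtain ⟨W1, hW1⟩ := sub1_dvd 1 W
  rw [h1, sub_zero] at hW1
  have h2 : (vt - C (-1)) * L + (vU - vt * vF) * W1 = 0 := by
    apply mul_left_cancel₀ (hne1 1)
    rw [hW1] at h
    simp only [map_neg, C_1] at h ⊢
    linear_combination (-1 : PP) * h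
  have h3 : sub1 (-1) W1 = 0 := by
    have := congrArg (sub1 (-1)) h2
    simp only [map_add, map_sub, map_mul, sub1_t, sub1_U, sub1_F, map_zero, algHom_C,
      algebraMap_eq, sub_self, zero_mul, zero_add] at this
    exact (mul_eq_zero.1 this).resolve_left (hne (-1))
  obtain ⟨W2, hW2⟩ := sub1_dvd (-1) W1
  rw [h3, sub_zero] at hW2
  refine ⟨-W2, ?_, ?_⟩
  · rw [hW1, hW2]; simp only [map_neg, C_1]; ring
  · apply mul_left_cancel₀ (hne1 (-1))
    rw [hW2] at h2
    linear_combination h2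

/-! ### homogeneity -/

def wt : Fin 4 → ℕ := ![0, 0, 1, 1]

def Hom (k : ℕ) (p : PP) : Prop := IsWeightedHomogeneous wt p k

theorem Hom.add {k : ℕ} {p q : PP} (hp : Hom k p) (hq : Hom k q) : Hom k (p + q) :=
  IsWeightedHomogeneous.add hp hq
theorem Hom.sub {k : ℕ} {p q : PP} (hp : Hom k p) (hq : Hom k q) : Hom k (p - q) :=
  IsWeightedHomogeneous.sub hp hq
theorem Hom.neg {k : ℕ} {p : PP} (hp : Hom k p) : Hom k (-p) :=
  IsWeightedHomogeneous.neg hp
theorem Hom.mul {k l : ℕ} {p q : PP} (hp : Hom k p) (hq : Hom l q) : Hom (k + l) (p * q) :=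
  IsWeightedHomogeneous.mul hp hq
theorem Hom.mul0 {k : ℕ} {p q : PP} (hp : Hom 0 p) (hq : Hom k q) : Hom k (p * q) := by
  simpa using hp.mul hq
theorem Hom.of_eq {k l : ℕ} {p : PP} (hp : Hom k p) (h : k = l) : Hom l p := h ▸ hp
theorem hom_C (r : ℝ) : Hom 0 (C r) := isWeightedHomogeneous_C _ _
theorem hom_one : Hom 0 1 := isWeightedHomogeneous_one _ _
theorem hom_two : Hom 0 2 := by
  have : (2 : PP) = C 2 := by simp [map_ofNat]
  rw [this]; exact hom_C 2
theorem hom_four : Hom 0 4 := by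
  have : (4 : PP) = C 4 := by simp [map_ofNat]
  rw [this]; exact hom_C 4
theorem hom_zero (k : ℕ) : Hom k 0 := isWeightedHomogeneous_zero _ _ _
theorem hom_a : Hom 0 va := isWeightedHomogeneous_X ℝ wt 0
theorem hom_t : Hom 0 vt := isWeightedHomogeneous_X ℝ wt 1
theorem hom_U : Hom 1 vU := isWeightedHomogeneous_X ℝ wt 2
theorem hom_F : Hom 1 vF := isWeightedHomogeneous_X ℝ wt 3
theorem hom_S : Hom 0 pS := hom_one.sub (hom_a.mul0 hom_a)
theorem hom_sm : Hom 0 psm := (hom_a.mul0 hom_a).add ((hom_S.mul0 hom_t).mul0 hom_t)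
theorem hom_V : Hom 1 pV := hom_F.sub (((hom_two.mul0 hom_S).mul0 hom_t).mul0 hom_U)
theorem hom_R : Hom 2 pR :=
  (((((hom_four.mul0 hom_a).mul0 hom_a).mul0 hom_S).mul0 hom_U).mul hom_U).add (hom_V.mul hom_V)
theorem hom_Xi : Hom 1 pXi := (hom_t.mul0 hom_F).sub ((hom_two.mul0 hom_sm).mul0 hom_U)
theorem hom_ph : Hom 1 pph := hom_a.mul0 hom_F
theorem Hom.pow {k : ℕ} {p : PP} (hp : Hom k p) (n : ℕ) : Hom (n * k) (p ^ n) :=
  IsWeightedHomogeneous.pow hp n

theorem hom_ev1 (q : Polynomial ℝ) : Hom 0 (ev1 q) := by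
  unfold ev1
  induction q using Polynomial.induction_on' with
  | add p q hp hq => rw [map_add]; exact hp.add hq
  | monomial n a =>
    rw [Polynomial.aeval_monomial, algebraMap_eq]
    exact (hom_C a).mul0 ((hom_sm.pow n).of_eq (by simp))

theorem hom_pX (J : ℕ) : Hom (2 * J) (pX J) := by
  induction J with
  | zero => exact hom_one
  | succ J ih =>
    exact ((hom_R.mul ih).of_eq (by ring)).add ((hom_ev1 _).mul0
      (((hom_ph.mul hom_ph).mul (hom_ph.pow (2 * J))).of_eq (by ring)))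

theorem hom_pT (J : ℕ) : Hom (2 * J) (pT J) :=
  (hom_ev1 _).mul0 ((hom_ph.pow (2 * J)).of_eq (by ring))

theorem hom_pK (J : ℕ) : Hom (2 * J) (pK (J + 1)) := by
  induction J with
  | zero => simp only [pK, mul_zero, zero_add]; exact hom_pT 0
  | succ J ih =>
    rw [pK]; exact ((hom_R.mul ih).of_eq (by ring)).add (hom_pT (J + 1))

theorem hom_pZ (J : ℕ) : Hom (2 * (J + 1)) (pZ (pK (J + 1)) (pT (J + 1))) :=
  (((hom_Xi.mul (hom_pK J)).mul hom_V).of_eq (by ring)).add (hom_t.mul0 (hom_pT (J + 1)))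

theorem hom_pE (J : ℕ) : Hom (2 * (J + 1)) (pE (pX (J + 1)) (pK (J + 1)) (pT (J + 1))) :=
  ((hom_one.sub (hom_t.mul0 hom_t)).mul0 (hom_pX _)).add (hom_t.mul0 (hom_pZ J))

theorem hom_pQv (J : ℕ) : Hom (2 * (J + 1)) (pQv (pK (J + 1)) (pT (J + 1))) :=
  (hom_a.mul0 (hom_pT _)).sub
    ((((((hom_two.mul0 hom_a).mul0 hom_S).mul0 hom_Xi).mul (hom_pK J)).mul hom_U).of_eq (by ring))

noncomputable def qH1 (J : ℕ) : PP := pH1 (pX J) (pK J) (pT J)
noncomputable def qH2 (J : ℕ) : PP := pH2 (pX J) (pK J) (pT J)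
noncomputable def qH3 (J : ℕ) : PP := pH3 (pX J) (pK J) (pT J)

theorem hom_H1 (J : ℕ) : Hom (2 * (J + 1)) (qH1 (J + 1)) := hom_two.mul0 (hom_pE J)
theorem hom_H2 (J : ℕ) : Hom (2 * (J + 1)) (qH2 (J + 1)) :=
  (hom_four.mul0 ((hom_S.mul0 (hom_pE J)).add (hom_a.mul0 (hom_pQv J)))).neg
theorem hom_H3 (J : ℕ) : Hom (2 * (J + 1)) (qH3 (J + 1)) :=
  ((hom_two.mul0 hom_a).mul0 hom_S).mul0 ((hom_t.mul0 (hom_pX _)).sub (hom_pZ J))

/-! ### antiderivative in `a` -/

noncomputable def anti (p : PP) : PP :=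
  va * ∑ d ∈ p.support, monomial d (coeff d p / (d 0 + 1))

theorem d0_anti (p : PP) : pderiv 0 (anti p) = p := by
  rw [anti, pderiv_mul, d0a, one_mul, map_sum, mul_sum, ← sum_add_distrib]
  conv_rhs => rw [p.as_sum]
  refine sum_congr rfl fun d _ => ?_
  rw [va, X_mul_pderiv_monomial, ← Nat.cast_smul_eq_nsmul ℝ, smul_monomial, ← map_add]
  congr 1
  have : (d 0 : ℝ) + 1 ≠ 0 := by positivity
  simp only [smul_eq_mul]; field_simp; ring

theorem hom_anti {k : ℕ} {p : PP} (hp : Hom k p) : Hom k (anti p) := by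
  refine hom_a.mul0 (IsWeightedHomogeneous.sum _ _ _ fun d hd => ?_)
  exact isWeightedHomogeneous_monomial _ _ _ (hp (mem_support_iff.1 hd))

theorem eq_zero_of_d0 {q : PP} (h0 : pderiv 0 q = 0) (hd : va ∣ q) : q = 0 := by
  classical
  obtain ⟨r, rfl⟩ := hd
  ext d
  by_cases hd : d 0 = 0
  · rw [va, coeff_X_mul']; simp [hd]
  · have := congrArg (coeff (d - Finsupp.single 0 1)) h0
    rw [coeff_pderiv, Finsupp.sub_add_single_one_cancel hd] at this
    have h2 : ((d - Finsupp.single 0 1 : Fin 4 →₀ ℕ) 0 : ℝ) + 1 ≠ 0 := by positivity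
    rw [coeff_zero] at this
    exact (mul_eq_zero.1 this).resolve_right h2

theorem dvd_pd {q : PP} (hd : va ∣ q) {i : Fin 4} (hi : i ≠ 0) : va ∣ pderiv i q := by
  obtain ⟨r, rfl⟩ := hd
  rw [pderiv_mul, va, pderiv_X_of_ne hi.symm, zero_mul, zero_add]
  exact dvd_mul_right _ _

theorem dvd_anti (p : PP) : va ∣ anti p := dvd_mul_right _ _

theorem exists_qG (J : ℕ) : ∃ G : PP,
    pderiv 3 (anti (qH2 J)) - vt * pderiv 2 (anti (qH1 J)) = (1 - vt * vt) * G ∧
    qH3 J = pderiv 1 (anti (qH1 J) + anti (qH2 J)) + (vU - vt * vF) * G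
      + vF * pderiv 2 (anti (qH1 J)) := by
  obtain ⟨G, h1, h2⟩ := exists_G (star_zero J)
  change pderiv 3 (qH2 J) - vt * pderiv 2 (qH1 J) = _ at h1
  change pderiv 0 (qH3 J) - pderiv 1 (qH1 J + qH2 J) - vF * pderiv 2 (qH1 J) = _ at h2
  refine ⟨anti G, ?_, ?_⟩
  · rw [← sub_eq_zero]
    apply eq_zero_of_d0
    · simp only [map_sub, pderiv_mul, pd_comm 0, d0_anti, d0t, pderiv_one]
      linear_combination h1
    · exact ((dvd_pd (dvd_anti _) (by decide)).sub
        ((dvd_pd (dvd_anti _) (by decide)).mul_left _)).sub ((dvd_anti _).mul_left _)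
  · rw [← sub_eq_zero]
    apply eq_zero_of_d0
    · simp only [map_sub, map_add, pderiv_mul, pd_comm 0 1, pd_comm 0 2, d0_anti, d0t, d0U, d0F,
        pderiv_one] at h2 ⊢
      linear_combination h2
    · refine dvd_sub ?_ (dvd_add (dvd_add (dvd_pd ((dvd_anti _).add (dvd_anti _)) (by decide))
        ((dvd_anti _).mul_left _)) ((dvd_pd (dvd_anti _) (by decide)).mul_left _))
      unfold qH3 pH3
      exact ((dvd_mul_left va 2).mul_right _).mul_right _

noncomputable def qG (J : ℕ) : PP := (exists_qG J).choose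

/-! ### iterated derivatives -/

noncomputable def bv (i l : ℕ) (p : PP) : PP := (pderiv 2)^[i] ((pderiv 3)^[l] p)

theorem bv_succ_left (i l : ℕ) (p : PP) : bv (i + 1) l p = pderiv 2 (bv i l p) := by
  simp only [bv, Function.iterate_succ_apply']

theorem it_comm (i j : Fin 4) (l : ℕ) (p : PP) :
    pderiv i ((pderiv j)^[l] p) = (pderiv j)^[l] (pderiv i p) := by
  induction l with
  | zero => rfl
  | succ l ih => rw [Function.iterate_succ_apply', Function.iterate_succ_apply', pd_comm, ih]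

theorem pd_bv (j : Fin 4) (i l : ℕ) (p : PP) : pderiv j (bv i l p) = bv i l (pderiv j p) := by
  simp only [bv, it_comm]

theorem bv_succ_left' (i l : ℕ) (p : PP) : bv (i + 1) l p = bv i l (pderiv 2 p) := by
  rw [bv_succ_left, pd_bv]

theorem bv_succ_right (i l : ℕ) (p : PP) : bv i (l + 1) p = bv i l (pderiv 3 p) := by
  simp only [bv, Function.iterate_succ_apply]

theorem it_add (j : Fin 4) (l : ℕ) (p q : PP) :
    (pderiv j)^[l] (p + q) = (pderiv j)^[l] p + (pderiv j)^[l] q := by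
  induction l with
  | zero => rfl
  | succ l ih => simp only [Function.iterate_succ_apply', ih, map_add]

theorem it_mul (j : Fin 4) (l : ℕ) {c : PP} (hc : pderiv j c = 0) (p : PP) :
    (pderiv j)^[l] (c * p) = c * (pderiv j)^[l] p := by
  induction l with
  | zero => rfl
  | succ l ih => simp only [Function.iterate_succ_apply', ih, pderiv_mul, hc, zero_mul, zero_add]

theorem it_var (j : Fin 4) (l : ℕ) {c : PP} (hc : pderiv j c = 1) (p : PP) :
    (pderiv j)^[l + 1] (c * p) = c * (pderiv j)^[l + 1] p + (l + 1 : ℕ) * (pderiv j)^[l] p := by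
  induction l with
  | zero => simp [pderiv_mul, hc]
  | succ l ih =>
    rw [Function.iterate_succ_apply', ih, map_add, pderiv_mul, pderiv_mul, hc,
      ← Function.iterate_succ_apply' (pderiv j), ← Function.iterate_succ_apply' (pderiv j),
      Derivation.map_natCast]
    push_cast; ring

theorem bv_add (i l : ℕ) (p q : PP) : bv i l (p + q) = bv i l p + bv i l q := by
  simp only [bv, it_add]

theorem bv_mul (i l : ℕ) {c : PP} (h2 : pderiv 2 c = 0) (h3 : pderiv 3 c = 0) (p : PP) :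
    bv i l (c * p) = c * bv i l p := by
  simp only [bv, it_mul _ _ h2, it_mul _ _ h3]

theorem bv_sub (i l : ℕ) (p q : PP) : bv i l (p - q) = bv i l p - bv i l q := by
  rw [sub_eq_add_neg, bv_add, ← neg_one_mul q, bv_mul i l (by simp) (by simp)]; ring

theorem bv_U (i l : ℕ) (p : PP) :
    bv i l (vU * p) = vU * bv i l p + (i : ℕ) * bv (i - 1) l p := by
  cases i with
  | zero => simp [bv, it_mul _ _ d3U]
  | succ i => simp only [bv, it_mul _ _ d3U, it_var _ _ d2U, Nat.add_sub_cancel]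

theorem bv_F (i l : ℕ) (p : PP) :
    bv i l (vF * p) = vF * bv i l p + (l : ℕ) * bv i (l - 1) p := by
  cases l with
  | zero => simp [bv, it_mul _ _ d2F]
  | succ l =>
    simp only [bv, it_var _ _ d3F, Nat.add_sub_cancel, it_add, it_mul _ _ d2F]
    rw [it_mul _ _ (Derivation.map_natCast _ _)]

/-- evaluation at `(a, t, 0, 0)` -/
noncomputable def ev0 (a t : ℝ) : PP →+* ℝ := eval ![a, t, 0, 0]

theorem ev0_a (a t : ℝ) : ev0 a t va = a := by simp [ev0, va]
theorem ev0_t (a t : ℝ) : ev0 a t vt = t := by simp [ev0, vt]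
theorem ev0_U (a t : ℝ) : ev0 a t vU = 0 := by simp [ev0, vU]
theorem ev0_F (a t : ℝ) : ev0 a t vF = 0 := by simp [ev0, vF]
theorem ev0_C (a t r : ℝ) : ev0 a t (C r) = r := by simp [ev0]

/-- normalized coefficients -/
noncomputable def bb (k : ℕ) (p : PP) (a t : ℝ) (i : ℕ) : ℝ :=
  ev0 a t (bv i (k - i) p) / k.factorial

/-- number of `true` entries -/
def cnt {k : ℕ} (c : Fin k → Bool) : ℕ := ∑ i, if c i then 1 else 0

theorem cnt_cons {k : ℕ} (b : Bool) (c : Fin k → Bool) :
    cnt (Fin.cons b c : Fin (k + 1) → Bool) = cnt c + if b then 1 else 0 := by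
  rw [cnt, Fin.sum_univ_succ, add_comm]; rfl

theorem cnt_le {k : ℕ} (c : Fin k → Bool) : cnt c ≤ k := by
  calc cnt c ≤ ∑ _i : Fin k, 1 := sum_le_sum fun i _ => by split_ifs <;> simp
    _ = k := by simp

theorem sum_bool_succ {k : ℕ} {M : Type*} [AddCommMonoid M] (f : (Fin (k + 1) → Bool) → M) :
    ∑ c, f c = ∑ c : Fin k → Bool, f (Fin.cons true c) + ∑ c : Fin k → Bool, f (Fin.cons false c) := by
  rw [← (Fin.consEquiv fun _ => Bool).sum_comp, Fintype.sum_prod_type, Fintype.sum_bool]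
  rfl

theorem taylor (k : ℕ) {p : PP} (hp : Hom k p) (a t U F : ℝ) :
    eval ![a, t, U, F] p = ∑ c : Fin k → Bool, U ^ cnt c * F ^ (k - cnt c) * bb k p a t (cnt c) := by
  induction k generalizing p with
  | zero =>
    simp only [univ_unique, sum_singleton, cnt, univ_eq_empty, sum_empty, pow_zero, one_mul, bb,
      bv, Function.iterate_zero, id, Nat.factorial_zero, Nat.cast_one, div_one, ev0,
      Nat.sub_zero]
    rw [eval_eq', eval_eq']
    refine sum_congr rfl fun d hd => ?_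
    have h := hp (mem_support_iff.1 hd)
    rw [Finsupp.weight_apply, Finsupp.sum_fintype _ _ (by simp), Fin.sum_univ_four] at h
    simp [wt] at h
    simp [Fin.prod_univ_four, h.1, h.2]
  | succ k ih =>
    have he := IsWeightedHomogeneous.sum_weight_X_mul_pderiv hp
    rw [Fin.sum_univ_four] at he
    simp only [wt, Matrix.cons_val_zero, Matrix.cons_val_one, Matrix.cons_val, zero_smul, one_smul,
      zero_add] at he
    have h2 : Hom k (pderiv 2 p) := IsWeightedHomogeneous.pderiv hp rfl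
    have h3 : Hom k (pderiv 3 p) := IsWeightedHomogeneous.pderiv hp rfl
    have he' := congrArg (eval ![a, t, U, F]) he
    simp only [map_add, map_mul, eval_X, Matrix.cons_val, nsmul_eq_mul, map_natCast, ih h2,
      ih h3] at he'
    have hk : ((k + 1 : ℕ) : ℝ) ≠ 0 := by positivity
    apply mul_left_cancel₀ hk
    rw [← he', sum_bool_succ, mul_add, mul_sum, mul_sum, mul_sum, mul_sum]
    congr 1
    · refine sum_congr rfl fun c _ => ?_
      simp only [cnt_cons, if_true, bb, Nat.add_sub_add_right, bv_succ_left', Nat.factorial_succ]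
      push_cast; field_simp; ring
    · refine sum_congr rfl fun c _ => ?_
      have := cnt_le c
      simp only [cnt_cons, Bool.false_eq_true, if_false, add_zero, bb,
        show k + 1 - cnt c = (k - cnt c) + 1 by omega, bv_succ_right, Nat.factorial_succ]
      push_cast; field_simp; ring

/-! ### the coefficient polynomials of the primitive -/

noncomputable def mP (J i : ℕ) : PP :=
  if i = 0 then 0 else if i ≤ 2 * J then C (1 / ((2 * J).factorial : ℝ)) * bv (i - 1) (2 * J - i) (qG J)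
  else C (1 / ((2 * J).factorial : ℝ)) * bv (2 * J) 0 (anti (qH2 J))

noncomputable def nP (J i : ℕ) : PP :=
  if i ≤ 2 * J then C (1 / ((2 * J).factorial : ℝ)) * bv i (2 * J - i) (anti (qH1 J)) - vt * mP J i
  else 0

theorem mn1 (J i : ℕ) (hi : i ≤ 2 * J) :
    vt * mP J i + nP J i = C (1 / ((2 * J).factorial : ℝ)) * bv i (2 * J - i) (anti (qH1 J)) := by
  rw [nP, if_pos hi]; ring

theorem mn2 (J i : ℕ) (hi : i ≤ 2 * J) :
    mP J (i + 1) + vt * nP J (i + 1)
      = C (1 / ((2 * J).factorial : ℝ)) * bv i (2 * J - i) (anti (qH2 J)) := by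
  rcases hi.lt_or_eq with h | h
  · have h1 := (exists_qG J).choose_spec.1
    change _ = _ * qG J at h1
    rw [nP, if_pos (by omega), mP, if_neg (by omega), if_pos (by omega), Nat.add_sub_cancel,
      show 2 * J - i = (2 * J - (i + 1)) + 1 by omega, bv_succ_right, bv_succ_left',
      eq_add_of_sub_eq h1, bv_add, bv_mul _ _ (c := 1 - vt * vt) (by simp [d2t]) (by simp [d3t]),
      bv_mul _ _ d2t d3t]
    ring
  · subst h
    rw [nP, if_neg (by omega), mP, if_neg (by omega), if_neg (by omega)]; simp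

theorem val1 (J i : ℕ) (hi : i ≤ 2 * J) (a t : ℝ) :
    t * ev0 a t (mP J i) + ev0 a t (nP J i) = bb (2 * J) (anti (qH1 J)) a t i := by
  have := congrArg (ev0 a t) (mn1 J i hi)
  simp only [map_add, map_mul, ev0_t, ev0_C] at this
  rw [this, bb]; ring

theorem val2 (J i : ℕ) (hi : i ≤ 2 * J) (a t : ℝ) :
    ev0 a t (mP J (i + 1)) + t * ev0 a t (nP J (i + 1)) = bb (2 * J) (anti (qH2 J)) a t i := by
  have := congrArg (ev0 a t) (mn2 J i hi)
  simp only [map_add, map_mul, ev0_t, ev0_C] at this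
  rw [this, bb]; ring

theorem der1 (J i : ℕ) (hi : i ≤ 2 * J) (a t : ℝ) :
    t * ev0 a t (pderiv 0 (mP J i)) + ev0 a t (pderiv 0 (nP J i)) = bb (2 * J) (qH1 J) a t i := by
  have := congrArg (fun p => ev0 a t (pderiv 0 p)) (mn1 J i hi)
  simp only [map_add, map_mul, ev0_t, ev0_C, pderiv_mul, d0t, pderiv_C, pd_bv, d0_anti, zero_mul,
    zero_add] at this
  rw [this, bb]; ring

theorem der2 (J i : ℕ) (hi : i ≤ 2 * J) (a t : ℝ) :
    ev0 a t (pderiv 0 (mP J (i + 1))) + t * ev0 a t (pderiv 0 (nP J (i + 1)))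
      = bb (2 * J) (qH2 J) a t i := by
  have := congrArg (fun p => ev0 a t (pderiv 0 p)) (mn2 J i hi)
  simp only [map_add, map_mul, ev0_t, ev0_C, pderiv_mul, d0t, pderiv_C, pd_bv, d0_anti, zero_mul,
    zero_add] at this
  rw [this, bb]; ring

theorem der3 (J i : ℕ) (hi : i ≤ 2 * J) (a t : ℝ) :
    (i + 1) * ev0 a t (mP J i) + t * ev0 a t (pderiv 1 (mP J i))
      + ev0 a t (pderiv 1 (mP J (i + 1))) + ((2 * J : ℕ) + 1 - i) * ev0 a t (nP J (i + 1))
      + t * ev0 a t (pderiv 1 (nP J (i + 1))) + ev0 a t (pderiv 1 (nP J i))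
      = bb (2 * J) (qH3 J) a t i := by
  have h1 := congrArg (fun p => ev0 a t (pderiv 1 p)) (mn1 J i hi)
  have h2 := congrArg (fun p => ev0 a t (pderiv 1 p)) (mn2 J i hi)
  simp only [map_add, map_mul, ev0_t, ev0_C, pderiv_mul, d1t, pderiv_C, pd_bv, zero_mul,
    zero_add, one_mul] at h1 h2
  have h3 := (exists_qG J).choose_spec.2
  change _ = _ + _ * qG J + _ at h3
  have h4 : (i : ℝ) * ev0 a t (mP J i)
      = 1 / (2 * J).factorial * (i * ev0 a t (bv (i - 1) (2 * J - i) (qG J))) := by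
    rw [mP]
    split_ifs with h0
    · simp [h0]
    · rw [map_mul, ev0_C]; ring
  have h5 : (((2 * J : ℕ) : ℝ) - i) * ev0 a t (nP J (i + 1)) = 1 / (2 * J).factorial *
      (((2 * J - i : ℕ) : ℝ) * (ev0 a t (bv i (2 * J - i - 1) (pderiv 2 (anti (qH1 J))))
        - t * ev0 a t (bv i (2 * J - i - 1) (qG J)))) := by
    rw [Nat.cast_sub hi]
    rcases hi.lt_or_eq with h | h
    · rw [nP, if_pos (by omega), mP, if_neg (by omega), if_pos (by omega), Nat.add_sub_cancel,
        bv_succ_left', ← Nat.sub_sub]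
      simp only [map_sub, map_mul, ev0_C, ev0_t]; ring
    · subst h; simp
  rw [bb, h3, sub_mul vU, mul_assoc vt, bv_add, bv_add, bv_sub, bv_mul _ _ d2t d3t, bv_U, bv_F,
    bv_F, map_add (pderiv 1), bv_add]
  simp only [map_add, map_sub, map_mul, ev0_t, ev0_U, ev0_F, map_natCast, zero_mul, zero_add]
  linear_combination h1 + h2 + h4 + h5

end Pool.Agent.Lib.MP_13d336_gt
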