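import Pool.Agent.Lib.MP_13d336_gt.Stokes

set_option autoImplicit false
set_option linter.unusedSimpArgs false
set_option linter.unusedSectionVars false
set_option linter.unusedVariables false
set_option linter.deprecated false

namespace Pool.Agent.Lib.MP_13d336_gt

open Finset Filter Topology MeasureTheory MvPolynomial
open scoped RealInnerProductSpace

theorem st_deriv_one {t : ℝ} (ht : 1 < t) : deriv Real.smoothTransition t = 0 := by
  have : Real.smoothTransition =ᶠ[𝓝 t] fun _ => 1 := by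
    filter_upwards [lt_mem_nhds ht] with s hs using Real.smoothTransition.one_of_one_le hs.le
  rw [this.deriv_eq, deriv_const]

theorem st_deriv_zero {t : ℝ} (ht : t < 0) : deriv Real.smoothTransition t = 0 := by
  have : Real.smoothTransition =ᶠ[𝓝 t] fun _ => 0 := by
    filter_upwards [gt_mem_nhds ht] with s hs using Real.smoothTransition.zero_of_nonpos hs.le
  rw [this.deriv_eq, deriv_const]

theorem st_bound : ∃ C : ℝ, 0 ≤ C ∧ ∀ t, |deriv Real.smoothTransition t| ≤ C := by
  obtain ⟨C, hC⟩ := (isCompact_Icc (a := (0 : ℝ)) (b := 1)).exists_bound_of_continuousOn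
    ((Real.smoothTransition.contDiff (n := 1)).continuous_deriv le_rfl).continuousOn
  have h0 : 0 ≤ C := (norm_nonneg _).trans (hC 0 (by simp))
  refine ⟨C, h0, fun t => ?_⟩
  rcases lt_or_ge t 0 with h | h
  · rw [st_deriv_zero h, abs_zero]; exact h0
  rcases lt_or_ge 1 t with h' | h'
  · rw [st_deriv_one h', abs_zero]; exact h0
  exact hC t ⟨h, h'⟩

theorem hasDerivAt_st (t : ℝ) :
    HasDerivAt Real.smoothTransition (deriv Real.smoothTransition t) t :=
  ((Real.smoothTransition.contDiff (n := 1)).differentiable one_ne_zero t).hasDerivAt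

/-- cutoff near zero -/
noncomputable def cut (δ t : ℝ) : ℝ := Real.smoothTransition (t / δ - 1)

theorem contDiff_cut (δ : ℝ) : ContDiff ℝ 1 (cut δ) :=
  Real.smoothTransition.contDiff.comp ((contDiff_id.div_const δ).sub contDiff_const)

theorem deriv_cut (δ t : ℝ) : deriv (cut δ) t = deriv Real.smoothTransition (t / δ - 1) / δ := by
  have := (hasDerivAt_st (t / δ - 1)).comp t (((hasDerivAt_id t).div_const δ).sub_const 1)
  exact this.deriv.trans (by ring)

variable {E : Type*} [NormedAddCommGroup E] [InnerProductSpace ℝ E] [FiniteDimensional ℝ E]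
  [CompleteSpace E] [MeasurableSpace E] [BorelSpace E] {p : E} {f g : E → E}

theorem ma2 (J : ℕ) (hE : Module.finrank ℝ E = 2 * (J + 1) + 3) (hp : ‖p‖ = 1) (hf : Good p f)
    (hg : Good p g) {ψ : ℝ → ℝ} (hψ : ContDiff ℝ 1 ψ) (hψ0 : ∀ t, ψ t ≠ 0 → 1 ≤ t ∧ t ≤ 3)
    (hψn : ∀ t, 0 ≤ ψ t) {a0 : ℝ} (ha0 : a0 < 1) (hfg : ∀ x ∈ Om p, a0 < aa p x → f x = g x)
    {h : E → ℝ} (hh : Integrable h volume)
    (hb : ∀ x ∈ Om p, ψ ‖x‖ * (dens (J + 1) p f x + dens (J + 1) p g x) ≤ h x) :
    Integrable (fun x => ψ ‖x‖ * (Lf (J + 1) p f x - Lf (J + 1) p g x)) volume ∧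
    ∫ x, ψ ‖x‖ * (Lf (J + 1) p f x - Lf (J + 1) p g x) = 0 := by
  obtain ⟨C, hC0, hC⟩ := st_bound
  let δ : ℕ → ℝ := fun n => 1 / (4 * ((n : ℝ) + 1))
  have hδ : ∀ n, 0 < δ n := fun n => by positivity
  have hδ2 : ∀ n, 2 * δ n ≤ 1 / 2 := fun n => by
    have : (0 : ℝ) ≤ n := Nat.cast_nonneg n
    simp only [δ]
    rw [mul_one_div, div_le_div_iff₀ (by positivity) (by positivity)]; linarith
  let χ' : ℝ → ℝ := fun t => Real.smoothTransition (((a0 + 2) / 3 - t) / ((1 - a0) / 3))
  have hχ' : ContDiff ℝ 1 χ' :=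
    Real.smoothTransition.contDiff.comp ((contDiff_const.sub contDiff_id).div_const _)
  have hpos : 0 < (1 - a0) / 3 := by linarith
  let χ : ℕ → ℝ → ℝ := fun n t => cut (δ n) t * χ' t
  have hχ0 : ∀ n t, χ n t ≠ 0 → δ n ≤ t ∧ t ≤ (a0 + 2) / 3 := by
    intro n t ht
    constructor
    · by_contra hc
      apply left_ne_zero_of_mul ht
      apply Real.smoothTransition.zero_of_nonpos
      rw [sub_nonpos, div_le_one (hδ n)]; linarith
    · by_contra hc
      apply right_ne_zero_of_mul ht
      apply Real.smoothTransition.zero_of_nonpos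
      exact div_nonpos_of_nonpos_of_nonneg (by linarith) hpos.le
  have s1 := fun n => stokes J hE hp hf hψ hψ0 ((contDiff_cut (δ n)).mul hχ') (hδ n)
    (by linarith) (hχ0 n)
  have s2 := fun n => stokes J hE hp hg hψ hψ0 ((contDiff_cut (δ n)).mul hχ') (hδ n)
    (by linarith) (hχ0 n)
  let F : ℕ → E → ℝ := fun n x => ψ ‖x‖ * (cut (δ n) (aa p x) * (Lf (J + 1) p f x - Lf (J + 1) p g x)
    + deriv (cut (δ n)) (aa p x) * (Bf (J + 1) p f x - Bf (J + 1) p g x))
  have hae : ∀ n, (fun x => ψ ‖x‖ * (χ n (aa p x) * Lf (J + 1) p f x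
      + deriv (χ n) (aa p x) * Bf (J + 1) p f x) - ψ ‖x‖ * (χ n (aa p x) * Lf (J + 1) p g x
      + deriv (χ n) (aa p x) * Bf (J + 1) p g x)) =ᵐ[volume] F n := by
    intro n
    filter_upwards [ae_Om (by omega) p] with x hx
    rcases lt_or_ge a0 (aa p x) with h1 | h1
    · have h2 : f =ᶠ[𝓝 x] g := by
        filter_upwards [(isOpen_Om p).mem_nhds hx,
          (Om.contDiffAt_aa (n := 0) hp hx).continuousAt.eventually (lt_mem_nhds h1)] with y h3 h4
          using hfg y h3 h4
      simp only [F, Lf_congr _ p h2, Bf_congr _ p h2]; ring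
    · have h2 : χ n =ᶠ[𝓝 (aa p x)] cut (δ n) := by
        filter_upwards [gt_mem_nhds (show aa p x < (2 * a0 + 1) / 3 by linarith)] with t ht
        have : χ' t = 1 := by
          apply Real.smoothTransition.one_of_one_le
          rw [one_le_div hpos]; linarith
        simp only [χ, this, mul_one]
      simp only [F, h2.deriv_eq, h2.eq_of_nhds]; ring
  refine dct0 (F := F) (h := fun x => (1 + 6 * 2 ^ (J + 1) * C) * h x)
    (fun n => ((s1 n).1.sub (s2 n).1).congr (hae n))
    (fun n => by rw [← integral_congr_ae (hae n), integral_sub (s1 n).1 (s2 n).1, (s1 n).2,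
      (s2 n).2, sub_zero]) (hh.const_mul _) (fun n => ?_) ?_
  · filter_upwards [ae_Om (by omega) p] with x hx
    have ha := Om.aa_pos hp hx
    have l1 : |Lf (J + 1) p f x| ≤ dens (J + 1) p f x := (hf.pd hp hx).LE_le J hE
    have l2 : |Lf (J + 1) p g x| ≤ dens (J + 1) p g x := (hg.pd hp hx).LE_le J hE
    have d1 := dens_nonneg (J + 1) p f x
    have d2 := dens_nonneg (J + 1) p g x
    have b1 : |cut (δ n) (aa p x) * (Lf (J + 1) p f x - Lf (J + 1) p g x)|
        ≤ dens (J + 1) p f x + dens (J + 1) p g x := by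
      rw [abs_mul, cut, abs_of_nonneg (Real.smoothTransition.nonneg _)]
      calc _ ≤ 1 * (|Lf (J + 1) p f x| + |Lf (J + 1) p g x|) := by
            gcongr
            · exact Real.smoothTransition.le_one _
            · exact abs_sub _ _
        _ ≤ _ := by linarith
    have b2 : |deriv (cut (δ n)) (aa p x) * (Bf (J + 1) p f x - Bf (J + 1) p g x)|
        ≤ 6 * 2 ^ (J + 1) * C * (dens (J + 1) p f x + dens (J + 1) p g x) := by
      rw [deriv_cut]
      rcases lt_or_ge (2 * δ n) (aa p x) with h1 | h1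
      · rw [st_deriv_one (by rw [lt_sub_iff_add_lt, lt_div_iff₀ (hδ n)]; linarith)]
        simp only [zero_div, zero_mul, abs_zero]; positivity
      · have m1 : |Bf (J + 1) p f x| ≤ 3 * 2 ^ (J + 1) * aa p x * dens (J + 1) p f x :=
          (hf.pd hp hx).BE_le J hE (h1.trans (hδ2 n))
        have m2 : |Bf (J + 1) p g x| ≤ 3 * 2 ^ (J + 1) * aa p x * dens (J + 1) p g x :=
          (hg.pd hp hx).BE_le J hE (h1.trans (hδ2 n))
        have := hδ n
        rw [abs_mul, abs_div, abs_of_pos (hδ n)]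
        calc _ ≤ C / δ n * (3 * 2 ^ (J + 1) * (2 * δ n)
              * (dens (J + 1) p f x + dens (J + 1) p g x)) := by
              gcongr ?_ / _ * ?_
              · exact hC _
              · refine (abs_sub _ _).trans ((add_le_add m1 m2).trans ?_)
                rw [← mul_add]; gcongr
          _ = _ := by field_simp; ring
    have := hb x hx
    simp only [F]
    rw [abs_mul, abs_of_nonneg (hψn _)]
    calc _ ≤ ψ ‖x‖ * ((1 + 6 * 2 ^ (J + 1) * C) * (dens (J + 1) p f x + dens (J + 1) p g x)) := by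
          refine mul_le_mul_of_nonneg_left ((abs_add_le _ _).trans ?_) (hψn _)
          linarith
      _ = (1 + 6 * 2 ^ (J + 1) * C) * (ψ ‖x‖ * (dens (J + 1) p f x + dens (J + 1) p g x)) := by
          ring
      _ ≤ _ := by gcongr
  · filter_upwards [ae_Om (by omega) p] with x hx
    have ha := Om.aa_pos hp hx
    obtain ⟨N, hN⟩ := exists_nat_gt (1 / aa p x)
    refine tendsto_const_nhds.congr' ?_
    filter_upwards [eventually_ge_atTop N] with n hn
    have h1 : 1 < aa p x / δ n - 1 := by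
      have h2 : (N : ℝ) ≤ n := by exact_mod_cast hn
      rw [div_lt_iff₀ ha] at hN
      simp only [δ]
      rw [div_div_eq_mul_div, div_one]
      nlinarith
    simp only [F, deriv_cut, st_deriv_one h1, cut, Real.smoothTransition.one_of_one_le h1.le]
    ring

end Pool.Agent.Lib.MP_13d336_gt
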