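import Pool.Agent.Lib.MP_13d336_gt.Anti

set_option autoImplicit false
set_option linter.unusedSimpArgs false
set_option linter.unusedSectionVars false
set_option linter.unusedVariables false
set_option linter.deprecated false

namespace Pool.Agent.Lib.MP_13d336_gt

open Finset Filter Topology MeasureTheory Metric
open scoped RealInnerProductSpace

variable {E : Type*} [NormedAddCommGroup E] [InnerProductSpace ℝ E] [FiniteDimensional ℝ E]
  [CompleteSpace E]

theorem PD.reflect {p u f : E} {U F : E →L[ℝ] E} {l' a' : E →L[ℝ] ℝ} {r a σ : ℝ}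
    (h : PD p u f U F l' a' r a σ) (z v : E)
    (hv : v = F z - ((2 * σ * ⟪u, f⟫) • (a' z • p + (σ • U z + (-(a / σ) * a' z) • u))
      + (2 * σ * dtau u f U F z + ⟪u, f⟫ * (2 * (-(a / σ) * a' z))) • (a • p + σ • u))) :
    v - ⟪(1 - 2 * a ^ 2) • p - (2 * a * σ) • u, v⟫ • ((1 - 2 * a ^ 2) • p - (2 * a * σ) • u)
      = YY u f U F σ z - (2 * ⟪a • p + σ • u, YY u f U F σ z⟫) • (a • p + σ • u) := by
  have pp : ⟪p, p⟫ = 1 := by rw [real_inner_self_eq_norm_sq, h.hp]; norm_num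
  have uu : ⟪u, u⟫ = 1 := by rw [real_inner_self_eq_norm_sq, h.hu]; norm_num
  have up : ⟪u, p⟫ = 0 := by rw [real_inner_comm, h.pu]
  have hσ := h.σ0.ne'
  have h2 := h.hσ
  subst hv
  simp only [YY, dtau, ContinuousLinearMap.add_apply, ContinuousLinearMap.sub_apply,
    ContinuousLinearMap.smul_apply, ContinuousLinearMap.smulRight_apply,
    ContinuousLinearMap.comp_apply, innerSL_apply_apply, inner_add_left, inner_add_right,
    inner_sub_left, inner_sub_right, real_inner_smul_left, real_inner_smul_right, pp, uu, up,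
    h.pu, h.pU, h.uU, h.pF]
  obtain ⟨α, hα⟩ : ∃ α, a' z = σ * α := ⟨a' z / σ, by field_simp⟩
  have e : a / σ * a' z = a * α := by rw [hα]; field_simp
  simp only [neg_mul, e]
  rw [hα]
  generalize ⟪u, F z⟫ = φ
  generalize ⟪f, U z⟫ = μ
  generalize ⟪u, f⟫ = τ
  match_scalars
  · ring
  · linear_combination (φ * σ * (8 * a ^ 3 - 4 * a) + 8 * a ^ 3 * μ * σ - 8 * a ^ 4 * τ * α) * h2
  · ring
  · linear_combination (-τ * α * σ * (4 * a + 8 * a ^ 3) + 8 * a ^ 2 * σ ^ 2 * φ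
      + μ * σ ^ 2 * (8 * a ^ 2 + 4)) * h2

theorem inner_reflect {m : E} (hm : ⟪m, m⟫ = 1) (A B : E) :
    ⟪A - (2 * ⟪m, A⟫) • m, B - (2 * ⟪m, B⟫) • m⟫ = ⟪A, B⟫ := by
  simp only [inner_sub_left, inner_sub_right, real_inner_smul_left, real_inner_smul_right, hm,
    real_inner_comm m A]
  ring

/-- tangential projection -/
noncomputable def PT (x : E) : E →L[ℝ] E := ContinuousLinearMap.id ℝ E - (innerSL ℝ x).smulRight x

/-- covariant derivative -/
noncomputable def DD (W : E → E) (x : E) : E →L[ℝ] E := (PT x).comp ((fderiv ℝ W x).comp (PT x))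

def Adm (p : E) (W : E → E) : Prop :=
  (∃ U : Set E, IsOpen U ∧ sphere (0 : E) 1 \ {p} ⊆ U ∧
    ContDiffOn ℝ ((⊤ : ℕ∞) : WithTop ℕ∞) W U) ∧
  ∀ x ∈ sphere (0 : E) 1 \ {p}, ‖W x‖ = 1 ∧ ⟪W x, x⟫ = 0

noncomputable def nz (x : E) : E := ‖x‖⁻¹ • x

noncomputable def fW (p : E) (W : E → E) (x : E) : E :=
  W (nz x) - (⟪W (nz x), p⟫ / (1 - cs p x)) • (p - nz x)

variable {p x : E} {W : E → E}

theorem inner_nz (p x : E) : ⟪p, nz x⟫ = cs p x := by
  rw [nz, inner_smul_right, cs, div_eq_inv_mul]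

theorem norm_nz (hx : x ≠ 0) : ‖nz x‖ = 1 := by
  rw [nz, norm_smul, norm_inv, norm_norm, inv_mul_cancel₀ (norm_ne_zero_iff.2 hx)]

theorem Om1.nz_mem (hp : ‖p‖ = 1) (hx : x ∈ Om1 p) : nz x ∈ sphere (0 : E) 1 \ {p} := by
  refine ⟨by simpa using norm_nz (norm_pos_iff.1 (Om1.norm_pos hp hx)), fun h => ?_⟩
  have h1 := Om1.cs_lt hp hx
  rw [← inner_nz, Set.mem_singleton_iff.1 h, real_inner_self_eq_norm_sq, hp] at h1
  norm_num at h1

theorem contDiffAt_nz {n : WithTop ℕ∞} (hx : x ≠ 0) : ContDiffAt ℝ n (nz : E → E) x :=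
  ((contDiffAt_norm ℝ hx).inv (norm_ne_zero_iff.2 hx)).smul contDiffAt_id

theorem hasFDerivAt_nz (hx : x ≠ 0) : HasFDerivAt (nz : E → E) (‖x‖⁻¹ • PT (nz x)) x := by
  have h0 := norm_ne_zero_iff.2 hx
  have h1 := hasFDerivAt_norm_ell hx
  have h2 := (h1.pow 2).unique (hasStrictFDerivAt_norm_sq x).hasFDerivAt
  have h3 := ((hasDerivAt_inv h0).comp_hasFDerivAt x h1).fun_smul (hasFDerivAt_id x)
  refine h3.congr_fderiv ?_
  ext z
  have h4 := congrFun (congrArg DFunLike.coe h2) z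
  simp only [ContinuousLinearMap.smul_apply, smul_eq_mul, nsmul_eq_mul, Nat.cast_ofNat,
    Nat.add_one_sub_one, pow_one, innerSL_apply_apply] at h4
  simp only [PT, nz, ContinuousLinearMap.add_apply, ContinuousLinearMap.sub_apply,
    ContinuousLinearMap.smul_apply, ContinuousLinearMap.smulRight_apply, id,
    ContinuousLinearMap.id_apply, innerSL_apply_apply, real_inner_smul_left, Function.comp_apply,
    smul_eq_mul]
  match_scalars
  · ring
  · field_simp
    linarith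

theorem Adm.contDiffAt (hW : Adm p W) {y : E} (hy : y ∈ sphere (0 : E) 1 \ {p}) :
    ContDiffAt ℝ 2 W y := by
  obtain ⟨U, hU, h1, h2⟩ := hW.1
  exact (h2.contDiffAt (hU.mem_nhds (h1 hy))).of_le 
    (WithTop.coe_le_coe.2 (le_top : (2 : ℕ∞) ≤ ⊤))

theorem Adm.good1 (hW : Adm p W) (hp : ‖p‖ = 1) : Good1 p (fW p W) := by
  intro x hx
  have hx0 := norm_pos_iff.1 (Om1.norm_pos hp hx)
  have hy := Om1.nz_mem hp hx
  have h1 : 1 - cs p x ≠ 0 := by linarith [Om1.cs_lt hp hx]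
  have hV : ContDiffAt ℝ 2 (fun x => W (nz x)) x := (hW.contDiffAt hy).comp x (contDiffAt_nz hx0)
  obtain ⟨n1, n2⟩ := hW.2 _ hy
  have pp : ⟪p, p⟫ = 1 := by rw [real_inner_self_eq_norm_sq, hp]; norm_num
  refine ⟨hV.sub (((hV.inner ℝ contDiffAt_const).div
    (contDiffAt_const.sub (contDiffAt_cs hx0)) h1).smul
      (contDiffAt_const.sub (contDiffAt_nz hx0))), ?_, ?_⟩
  · rw [← pow_left_inj₀ (norm_nonneg _) zero_le_one two_ne_zero, fW, norm_sub_sq_real, n1,
      inner_smul_right, inner_sub_right, n2, norm_smul, mul_pow, norm_sub_sq_real, hp,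
      norm_nz hx0, inner_nz, Real.norm_eq_abs, sq_abs]
    field_simp; ring
  · rw [fW, inner_sub_right, inner_smul_right, inner_sub_right, pp, inner_nz, real_inner_comm]
    field_simp; ring

theorem nz_smul {t : ℝ} (ht : 0 < t) (x : E) : nz (t • x) = nz x := by
  rw [nz, nz, norm_smul, Real.norm_eq_abs, abs_of_pos ht, smul_smul]
  congr 1
  rw [mul_inv, mul_right_comm, inv_mul_cancel₀ ht.ne', one_mul]

theorem fW_smul {t : ℝ} (ht : 0 < t) (x : E) : fW p W (t • x) = fW p W x := by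
  simp only [fW, ← inner_nz, nz_smul ht]

theorem Adm.inv (hW : Adm p W) (hp : ‖p‖ = 1) (hx : x ∈ Om1 p) :
    W (nz x) = fW p W x - (⟪fW p W x, nz x⟫ / (1 - cs p x)) • (nz x - p) := by
  have hx0 := norm_pos_iff.1 (Om1.norm_pos hp hx)
  have h1 : 1 - cs p x ≠ 0 := by linarith [Om1.cs_lt hp hx]
  have n2 := (hW.2 _ (Om1.nz_mem hp hx)).2
  have h2 : ⟪fW p W x, nz x⟫ = ⟪W (nz x), p⟫ := by
    rw [fW, inner_sub_left, real_inner_smul_left, inner_sub_left, n2, inner_nz,
      real_inner_self_eq_norm_sq, norm_nz hx0]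
    field_simp; ring
  rw [h2, fW]; module

theorem Om.nz_eq (hp : ‖p‖ = 1) (hx : x ∈ Om p) :
    nz x = (1 - 2 * aa p x ^ 2) • p - (2 * aa p x * sg p x) • uh p x := by
  rw [nz, inv_smul_eq_iff₀ (Om.norm_pos hp hx).ne']
  exact Om.polar hp hx

theorem Adm.inv' (hW : Adm p W) (hp : ‖p‖ = 1) (hx : x ∈ Om p) :
    W (nz x) = fW p W x - (2 * sg p x * ⟪uh p x, fW p W x⟫) • (aa p x • p + sg p x • uh p x) := by
  have h1 := (hW.good1 hp x (Om.om1 hp hx)).2.2
  have h2 : 1 - cs p x = 2 * aa p x ^ 2 := by rw [aa_sq hp]; ring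
  have h3 := (Om.aa_pos hp hx).ne'
  rw [hW.inv hp (Om.om1 hp hx), h2, Om.nz_eq hp hx, inner_sub_right, inner_smul_right,
    inner_smul_right, real_inner_comm p, h1, real_inner_comm (uh p x)]
  match_scalars
  · ring
  · field_simp; ring
  · field_simp; ring

theorem Adm.gd_eq (hW : Adm p W) (hp : ‖p‖ = 1) (hx : x ∈ Om p) :
    gd (DD W (nz x)) = gd (Yf p (fW p W) x) := by
  have hg := (hW.good1 hp).good hp
  have hpd := hg.pd hp hx
  have h0 := Om.norm_pos hp hx
  have hx0 := norm_pos_iff.1 h0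
  have ha := Om.hasFDerivAt_aa hp hx
  have hs := Om.hasFDerivAt_sg hp hx
  have hu := Om.hasFDerivAt_uh hx
  have hF := ((hg x hx).1.differentiableAt two_ne_zero).hasFDerivAt
  have ht : HasFDerivAt (fun y => ⟪uh p y, fW p W y⟫)
      (dtau (uh p x) (fW p W x) (fderiv ℝ (uh p) x) (fderiv ℝ (fW p W) x)) x := by
    refine (hu.inner ℝ hF).congr_fderiv ?_
    ext z
    simp [dtau, real_inner_comm]
  have h1 := ((hW.contDiffAt (Om1.nz_mem hp (Om.om1 hp hx))).differentiableAt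
    two_ne_zero).hasFDerivAt.comp x (hasFDerivAt_nz hx0)
  have h2 := h1.unique ((hF.fun_sub (((hs.const_mul 2).fun_mul ht).fun_smul
    ((ha.smul_const p).fun_add (hs.fun_smul hu)))).congr_of_eventuallyEq (by
      filter_upwards [(isOpen_Om p).mem_nhds hx] with y hy using hW.inv' hp hy))
  have h3 : ∀ z, DD W (nz x) z = ‖x‖ • (YY (uh p x) (fW p W x) (fderiv ℝ (uh p) x)
      (fderiv ℝ (fW p W) x) (sg p x) z - (2 * ⟪aa p x • p + sg p x • uh p x,
        YY (uh p x) (fW p W x) (fderiv ℝ (uh p) x) (fderiv ℝ (fW p W) x) (sg p x) z⟫)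
        • (aa p x • p + sg p x • uh p x)) := by
    intro z
    rw [← hpd.reflect z (fderiv ℝ W (nz x) (‖x‖⁻¹ • PT (nz x) z))
      (congrFun (congrArg DFunLike.coe h2) z), ← Om.nz_eq hp hx, map_smul]
    simp only [DD, ContinuousLinearMap.comp_apply]
    generalize fderiv ℝ W (nz x) (PT (nz x) z) = v
    simp only [PT, ContinuousLinearMap.sub_apply, ContinuousLinearMap.id_apply,
      ContinuousLinearMap.smulRight_apply, innerSL_apply_apply, inner_smul_right]
    match_scalars <;> field_simp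
  have hm : ⟪aa p x • p + sg p x • uh p x, aa p x • p + sg p x • uh p x⟫ = 1 := by
    rw [real_inner_self_eq_norm_sq, norm_add_sq_real, real_inner_smul_left, real_inner_smul_right,
      inner_uh hp, norm_smul, norm_smul, hp, Om.norm_uh hx, Real.norm_eq_abs, Real.norm_eq_abs,
      mul_one, mul_one, sq_abs, sq_abs, sg_sq hp]
    ring
  refine gd_congr fun z w => ?_
  rw [h3, h3, real_inner_smul_left, real_inner_smul_right, inner_reflect hm, Yf,
    ContinuousLinearMap.smul_apply, ContinuousLinearMap.smul_apply, real_inner_smul_left,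
    real_inner_smul_right]

/-- parallel transport field -/
noncomputable def PW (p v x : E) : E := v - (⟪v, x⟫ / (1 - ⟪p, x⟫)) • (x - p)

theorem inner_lt_one (hp : ‖p‖ = 1) {y : E} (hy : y ∈ sphere (0 : E) 1 \ {p}) : ⟪p, y⟫ < 1 :=
  (inner_lt_one_iff_real_of_norm_eq_one hp (by simpa using hy.1)).2 fun h => hy.2 h.symm

theorem adm_PW (hp : ‖p‖ = 1) {v : E} (hv : ‖v‖ = 1) (hpv : ⟪v, p⟫ = 0) : Adm p (PW p v) := by
  refine ⟨⟨{x | ⟪p, x⟫ < 1}, isOpen_lt (continuous_const.inner continuous_id) continuous_const,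
    fun y hy => inner_lt_one hp hy, fun x hx => ContDiffAt.contDiffWithinAt ?_⟩, fun y hy => ?_⟩
  · exact contDiffAt_const.sub (((contDiffAt_const.inner ℝ contDiffAt_id).div
      (contDiffAt_const.sub (contDiffAt_const.inner ℝ contDiffAt_id))
      (sub_pos.2 hx).ne').smul (contDiffAt_id.sub contDiffAt_const))
  · have h1 := (sub_pos.2 (inner_lt_one hp hy)).ne'
    have h2 : ‖y‖ = 1 := by simpa using hy.1
    constructor
    · rw [← pow_left_inj₀ (norm_nonneg _) zero_le_one two_ne_zero, PW, norm_sub_sq_real, hv,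
        inner_smul_right, inner_sub_right, hpv, norm_smul, mul_pow, norm_sub_sq_real, hp, h2,
        Real.norm_eq_abs, sq_abs, real_inner_comm p y]
      field_simp; ring
    · rw [PW, inner_sub_left, real_inner_smul_left, inner_sub_left, real_inner_self_eq_norm_sq, h2]
      field_simp; ring

theorem fW_eq_of_PW (hp : ‖p‖ = 1) {v : E} (hpv : ⟪v, p⟫ = 0)
    (h : ∀ y ∈ sphere (0 : E) 1 \ {p}, W y = PW p v y) (hx : x ∈ Om1 p) : fW p W x = v := by
  have h1 : 1 - cs p x ≠ 0 := by linarith [Om1.cs_lt hp hx]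
  rw [fW, h _ (Om1.nz_mem hp hx), PW, inner_sub_left, real_inner_smul_left, inner_sub_left, hpv,
    real_inner_comm p (nz x), inner_nz p, real_inner_self_eq_norm_sq, hp]
  match_scalars
  · ring
  · field_simp; ring
  · field_simp; ring

theorem eq_PW_of_fW (hW : Adm p W) (hp : ‖p‖ = 1) {v : E} (h : ∀ x ∈ Om1 p, fW p W x = v)
    {y : E} (hy : y ∈ sphere (0 : E) 1 \ {p}) : W y = PW p v y := by
  have h2 : ‖y‖ = 1 := by simpa using hy.1
  have h1 : y ∈ Om1 p := by rw [Om1, Set.mem_setOf_eq, h2]; exact inner_lt_one hp hy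
  have h3 := hW.inv hp h1
  rwa [h y h1, nz, cs, h2, inv_one, one_smul, div_one] at h3

end Pool.Agent.Lib.MP_13d336_gt
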