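import Pool.Agent.Lib.MP_13d336_gt.Torus
import Pool.Agent.Lib.MP_13d336_gt.Bound

set_option autoImplicit false
set_option linter.unusedSimpArgs false
set_option linter.unusedSectionVars false
set_option linter.deprecated false

namespace Pool.Agent.Lib.MP_13d336_gt

open Finset Matrix

/-- the determinant as a multilinear map of the rows -/
noncomputable def dM (N : ℕ) : MultilinearMap ℝ (fun _ : Fin N => Fin N → ℝ) ℝ :=
  (Matrix.detRowAlternating (n := Fin N) (R := ℝ)).toMultilinearMap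

theorem dM_apply {N : ℕ} (A : Fin N → Fin N → ℝ) : dM N A = (Matrix.of A).det := rfl

/-- derivative of the determinant at `A` in the direction `B` -/
noncomputable def TT {N : ℕ} (A B : Fin N → Fin N → ℝ) : ℝ :=
  ∑ l, dM N (Function.update A l (B l))

variable {k : ℕ}

def stk {R : Type*} (r0 r1 r2 : R) (c : Fin k → R) : Fin (k + 3) → R :=
  Fin.cons r0 (Fin.cons r1 (Fin.cons r2 c))

noncomputable def D3 (r0 r1 r2 : Fin (k + 3) → ℝ) :
    MultilinearMap ℝ (fun _ : Fin k => Fin (k + 3) → ℝ) ℝ :=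
  (((dM (k + 3)).curryLeft r0).curryLeft r1).curryLeft r2

theorem D3_apply (r0 r1 r2 : Fin (k + 3) → ℝ) (c : Fin k → Fin (k + 3) → ℝ) :
    D3 r0 r1 r2 c = dM (k + 3) (stk r0 r1 r2 c) := rfl

section
variable (r0 r1 r2 x y : Fin (k + 3) → ℝ) (c : Fin k → Fin (k + 3) → ℝ) (t : ℝ)

theorem D3_add0 : D3 (x + y) r1 r2 c = D3 x r1 r2 c + D3 y r1 r2 c :=
  (dM (k + 3)).cons_add _ _ _
theorem D3_smul0 : D3 (t • x) r1 r2 c = t * D3 x r1 r2 c :=
  (dM (k + 3)).cons_smul _ _ _
theorem D3_add1 : D3 r0 (x + y) r2 c = D3 r0 x r2 c + D3 r0 y r2 c :=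
  ((dM (k + 3)).curryLeft r0).cons_add _ _ _
theorem D3_smul1 : D3 r0 (t • x) r2 c = t * D3 r0 x r2 c :=
  ((dM (k + 3)).curryLeft r0).cons_smul _ _ _
theorem D3_add2 : D3 r0 r1 (x + y) c = D3 r0 r1 x c + D3 r0 r1 y c :=
  (((dM (k + 3)).curryLeft r0).curryLeft r1).cons_add _ _ _
theorem D3_smul2 : D3 r0 r1 (t • x) c = t * D3 r0 r1 x c :=
  (((dM (k + 3)).curryLeft r0).curryLeft r1).cons_smul _ _ _
theorem D3_zero0 : D3 0 r1 r2 c = 0 := by
  have := D3_smul0 r1 r2 0 c 0
  simpa using this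
theorem D3_self12 : D3 r0 x x c = 0 :=
  (Matrix.detRowAlternating (n := Fin (k + 3)) (R := ℝ)).map_eq_zero_of_eq (stk r0 x x c)
    (i := Fin.succ 0) (j := Fin.succ (Fin.succ 0)) rfl
    (fun h => Fin.succ_ne_zero _ (Fin.succ_injective _ h).symm)
theorem D3_self01 : D3 x x r2 c = 0 :=
  (Matrix.detRowAlternating (n := Fin (k + 3)) (R := ℝ)).map_eq_zero_of_eq (stk x x r2 c)
    (i := 0) (j := Fin.succ 0) rfl (Fin.succ_ne_zero _).symm
theorem D3_self02 : D3 x r1 x c = 0 :=
  (Matrix.detRowAlternating (n := Fin (k + 3)) (R := ℝ)).map_eq_zero_of_eq (stk x r1 x c)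
    (i := 0) (j := Fin.succ (Fin.succ 0)) rfl (Fin.succ_ne_zero _).symm
theorem D3_swap12 : D3 r0 y x c = -D3 r0 x y c := by
  have h := D3_self12 r0 (x + y) c
  rw [D3_add1, D3_add2, D3_add2, D3_self12, D3_self12] at h
  linarith
theorem D3_swap01 : D3 y x r2 c = -D3 x y r2 c := by
  have h := D3_self01 r2 (x + y) c
  rw [D3_add0, D3_add1, D3_add1, D3_self01, D3_self01] at h
  linarith
end

theorem TT_stk (r0 r1 r2 s0 s1 s2 : Fin (k + 3) → ℝ) (c d : Fin k → Fin (k + 3) → ℝ) :
    TT (stk r0 r1 r2 c) (stk s0 s1 s2 d) = D3 s0 r1 r2 c + D3 r0 s1 r2 c + D3 r0 r1 s2 c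
      + ∑ i, D3 r0 r1 r2 (Function.update c i (d i)) := by
  simp only [TT, Fin.sum_univ_succ, D3_apply, stk, Fin.cons_zero, Fin.cons_succ,
    Fin.update_cons_zero, ← Fin.cons_update, add_assoc]

/-- selection of rows -/
def sel {R : Type*} (U F : Fin k → R) (c : Fin k → Bool) : Fin k → R :=
  fun i => if c i then U i else F i

theorem sel_cons {R : Type*} (U F : Fin (k + 1) → R) (b : Bool) (c : Fin k → Bool) :
    sel U F (Fin.cons b c) = Fin.cons (if b then U 0 else F 0)
      (sel (fun i => U i.succ) (fun i => F i.succ) c) := by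
  funext i
  refine Fin.cases ?_ (fun i => ?_) i <;> simp [sel]

theorem expand1 {R : Type*} [AddCommGroup R] [Module ℝ R] (k : ℕ)
    (δ : MultilinearMap ℝ (fun _ : Fin k => R) ℝ) (t : ℝ) (U F : Fin k → R) :
    δ (fun i => t • U i + F i) = ∑ c : Fin k → Bool, t ^ cnt c * δ (sel U F c) := by
  induction k with
  | zero =>
    simp only [univ_unique, sum_singleton, cnt, univ_eq_empty, sum_empty, pow_zero, one_mul]
    congr 1; funext i; exact i.elim0
  | succ k ih =>
    have e : (fun i => t • U i + F i)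
        = Fin.cons (t • U 0 + F 0) (fun i : Fin k => t • U i.succ + F i.succ) := by
      funext i; refine Fin.cases ?_ (fun i => ?_) i <;> simp
    rw [e, δ.cons_add, δ.cons_smul, sum_bool_succ]
    have h1 := ih (δ.curryLeft (U 0)) (fun i => U i.succ) (fun i => F i.succ)
    have h2 := ih (δ.curryLeft (F 0)) (fun i => U i.succ) (fun i => F i.succ)
    simp only [MultilinearMap.curryLeft_apply] at h1 h2
    rw [h1, h2, smul_eq_mul, mul_sum]
    simp only [sel_cons, cnt_cons, if_true, Bool.false_eq_true, if_false, add_zero]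
    congr 1
    exact sum_congr rfl fun c _ => by ring

theorem expand2 {R : Type*} [AddCommGroup R] [Module ℝ R] (k : ℕ)
    (δ : MultilinearMap ℝ (fun _ : Fin k => R) ℝ) (t g g' : ℝ) (U F : Fin k → R) :
    t * ∑ i, δ (Function.update (fun i => t • U i + F i) i (g • U i + g' • F i))
      = ∑ c : Fin k → Bool, (g * cnt c * t ^ cnt c + g' * (k - cnt c) * t ^ (cnt c + 1))
        * δ (sel U F c) := by
  induction k with
  | zero => simp [cnt]
  | succ k ih =>
    have e : (fun i => t • U i + F i)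
        = Fin.cons (t • U 0 + F 0) (fun i : Fin k => t • U i.succ + F i.succ) := by
      funext i; refine Fin.cases ?_ (fun i => ?_) i <;> simp
    rw [e, Fin.sum_univ_succ, Fin.update_cons_zero]
    simp only [← Fin.cons_update, δ.cons_add, δ.cons_smul, smul_eq_mul, sum_add_distrib,
      ← mul_sum]
    have h1 := ih (δ.curryLeft (U 0)) (fun i => U i.succ) (fun i => F i.succ)
    have h2 := ih (δ.curryLeft (F 0)) (fun i => U i.succ) (fun i => F i.succ)
    have h3 := expand1 k (δ.curryLeft (U 0)) t (fun i => U i.succ) (fun i => F i.succ)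
    have h4 := expand1 k (δ.curryLeft (F 0)) t (fun i => U i.succ) (fun i => F i.succ)
    simp only [MultilinearMap.curryLeft_apply] at h1 h2 h3 h4
    rw [mul_add, mul_add t (t * _), h1, h2, h3, h4, sum_bool_succ]
    simp only [sel_cons, cnt_cons, if_true, Bool.false_eq_true, if_false, add_zero, mul_sum,
      mul_add, ← sum_add_distrib]
    exact sum_congr rfl fun c _ => by push_cast; ring

/-- the value of `TT` at one node -/
theorem node (l a υ ψ : Fin (k + 3) → ℝ) (U F : Fin k → Fin (k + 3) → ℝ)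
    (t τ σ ga ga' gt gt' g g' : ℝ) (h : τ ^ 2 + σ ^ 2 = 1) :
    TT (stk l ((-(t * σ)) • υ) ((t * τ) • υ + ψ) fun i => t • U i + F i)
      (stk 0 ((τ * ga + ga') • a + ((τ * gt + gt') * σ) • ψ + (-((τ * gt + gt' + g) * σ)) • υ)
        ((σ * ga) • a + (σ ^ 2 * gt + g') • ψ + (g * τ - σ ^ 2 * gt) • υ)
        fun i => g • U i + g' • F i)
    = ∑ c : Fin k → Bool, (t ^ (cnt c + 1) * (ga + τ * ga') * D3 l a υ (sel U F c)
        + t ^ cnt c * (τ * ga + ga') * D3 l a ψ (sel U F c)
        - σ * (t ^ cnt c * ((cnt c + 1) * g + τ * gt + gt')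
          + t ^ (cnt c + 1) * (gt + (k + 1 - cnt c) * g' + τ * gt')) * D3 l υ ψ (sel U F c)) := by
  rw [TT_stk, D3_zero0]
  simp only [D3_add1, D3_add2, D3_smul1, D3_smul2, D3_self12, D3_swap12 l υ ψ,
    D3_swap12 l a υ, mul_zero, zero_add, add_zero]
  have h2 := expand2 k (D3 l υ ψ) t g g' U F
  rw [show ∑ i, -(t * σ) * D3 l υ ψ (Function.update (fun i => t • U i + F i) i
      (g • U i + g' • F i)) = -σ * (t * ∑ i, D3 l υ ψ (Function.update (fun i => t • U i + F i) i
      (g • U i + g' • F i))) by rw [← mul_sum]; ring, h2]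
  simp only [expand1, mul_sum, ← sum_add_distrib, ← sum_neg_distrib]
  refine sum_congr rfl fun c _ => ?_
  linear_combination (t ^ (cnt c + 1) * ga * D3 l a υ (sel U F c)
    - σ * t ^ (cnt c + 1) * gt * D3 l υ ψ (sel U F c)) * h

end Pool.Agent.Lib.MP_13d336_gt
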