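import Pool.Agent.Lib.MP_13d336_gt.Point2

set_option autoImplicit false
set_option linter.unusedSimpArgs false
set_option linter.unusedSectionVars false
set_option linter.unusedVariables false
set_option linter.deprecated false

namespace Pool.Agent.Lib.MP_13d336_gt

open Finset Filter Topology
open scoped RealInnerProductSpace

variable {E : Type*} [NormedAddCommGroup E] [InnerProductSpace ℝ E] [FiniteDimensional ℝ E]
  [CompleteSpace E]

noncomputable def pr (p x : E) : E := x - ⟪p, x⟫ • p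
noncomputable def uh (p x : E) : E := -(‖pr p x‖⁻¹ • pr p x)
noncomputable def cs (p x : E) : ℝ := ⟪p, x⟫ / ‖x‖
noncomputable def aa (p x : E) : ℝ := √((1 - cs p x) / 2)
noncomputable def sg (p x : E) : ℝ := √((1 + cs p x) / 2)
noncomputable def ell (x : E) : ℝ := Real.log ‖x‖
def Om (p : E) : Set E := {x | pr p x ≠ 0}
def Om1 (p : E) : Set E := {x | ⟪p, x⟫ < ‖x‖}

theorem contDiff_pr (p : E) {n : WithTop ℕ∞} : ContDiff ℝ n (pr p) :=
  contDiff_id.sub ((contDiff_const.inner ℝ contDiff_id).smul contDiff_const)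

theorem isOpen_Om (p : E) : IsOpen (Om p) :=
  isOpen_ne_fun (contDiff_pr p (n := 0)).continuous continuous_const

theorem isOpen_Om1 (p : E) : IsOpen (Om1 p) :=
  isOpen_lt (continuous_const.inner continuous_id) continuous_norm

theorem inner_fderiv_const {g : E → E} {x q : E} (hg : DifferentiableAt ℝ g x)
    (h : ∀ᶠ y in 𝓝 x, ⟪q, g y⟫ = 0) (z : E) : ⟪q, fderiv ℝ g x z⟫ = 0 := by
  have h1 := (innerSL ℝ q).hasFDerivAt.comp x hg.hasFDerivAt
  have h2 := h1.unique ((hasFDerivAt_const (0 : ℝ) x).congr_of_eventuallyEq h)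
  exact congrFun (congrArg DFunLike.coe h2) z

theorem inner_fderiv_self {g : E → E} {x : E} (hg : DifferentiableAt ℝ g x)
    (h : ∀ᶠ y in 𝓝 x, ‖g y‖ = 1) (z : E) : ⟪g x, fderiv ℝ g x z⟫ = 0 := by
  have h1 := hg.hasFDerivAt.norm_sq
  have h2 := h1.unique ((hasFDerivAt_const (1 : ℝ) x).congr_of_eventuallyEq
    (h.mono fun y hy => by simp [hy]))
  have := congrFun (congrArg DFunLike.coe h2) z
  simpa using this

variable {p x : E}

theorem pr_sq (hp : ‖p‖ = 1) (x : E) : ‖pr p x‖ ^ 2 = ‖x‖ ^ 2 - ⟪p, x⟫ ^ 2 := by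
  rw [pr, norm_sub_sq_real, inner_smul_right, norm_smul, hp, real_inner_comm, Real.norm_eq_abs,
    mul_one, sq_abs]
  ring

theorem inner_pr (hp : ‖p‖ = 1) (x : E) : ⟪p, pr p x⟫ = 0 := by
  simp [pr, inner_sub_right, inner_smul_right, hp]

theorem Om.abs_lt (hp : ‖p‖ = 1) (hx : x ∈ Om p) : |⟪p, x⟫| < ‖x‖ := by
  have h1 := pr_sq hp x
  have h2 : 0 < ‖pr p x‖ := norm_pos_iff.2 hx
  exact abs_lt_of_sq_lt_sq (by nlinarith) (norm_nonneg x)

theorem Om.om1 (hp : ‖p‖ = 1) (hx : x ∈ Om p) : x ∈ Om1 p := (_root_.abs_lt.1 (Om.abs_lt hp hx)).2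

theorem Om1.norm_pos (hp : ‖p‖ = 1) (hx : x ∈ Om1 p) : 0 < ‖x‖ := by
  rw [norm_pos_iff]
  rintro rfl
  simp [Om1] at hx

theorem Om.norm_pos (hp : ‖p‖ = 1) (hx : x ∈ Om p) : 0 < ‖x‖ :=
  (abs_nonneg _).trans_lt (Om.abs_lt hp hx)

theorem cs_abs_le (hp : ‖p‖ = 1) (x : E) : |cs p x| ≤ 1 := by
  rw [cs, abs_div, abs_norm]
  apply div_le_one_of_le₀ _ (norm_nonneg x)
  simpa [hp] using abs_real_inner_le_norm p x

theorem Om.cs_lt (hp : ‖p‖ = 1) (hx : x ∈ Om p) : |cs p x| < 1 := by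
  rw [cs, abs_div, abs_norm, div_lt_one (Om.norm_pos hp hx)]
  exact Om.abs_lt hp hx

theorem Om1.cs_lt (hp : ‖p‖ = 1) (hx : x ∈ Om1 p) : cs p x < 1 := by
  rw [cs, div_lt_one (Om1.norm_pos hp hx)]
  exact hx

theorem aa_sq (hp : ‖p‖ = 1) (x : E) : aa p x ^ 2 = (1 - cs p x) / 2 :=
  Real.sq_sqrt (by linarith [(abs_le.1 (cs_abs_le hp x)).2])

theorem sg_sq' (hp : ‖p‖ = 1) (x : E) : sg p x ^ 2 = (1 + cs p x) / 2 :=
  Real.sq_sqrt (by linarith [(abs_le.1 (cs_abs_le hp x)).1])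

theorem sg_sq (hp : ‖p‖ = 1) (x : E) : sg p x ^ 2 = 1 - aa p x ^ 2 := by
  rw [aa_sq hp, sg_sq' hp]; ring

theorem aa_nonneg (p x : E) : 0 ≤ aa p x := Real.sqrt_nonneg _
theorem sg_nonneg (p x : E) : 0 ≤ sg p x := Real.sqrt_nonneg _

theorem Om.aa_pos (hp : ‖p‖ = 1) (hx : x ∈ Om p) : 0 < aa p x :=
  Real.sqrt_pos.2 (by linarith [(_root_.abs_lt.1 (Om.cs_lt hp hx)).2])

theorem Om.sg_pos (hp : ‖p‖ = 1) (hx : x ∈ Om p) : 0 < sg p x :=
  Real.sqrt_pos.2 (by linarith [(_root_.abs_lt.1 (Om.cs_lt hp hx)).1])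

theorem Om.aa_lt (hp : ‖p‖ = 1) (hx : x ∈ Om p) : aa p x < 1 := by
  have h1 := sg_sq hp x
  have h2 := Om.sg_pos hp hx
  nlinarith [aa_nonneg p x]

theorem norm_pr (hp : ‖p‖ = 1) (hx : x ≠ 0) : ‖pr p x‖ = ‖x‖ * (2 * aa p x * sg p x) := by
  have h0 := norm_pos_iff.2 hx
  have h1 := aa_nonneg p x
  have h2 := sg_nonneg p x
  rw [← pow_left_inj₀ (norm_nonneg _) (by positivity) two_ne_zero, pr_sq hp, mul_pow, mul_pow,
    mul_pow, aa_sq hp, sg_sq' hp, cs]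
  field_simp; ring

theorem Om.norm_uh (hx : x ∈ Om p) : ‖uh p x‖ = 1 := by
  rw [uh, norm_neg, norm_smul, norm_inv, norm_norm, inv_mul_cancel₀ (norm_ne_zero_iff.2 hx)]

theorem inner_uh (hp : ‖p‖ = 1) (x : E) : ⟪p, uh p x⟫ = 0 := by
  rw [uh, inner_neg_right, inner_smul_right, inner_pr hp]; simp

theorem Om.polar (hp : ‖p‖ = 1) (hx : x ∈ Om p) :
    x = ‖x‖ • ((1 - 2 * aa p x ^ 2) • p - (2 * aa p x * sg p x) • uh p x) := by
  have h0 := Om.norm_pos hp hx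
  have h1 : 0 < ‖pr p x‖ := norm_pos_iff.2 hx
  rw [smul_sub, smul_smul, smul_smul, ← norm_pr hp (norm_pos_iff.1 h0), uh, smul_neg,
    smul_inv_smul₀ h1.ne', aa_sq hp, cs, pr,
    show ‖x‖ * (1 - 2 * ((1 - ⟪p, x⟫ / ‖x‖) / 2)) = ⟪p, x⟫ by field_simp; ring]
  abel

section smooth
variable {n : WithTop ℕ∞}

theorem contDiffAt_cs (hx : x ≠ 0) : ContDiffAt ℝ n (cs p) x :=
  (contDiffAt_const.inner ℝ contDiffAt_id).div (contDiffAt_norm ℝ hx) (norm_ne_zero_iff.2 hx)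

theorem contDiffAt_ell (hx : x ≠ 0) : ContDiffAt ℝ n (ell : E → ℝ) x :=
  (contDiffAt_norm ℝ hx).log (norm_ne_zero_iff.2 hx)

theorem Om.contDiffAt_uh (hx : x ∈ Om p) : ContDiffAt ℝ n (uh p) x :=
  ((((contDiff_pr p).contDiffAt.norm ℝ hx).inv (norm_ne_zero_iff.2 hx)).smul
    (contDiff_pr p).contDiffAt).neg

theorem Om1.contDiffAt_aa (hp : ‖p‖ = 1) (hx : x ∈ Om1 p) : ContDiffAt ℝ n (aa p) x :=
  ((contDiffAt_const.sub (contDiffAt_cs (norm_pos_iff.1 (Om1.norm_pos hp hx)))).div_const 2).sqrt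
    (by linarith [Om1.cs_lt hp hx])

theorem Om.contDiffAt_aa (hp : ‖p‖ = 1) (hx : x ∈ Om p) : ContDiffAt ℝ n (aa p) x :=
  Om1.contDiffAt_aa hp (Om.om1 hp hx)

theorem Om.contDiffAt_sg (hp : ‖p‖ = 1) (hx : x ∈ Om p) : ContDiffAt ℝ n (sg p) x :=
  ((contDiffAt_const.add (contDiffAt_cs (norm_pos_iff.1 (Om.norm_pos hp hx)))).div_const 2).sqrt
    (by linarith [(_root_.abs_lt.1 (Om.cs_lt hp hx)).1])
end smooth

theorem hasFDerivAt_norm_ell (hx : x ≠ 0) :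
    HasFDerivAt (fun y : E => ‖y‖) (‖x‖ • fderiv ℝ ell x) x := by
  have h1 := ((contDiffAt_ell (n := 1) hx).differentiableAt one_ne_zero).hasFDerivAt.exp
  rw [ell, Real.exp_log (norm_pos_iff.2 hx)] at h1
  refine h1.congr_of_eventuallyEq ?_
  filter_upwards [isOpen_ne.mem_nhds hx] with y hy
  rw [ell, Real.exp_log (norm_pos_iff.2 hy)]

theorem Om.hasFDerivAt_aa (hp : ‖p‖ = 1) (hx : x ∈ Om p) :
    HasFDerivAt (aa p) (fderiv ℝ (aa p) x) x :=
  ((Om.contDiffAt_aa (n := 1) hp hx).differentiableAt one_ne_zero).hasFDerivAt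

theorem Om.hasFDerivAt_uh (hx : x ∈ Om p) : HasFDerivAt (uh p) (fderiv ℝ (uh p) x) x :=
  ((Om.contDiffAt_uh (n := 1) hx).differentiableAt one_ne_zero).hasFDerivAt

theorem Om.hasFDerivAt_sg (hp : ‖p‖ = 1) (hx : x ∈ Om p) :
    HasFDerivAt (sg p) ((-(aa p x / sg p x)) • fderiv ℝ (aa p) x) x := by
  have h1 := ((Om.contDiffAt_sg (n := 1) hp hx).differentiableAt one_ne_zero).hasFDerivAt
  have h2 := Om.hasFDerivAt_aa hp hx
  have h3 := (h1.pow 2).unique (((h2.pow 2).const_sub 1).congr_of_eventuallyEq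
    (Eventually.of_forall fun y => sg_sq hp y))
  refine h1.congr_fderiv ?_
  ext z
  have := congrFun (congrArg DFunLike.coe h3) z
  have h4 := (Om.sg_pos hp hx).ne'
  simp at this ⊢
  field_simp
  linarith

theorem Om.pd (hp : ‖p‖ = 1) (hx : x ∈ Om p) {f : E → E} (hf : DifferentiableAt ℝ f x)
    (h1 : ∀ᶠ y in 𝓝 x, ‖f y‖ = 1) (h2 : ∀ᶠ y in 𝓝 x, ⟪p, f y⟫ = 0) :
    PD p (uh p x) (f x) (fderiv ℝ (uh p) x) (fderiv ℝ f x) (fderiv ℝ ell x) (fderiv ℝ (aa p) x)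
      ‖x‖ (aa p x) (sg p x) where
  hp := hp
  hu := Om.norm_uh hx
  hf := h1.self_of_nhds
  pu := inner_uh hp x
  pf := h2.self_of_nhds
  pU := inner_fderiv_const (Om.hasFDerivAt_uh hx).differentiableAt
    (Eventually.of_forall (inner_uh hp))
  uU := inner_fderiv_self (Om.hasFDerivAt_uh hx).differentiableAt
    (by filter_upwards [(isOpen_Om p).mem_nhds hx] with y hy using Om.norm_uh hy)
  pF := inner_fderiv_const hf h2
  fF := inner_fderiv_self hf h1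
  r0 := Om.norm_pos hp hx
  a0 := Om.aa_pos hp hx
  a1 := Om.aa_lt hp hx
  σ0 := Om.sg_pos hp hx
  hσ := sg_sq hp x
  hI := by
    intro z
    have ha := Om.hasFDerivAt_aa hp hx
    have hs := Om.hasFDerivAt_sg hp hx
    have hu := Om.hasFDerivAt_uh hx
    have hn := hasFDerivAt_norm_ell (norm_pos_iff.1 (Om.norm_pos hp hx))
    have h3 := hn.fun_smul (((((ha.pow 2).const_mul 2).const_sub 1).smul_const p).fun_sub
      (((ha.const_mul 2).fun_mul hs).fun_smul hu))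
    have h4 := (hasFDerivAt_id x).unique (h3.congr_of_eventuallyEq (by
      filter_upwards [(isOpen_Om p).mem_nhds hx] with y hy using Om.polar hp hy))
    have h5 := congrFun (congrArg DFunLike.coe h4) z
    have h6 := (Om.sg_pos hp hx).ne'
    have h7 := sg_sq hp x
    simp only [ContinuousLinearMap.id_apply, ContinuousLinearMap.add_apply,
      ContinuousLinearMap.sub_apply, ContinuousLinearMap.smul_apply, ContinuousLinearMap.neg_apply,
      ContinuousLinearMap.smulRight_apply, smul_eq_mul] at h5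
    refine h5.trans ?_
    match_scalars
    · ring
    · ring
    · field_simp
      linear_combination (-‖x‖ * fderiv ℝ (aa p) x z) * h7

end Pool.Agent.Lib.MP_13d336_gt
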