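import Pool.Agent.Lib.MP_13d336_gt.Model

set_option autoImplicit false
set_option linter.unusedSimpArgs false
set_option linter.unusedSectionVars false
set_option linter.unusedVariables false
set_option linter.deprecated false

namespace Pool.Agent.Lib.MP_13d336_gt

open Finset Filter Topology MeasureTheory Metric
open scoped RealInnerProductSpace ENNReal

/-- radial weight -/
noncomputable def wg (t : ℝ) : ℝ := Real.smoothTransition (t - 1) * Real.smoothTransition (3 - t)

theorem contDiff_wg : ContDiff ℝ 1 wg :=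
  (Real.smoothTransition.contDiff.comp (contDiff_id.sub contDiff_const)).mul
    (Real.smoothTransition.contDiff.comp (contDiff_const.sub contDiff_id))

theorem wg_nonneg (t : ℝ) : 0 ≤ wg t :=
  mul_nonneg (Real.smoothTransition.nonneg _) (Real.smoothTransition.nonneg _)

theorem wg_supp (t : ℝ) (h : wg t ≠ 0) : 1 ≤ t ∧ t ≤ 3 := by
  have h1 := mt Real.smoothTransition.zero_of_nonpos (left_ne_zero_of_mul h)
  have h2 := mt Real.smoothTransition.zero_of_nonpos (right_ne_zero_of_mul h)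
  constructor <;> linarith

theorem wg_le (t : ℝ) : |wg t| ≤ 1 := by
  rw [abs_of_nonneg (wg_nonneg t)]
  exact mul_le_one₀ (Real.smoothTransition.le_one _) (Real.smoothTransition.nonneg _)
    (Real.smoothTransition.le_one _)

theorem wg_pos {t : ℝ} (h1 : 1 < t) (h3 : t < 3) : 0 < wg t :=
  mul_pos (Real.smoothTransition.pos_of_pos (by linarith))
    (Real.smoothTransition.pos_of_pos (by linarith))

variable {E : Type*} [NormedAddCommGroup E] [InnerProductSpace ℝ E] [FiniteDimensional ℝ E]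
  [CompleteSpace E] [MeasurableSpace E] [BorelSpace E] {p : E} {W : E → E}

noncomputable def volE (W : E → E) : ℝ≥0∞ :=
  ∫⁻ y : sphere (0 : E) 1, ENNReal.ofReal (gd (DD W y)) ∂(volume : Measure E).toSphere

noncomputable def kk (N : ℕ) : ℝ≥0∞ :=
  ∫⁻ r : Set.Ioi (0 : ℝ), ENNReal.ofReal (wg r / r ^ N) ∂Measure.volumeIoiPow (N - 1)

noncomputable def hW (N : ℕ) (W : E → E) (x : E) : ℝ := wg ‖x‖ * (gd (DD W (nz x)) / ‖x‖ ^ N)

theorem hW_nonneg (N : ℕ) (W : E → E) (x : E) : 0 ≤ hW N W x :=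
  mul_nonneg (wg_nonneg _) (div_nonneg (gd_pos _).le (by positivity))

theorem measurable_gd_DD (W : E → E) : Measurable fun y => gd (DD W y) := by
  have := FiniteDimensional.proper_real (E →L[ℝ] E)
  have h1 : Continuous (PT : E → E →L[ℝ] E) := by
    refine continuous_const.sub ?_
    exact ((ContinuousLinearMap.smulRightL ℝ E E).continuous.comp
      (innerSL ℝ).continuous).clm_apply continuous_id
  have h2 : Continuous fun q : E × (E →L[ℝ] E) => gd ((PT q.1).comp (q.2.comp (PT q.1))) :=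
    continuous_gd.comp ((h1.comp continuous_fst).clm_comp
      (continuous_snd.clm_comp (h1.comp continuous_fst)))
  have h3 : Measurable fun y : E => (y, fderiv ℝ W y) :=
    measurable_id.prodMk (measurable_fderiv ℝ W)
  have h4 := h2.measurable.comp h3
  simpa only [Function.comp_def, DD] using h4

theorem measurable_nz : Measurable (nz : E → E) := by
  unfold nz; fun_prop

theorem measurable_hW (N : ℕ) (W : E → E) : Measurable (hW N W) :=
  (contDiff_wg.continuous.measurable.comp measurable_norm).mul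
    (((measurable_gd_DD W).comp measurable_nz).div (measurable_norm.pow_const N))

variable (J : ℕ) (hE : Module.finrank ℝ E = 2 * (J + 1) + 3) (hp : ‖p‖ = 1)
include hE

theorem lintegral_hW (W : E → E) :
    ∫⁻ x, ENNReal.ofReal (hW (2 * (J + 1) + 3) W x) = volE W * kk (2 * (J + 1) + 3) := by
  have h := transfer J hE (measurable_gd_DD W).ennreal_ofReal
    (g := fun r => ENNReal.ofReal (wg r / r ^ (2 * (J + 1) + 3)))
    (contDiff_wg.continuous.measurable.div (measurable_id.pow_const _)).ennreal_ofReal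
  rw [hE] at h
  rw [volE, kk, ← h]
  refine lintegral_congr fun x => ?_
  rw [← ENNReal.ofReal_mul (gd_pos _).le, hW]
  congr 1; ring

include hp

theorem kk_ne : kk (2 * (J + 1) + 3) ≠ 0 ∧ kk (2 * (J + 1) + 3) ≠ ⊤ := by
  have : Nontrivial E := Module.nontrivial_of_finrank_pos (R := ℝ) (by omega)
  have hm : Measurable fun r : ℝ => ENNReal.ofReal (wg r / r ^ (2 * (J + 1) + 3)) :=
    (contDiff_wg.continuous.measurable.div (measurable_id.pow_const _)).ennreal_ofReal
  have h := transfer J hE (h := fun _ => 1) measurable_const hm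
  rw [hE] at h
  simp only [one_mul, lintegral_const] at h
  change _ = _ * kk _ at h
  constructor
  · intro h0
    rw [h0, mul_zero] at h
    replace h := (lintegral_eq_zero_iff (hm.comp measurable_norm)).1 h
    have ho : IsOpen {x : E | 1 < ‖x‖ ∧ ‖x‖ < 3} :=
      (isOpen_lt continuous_const continuous_norm).inter (isOpen_lt continuous_norm continuous_const)
    refine (ho.measure_pos volume ⟨(2 : ℝ) • p, ?_⟩).ne' (measure_mono_null ?_ (ae_iff.1 h))
    · simp only [Set.mem_setOf_eq, norm_smul, hp]; norm_num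
    · rintro x ⟨h1, h3⟩
      have := wg_pos h1 h3
      simp only [Set.mem_setOf_eq, Pi.zero_apply, ENNReal.ofReal_eq_zero, not_le,
        Function.comp_apply]
      positivity
  · intro h0
    rw [h0, ENNReal.mul_top (by
      simpa [hE] using (measure_ball_pos volume (0 : E) one_pos).ne')] at h
    refine ne_of_lt (lt_of_le_of_lt (lintegral_mono fun x => ?_)
      (integrable_weight (E := E) contDiff_wg.continuous wg_supp).lintegral_lt_top) h
    apply ENNReal.ofReal_le_ofReal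
    by_cases h1 : wg ‖x‖ = 0
    · simp [h1]
    · exact div_le_self (wg_nonneg _) (one_le_pow₀ (wg_supp _ h1).1)

theorem Adm.hW_eq (hA : Adm p W) {x : E} (hx : x ∈ Om p) :
    hW (2 * (J + 1) + 3) W x = wg ‖x‖ * dens (J + 1) p (fW p W) x := by
  rw [hW, hA.gd_eq hp hx, dens]

theorem Adm.calib (hA : Adm p W) (hi : Integrable (hW (2 * (J + 1) + 3) W) volume) {b : E}
    (hb : ‖b‖ = 1) (hpb : ⟪p, b⟫ = 0) :
    Integrable (fun x => wg ‖x‖ * Lf (J + 1) p (fW p W) x) volume ∧
      ∫ x, wg ‖x‖ * Lf (J + 1) p (fW p W) x = -∫ x, wg ‖x‖ * db (J + 1) p b x := by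
  have hg := hA.good1 hp
  obtain ⟨-, c1, c2⟩ := hg _ (neg_mem_Om1 hp)
  have i1 := integrable_db J hE hp c1 contDiff_wg.continuous wg_supp wg_le
  obtain ⟨h1, h2⟩ := ma3 J hE hp hg (b := fW p W (-p)) (fun t ht => by
      rw [← fW_smul (neg_pos.2 ht) (-p), neg_smul_neg]) contDiff_wg wg_supp wg_nonneg hi i1
    (fun x hx => (hA.hW_eq J hE hp hx).ge)
    (fun x hx => by rw [(dens_const J hE hp c1 c2 hx).1])
  have hae : (fun x => wg ‖x‖ * (Lf (J + 1) p (fW p W) x - Lf (J + 1) p (fun _ => fW p W (-p)) x)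
      - wg ‖x‖ * db (J + 1) p (fW p W (-p)) x) =ᵐ[volume]
      fun x => wg ‖x‖ * Lf (J + 1) p (fW p W) x := by
    filter_upwards [ae_Om (by omega) p] with x hx
    rw [(dens_const J hE hp c1 c2 hx).2]; ring
  refine ⟨(h1.sub i1).congr hae, ?_⟩
  rw [← integral_congr_ae hae, integral_sub h1 i1, h2, zero_sub,
    integral_db_eq (J + 1) hp c1 c2 hb hpb]

theorem Adm.sum_nonneg (hA : Adm p W) {x : E} (hx : x ∈ Om p) :
    0 ≤ hW (2 * (J + 1) + 3) W x + wg ‖x‖ * Lf (J + 1) p (fW p W) x := by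
  rw [hA.hW_eq J hE hp hx, ← mul_add]
  have : |Lf (J + 1) p (fW p W) x| ≤ dens (J + 1) p (fW p W) x :=
    (((hA.good1 hp).good hp).pd hp hx).LE_le J hE
  exact mul_nonneg (wg_nonneg _) (by linarith [neg_abs_le (Lf (J + 1) p (fW p W) x)])

omit hp in
theorem integrable_hW (h : volE W * kk (2 * (J + 1) + 3) ≠ ⊤) :
    Integrable (hW (2 * (J + 1) + 3) W) volume := by
  rw [← lintegral_hW J hE] at h
  exact (lintegral_ofReal_ne_top_iff_integrable (measurable_hW _ W).aestronglyMeasurable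
    (Eventually.of_forall (hW_nonneg _ W))).1 h

theorem Adm.lower (hA : Adm p W) {b : E} (hb : ‖b‖ = 1) (hpb : ⟪p, b⟫ = 0) :
    ENNReal.ofReal (∫ x, wg ‖x‖ * db (J + 1) p b x) ≤ volE W * kk (2 * (J + 1) + 3) := by
  by_cases h : volE W * kk (2 * (J + 1) + 3) = ⊤
  · rw [h]; exact le_top
  have hi := integrable_hW J hE h
  obtain ⟨h1, h2⟩ := hA.calib J hE hp hi hb hpb
  rw [← lintegral_hW J hE, ← ofReal_integral_eq_lintegral_ofReal hi
    (Eventually.of_forall (hW_nonneg _ W))]
  apply ENNReal.ofReal_le_ofReal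
  have h3 := integral_nonneg_of_ae ((ae_Om (by omega) p).mono fun x hx => hA.sum_nonneg J hE hp hx)
  rw [integral_add hi h1, h2] at h3
  linarith

theorem Adm.model (hA : Adm p W) {v : E} (hv : ‖v‖ = 1) (hpv : ⟪p, v⟫ = 0)
    (h : ∀ x ∈ Om1 p, fW p W x = v) :
    volE W * kk (2 * (J + 1) + 3) = ENNReal.ofReal (∫ x, wg ‖x‖ * db (J + 1) p v x) := by
  have hae : hW (2 * (J + 1) + 3) W =ᵐ[volume] fun x => wg ‖x‖ * db (J + 1) p v x := by
    filter_upwards [ae_Om (by omega) p] with x hx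
    rw [hA.hW_eq J hE hp hx, ← (dens_const J hE hp hv hpv hx).1, dens_congr]
    filter_upwards [(isOpen_Om1 p).mem_nhds (Om.om1 hp hx)] with y hy using h y hy
  have i1 := integrable_db J hE hp hv contDiff_wg.continuous wg_supp wg_le
  rw [← lintegral_hW J hE, ← integral_congr_ae hae, ofReal_integral_eq_lintegral_ofReal
    (i1.congr hae.symm) (Eventually.of_forall (hW_nonneg _ W))]

theorem Adm.flat (hA : Adm p W) {b : E} (hb : ‖b‖ = 1) (hpb : ⟪p, b⟫ = 0)
    (h : volE W * kk (2 * (J + 1) + 3) ≤ ENNReal.ofReal (∫ x, wg ‖x‖ * db (J + 1) p b x))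
    {x : E} (hx : x ∈ Om p) (hτ : ⟪uh p x, fW p W x⟫ ^ 2 < 1) :
    ∀ᶠ y in 𝓝 x, fW p W y = fW p W x := by
  have hg := (hA.good1 hp).good hp
  have hi := integrable_hW J hE (ne_top_of_le_ne_top ENNReal.ofReal_ne_top h)
  obtain ⟨h1, h2⟩ := hA.calib J hE hp hi hb hpb
  have i0 : 0 ≤ ∫ x, wg ‖x‖ * db (J + 1) p b x := by
    refine integral_nonneg_of_ae ((ae_Om (by omega) p).mono fun x hx => ?_)
    simp only [Pi.zero_apply, ← (dens_const J hE hp hb hpb hx).1]
    exact mul_nonneg (wg_nonneg _) (dens_nonneg _ _ _ _)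
  rw [← lintegral_hW J hE, ← ofReal_integral_eq_lintegral_ofReal hi
    (Eventually.of_forall (hW_nonneg _ W)), ENNReal.ofReal_le_ofReal_iff i0] at h
  have h3 := (ae_Om (by omega) p).mono fun x hx => hA.sum_nonneg J hE hp hx
  have h4 := (integral_eq_zero_iff_of_nonneg_ae h3 (hi.add h1)).1 (le_antisymm
    (by rw [integral_add hi h1, h2]; linarith) (integral_nonneg_of_ae h3))
  let O : Set E := {y | y ∈ Om p ∧ ⟪uh p y, fW p W y⟫ ^ 2 < 1 ∧ 1 < ‖y‖ ∧ ‖y‖ < 3}
  have hO : IsOpen O := by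
    rw [isOpen_iff_mem_nhds]
    rintro y ⟨y1, y2, y3, y4⟩
    have c1 : ContinuousAt (fun y => ⟪uh p y, fW p W y⟫ ^ 2) y :=
      ((Om.contDiffAt_uh (n := 0) y1).continuousAt.inner (hg y y1).1.continuousAt).pow 2
    filter_upwards [(isOpen_Om p).mem_nhds y1, c1.eventually (gt_mem_nhds y2),
      continuous_norm.continuousAt.eventually (lt_mem_nhds y3),
      continuous_norm.continuousAt.eventually (gt_mem_nhds y4)] with z z1 z2 z3 z4
      using ⟨z1, z2, z3, z4⟩
  have h5 : Set.EqOn (fderiv ℝ (fW p W)) 0 O := by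
    refine Measure.eqOn_open_of_ae_eq (μ := volume) ?_ hO
      (fun y hy => ((hg y hy.1).1.continuousAt_fderiv two_ne_zero).continuousWithinAt)
      continuousOn_const
    filter_upwards [ae_restrict_of_ae h4, ae_restrict_mem hO.measurableSet] with y y0 hy
    obtain ⟨y1, y2, y3, y4⟩ := hy
    refine (hg.pd hp y1).rigid J hE y2 ?_
    rw [Pi.zero_apply, hA.hW_eq J hE hp y1, ← mul_add, mul_eq_zero] at y0
    have y5 := y0.resolve_left (wg_pos y3 y4).ne'
    change dens (J + 1) p (fW p W) y ≤ |Lf (J + 1) p (fW p W) y|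
    linarith [neg_le_abs (Lf (J + 1) p (fW p W) y)]
  have h0 := Om.norm_pos hp hx
  have ht : 0 < 2 / ‖x‖ := by positivity
  have hpr : pr p ((2 / ‖x‖) • x) = (2 / ‖x‖) • pr p x := (prL p).map_smul _ _
  have hn : ‖(2 / ‖x‖) • x‖ = 2 := by
    rw [norm_smul, Real.norm_eq_abs, abs_of_pos ht]; field_simp
  have hxO : (2 / ‖x‖) • x ∈ O := by
    refine ⟨?_, ?_, by rw [hn]; norm_num, by rw [hn]; norm_num⟩
    · change pr p _ ≠ 0
      rw [hpr]; exact smul_ne_zero ht.ne' hx
    · have : uh p ((2 / ‖x‖) • x) = uh p x := by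
        change -nz (pr p _) = -nz (pr p x)
        rw [hpr, nz_smul ht]
      rwa [this, fW_smul ht]
  obtain ⟨ε, hε, hball⟩ := Metric.isOpen_iff.1 hO _ hxO
  have h6 : ∀ y ∈ ball ((2 / ‖x‖) • x) ε, fW p W y = fW p W ((2 / ‖x‖) • x) := fun y hy =>
    isOpen_ball.is_const_of_fderiv_eq_zero (𝕜 := ℝ) (convex_ball _ _).isPreconnected
      (fun z hz => ((hg z (hball hz).1).1.differentiableAt two_ne_zero).differentiableWithinAt)
      (h5.mono hball) hy (mem_ball_self hε)
  have c2 : ContinuousAt (fun y : E => (2 / ‖x‖) • y) x := by fun_prop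
  filter_upwards [c2.eventually (ball_mem_nhds _ hε)] with y hy
  rw [← fW_smul ht y, h6 _ hy, fW_smul ht]

theorem Adm.rigid (hA : Adm p W) {b : E} (hb : ‖b‖ = 1) (hpb : ⟪p, b⟫ = 0)
    (h : volE W * kk (2 * (J + 1) + 3) ≤ ENNReal.ofReal (∫ x, wg ‖x‖ * db (J + 1) p b x)) :
    ∃ v : E, ‖v‖ = 1 ∧ ⟪p, v⟫ = 0 ∧ ∀ x ∈ Om1 p, fW p W x = v := by
  have hg1 := hA.good1 hp
  have hg := hg1.good hp
  obtain ⟨c0, c1, c2⟩ := hg1 _ (neg_mem_Om1 hp)
  obtain ⟨x0, hx0, hτ0⟩ : ∃ x0 ∈ Om p, ⟪uh p x0, fW p W x0⟫ ^ 2 < 1 := by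
    have hv : Orthonormal ℝ ![p, fW p W (-p)] := by
      rw [orthonormal_vecCons_iff, orthonormal_vecCons_iff]
      simp [hp, c1, c2]
    obtain ⟨B, hB⟩ := exists_onb (k := 2 * (J + 1) + 1) (m := 2) hE _ hv
    have B0 : B 0 = p := hB 0
    have B1 : B (Fin.succ 0) = fW p W (-p) := hB 1
    set e := B (Fin.succ (Fin.succ 0)) with he
    have e1 : ‖e‖ = 1 := B.orthonormal.1 _
    have e2 : ⟪p, e⟫ = 0 := by
      rw [← B0]; exact B.orthonormal.inner_eq_zero (Fin.succ_ne_zero _).symm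
    have e3 : ⟪e, fW p W (-p)⟫ = 0 := by
      rw [← B1]
      exact B.orthonormal.inner_eq_zero fun h => Fin.succ_ne_zero _ (Fin.succ_injective _ h)
    have d1 : ContinuousAt (fun t : ℝ => ⟪e, fW p W (-p + t • e)⟫ ^ 2) 0 := by
      have d0 : ContinuousAt (fun t : ℝ => -p + t • e) 0 := by fun_prop
      have d3 : ContinuousAt (fW p W) ((fun t : ℝ => -p + t • e) 0) := by
        simpa using c0.continuousAt
      exact (continuousAt_const.inner (ContinuousAt.comp (f := fun t : ℝ => -p + t • e) d3 d0)).pow 2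
    have d2 := (d1.eventually (gt_mem_nhds (show _ < (1 : ℝ) by simp [e3]))).filter_mono
      (nhdsWithin_le_nhds (s := Set.Ioi 0))
    obtain ⟨t, t1, t2⟩ := (d2.and self_mem_nhdsWithin).exists
    have t3 : pr p (-p + t • e) = t • e := by
      simp [pr, inner_add_right, inner_smul_right, e2, hp]
    refine ⟨-p + t • e, ?_, ?_⟩
    · change pr p _ ≠ 0
      rw [t3]; exact smul_ne_zero (ne_of_gt t2) (norm_pos_iff.1 (by rw [e1]; norm_num))
    · have : uh p (-p + t • e) = -e := by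
        change -nz (pr p _) = -e
        rw [t3, nz_smul t2, nz, e1, inv_one, one_smul]
      rwa [this, inner_neg_left, neg_sq]
  obtain ⟨-, v1, v2⟩ := hg x0 hx0
  set v := fW p W x0 with hv
  let S : Submodule ℝ E := Submodule.span ℝ {p, v}
  have hS : Module.finrank ℝ S ≤ 2 := by
    classical
    exact (finrank_span_le_card _).trans (by simpa using Finset.card_le_two)
  have hq := S.finrank_quotient_add_finrank
  have hconn : IsPreconnected ((S : Set E)ᶜ) := by
    refine (isConnected_compl_of_one_lt_codim ?_).isPreconnected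
    rw [← Module.finrank_eq_rank]
    exact_mod_cast (by omega : 1 < Module.finrank ℝ (E ⧸ S))
  have pS : p ∈ S := Submodule.subset_span (by simp)
  have vS : v ∈ S := Submodule.subset_span (by simp)
  have hSO : ∀ x ∉ S, x ∈ Om p := fun x hx h0 => hx (by
    rw [sub_eq_zero.1 h0]; exact S.smul_mem _ pS)
  have hSt : ∀ x ∈ Om p, (x ∉ S ↔ ⟪uh p x, v⟫ ^ 2 < 1) := by
    intro x hx
    have n1 := Om.norm_uh hx
    have n2 : ‖uh p x - ⟪uh p x, v⟫ • v‖ ^ 2 = 1 - ⟪uh p x, v⟫ ^ 2 := by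
      rw [norm_sub_sq_real, n1, inner_smul_right, norm_smul, v1, mul_one, Real.norm_eq_abs, sq_abs]
      ring
    have n3 := norm_ne_zero_iff.2 hx
    constructor
    · intro h1
      by_contra h2
      have h3 : uh p x - ⟪uh p x, v⟫ • v = 0 :=
        norm_eq_zero.1 (pow_eq_zero_iff two_ne_zero |>.1 (le_antisymm (by linarith) (sq_nonneg _)))
      apply h1
      rw [Om.polar hp hx, sub_eq_zero.1 h3]
      exact S.smul_mem _ (S.sub_mem (S.smul_mem _ pS) (S.smul_mem _ (S.smul_mem _ vS)))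
    · intro h1 h2
      obtain ⟨α, β, h3⟩ := Submodule.mem_span_pair.1 h2
      have h4 : pr p x = β • v := by
        rw [← h3]; simp [pr, inner_add_right, inner_smul_right, v2, hp]
      have h5 : β ≠ 0 := by
        rintro rfl; exact hx (by rw [h4, zero_smul])
      rw [uh, h4, inner_neg_left, real_inner_smul_left, real_inner_smul_left,
        real_inner_self_eq_norm_sq, norm_smul, v1, neg_sq, mul_pow, inv_pow, mul_one,
        Real.norm_eq_abs, sq_abs] at h1
      simp [h5] at h1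
  have hall : ∀ x ∉ S, fW p W x = v := by
    have ho : IsOpen {x | x ∉ S ∧ fW p W x = v} := by
      rw [isOpen_iff_mem_nhds]
      rintro x ⟨x1, x2⟩
      have h1 := hA.flat J hE hp hb hpb h (hSO x x1) (by rw [x2]; exact (hSt x (hSO x x1)).1 x1)
      filter_upwards [h1, S.closed_of_finiteDimensional.isOpen_compl.mem_nhds x1] with y y1 y2
        using ⟨y2, y1.trans x2⟩
    have := hconn.subset_of_closure_inter_subset ho
      ⟨x0, (hSt x0 hx0).2 hτ0, (hSt x0 hx0).2 hτ0, rfl⟩ (by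
        rintro x ⟨x1, x2⟩
        refine ⟨x2, ?_⟩
        have h1 := (hg x (hSO x x2)).1.continuousAt
        exact tendsto_nhds_unique_of_frequently_eq h1 tendsto_const_nhds
          ((mem_closure_iff_frequently.1 x1).mono fun y hy => hy.2))
    exact fun x hx => (this hx).2
  refine ⟨v, v1, v2, Measure.eqOn_open_of_ae_eq (μ := volume) (ae_restrict_of_ae ?_) (isOpen_Om1 p)
    (fun y hy => (hg1 y hy).1.continuousAt.continuousWithinAt) continuousOn_const⟩
  have hne : S ≠ ⊤ := fun h0 => by rw [h0, finrank_top] at hS; omega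
  filter_upwards [compl_mem_ae_iff.2 (Measure.addHaar_submodule volume S hne)] with x hx
    using hall x hx

theorem main {V : E → E} (hV : Adm p V) :
    (∀ W, Adm p W → volE V ≤ volE W) ↔ ∃ v : E, ‖v‖ = 1 ∧ ⟪v, p⟫ = 0 ∧
      ∀ x ∈ sphere (0 : E) 1 \ {p}, V x = PW p v x := by
  obtain ⟨k0, k1⟩ := kk_ne J hE hp
  constructor
  · intro h
    obtain ⟨-, c1, c2⟩ := hV.good1 hp _ (neg_mem_Om1 hp)
    have c3 : ⟪fW p V (-p), p⟫ = 0 := by rw [real_inner_comm, c2]
    have hP := adm_PW hp c1 c3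
    have h1 := hP.model J hE hp c1 c2 fun x hx => fW_eq_of_PW hp c3 (fun _ _ => rfl) hx
    obtain ⟨v, v1, v2, v3⟩ := hV.rigid J hE hp c1 c2 (by rw [← h1]; gcongr; exact h _ hP)
    exact ⟨v, v1, by rw [real_inner_comm, v2], fun x hx => eq_PW_of_fW hV hp v3 hx⟩
  · rintro ⟨v, v1, v2, v3⟩ W hW
    have v4 : ⟪p, v⟫ = 0 := by rw [real_inner_comm, v2]
    have h1 := hV.model J hE hp v1 v4 fun x hx => fW_eq_of_PW hp v2 v3 hx
    have h2 := hW.lower J hE hp v1 v4
    rw [← h1] at h2
    exact (ENNReal.mul_le_mul_iff_left k0 k1).1 h2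

end Pool.Agent.Lib.MP_13d336_gt
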