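import Pool.Agent.Lib.MP_13d336_gt.Calib

set_option autoImplicit false
set_option linter.unusedSimpArgs false
set_option linter.unusedSectionVars false
set_option linter.unusedVariables false
set_option linter.deprecated false

namespace Pool.Agent.Lib.MP_13d336_gt

open Finset Matrix MvPolynomial

/-- interpolation nodes -/
noncomputable def nd (J : ℕ) (l : Fin (2 * J + 2)) : ℝ := (l : ℕ)

noncomputable def gam (J : ℕ) : Matrix (Fin (2 * J + 2)) (Fin (2 * J + 2)) ℝ :=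
  (vandermonde (nd J))⁻¹

noncomputable def gP (J : ℕ) (q : ℕ → PP) (l : Fin (2 * J + 2)) : PP :=
  ∑ i : Fin (2 * J + 2), C (gam J i l) * q i

theorem node_sum (J : ℕ) (q : ℕ → PP) {j : ℕ} (hj : j < 2 * J + 2) :
    ∑ l, C (nd J l ^ j) * gP J q l = q j := by
  have hdet : (vandermonde (nd J)).det ≠ 0 := by
    rw [det_vandermonde_ne_zero_iff]
    intro i j h
    exact Fin.ext (by unfold nd at h; exact_mod_cast h)
  have h1 := Matrix.nonsing_inv_mul _ (isUnit_iff_ne_zero.2 hdet)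
  have h2 : ∀ i : Fin (2 * J + 2), ∑ l, nd J l ^ j * gam J i l = if i = ⟨j, hj⟩ then 1 else 0 := by
    intro i
    have := congrFun (congrFun h1 i) ⟨j, hj⟩
    rw [mul_apply, one_apply] at this
    rw [← this]
    exact sum_congr rfl fun l _ => by rw [mul_comm]; rfl
  simp only [gP, mul_sum]
  rw [sum_comm]
  simp only [← mul_assoc, ← map_mul, ← sum_mul, ← map_sum, h2]
  rw [sum_eq_single ⟨j, hj⟩]
  · simp
  · intro b _ hb; simp [hb]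
  · simp

theorem node_ev (J : ℕ) (q : ℕ → PP) {j : ℕ} (hj : j < 2 * J + 2) (a t : ℝ) :
    ∑ l, nd J l ^ j * ev0 a t (gP J q l) = ev0 a t (q j) := by
  rw [← node_sum J q hj, map_sum]
  simp only [map_mul, ev0_C]

theorem node_evd (J : ℕ) (q : ℕ → PP) {j : ℕ} (hj : j < 2 * J + 2) (a t : ℝ) (i : Fin 4) :
    ∑ l, nd J l ^ j * ev0 a t (pderiv i (gP J q l)) = ev0 a t (pderiv i (q j)) := by
  rw [← node_sum J q hj, map_sum, map_sum]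
  simp only [pderiv_C_mul, map_mul, ev0_C]

section
variable {k : ℕ}

/-- rows of the derivative of `t û + f + ℓ p` -/
def rowC (l υ ψ : Fin (k + 3) → ℝ) (U F : Fin k → Fin (k + 3) → ℝ) (t τ σ : ℝ) :
    Fin (k + 3) → Fin (k + 3) → ℝ :=
  stk l ((-(t * σ)) • υ) ((t * τ) • υ + ψ) fun i => t • U i + F i

/-- rows of the derivative of `g û + g' f` -/
def rowW (a υ ψ : Fin (k + 3) → ℝ) (U F : Fin k → Fin (k + 3) → ℝ)
    (τ σ ga ga' gt gt' g g' : ℝ) : Fin (k + 3) → Fin (k + 3) → ℝ :=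
  stk 0 ((τ * ga + ga') • a + ((τ * gt + gt') * σ) • ψ + (-((τ * gt + gt' + g) * σ)) • υ)
    ((σ * ga) • a + (σ ^ 2 * gt + g') • ψ + (g * τ - σ ^ 2 * gt) • υ)
    fun i => g • U i + g' • F i

theorem conv_cal (l ar υ ψ : Fin (k + 3) → ℝ) (U F : Fin k → Fin (k + 3) → ℝ)
    (h1 h2 h3 : ℕ → ℝ) {a σ : ℝ} (ha : a ≠ 0) (hσ : σ ≠ 0) :
    ∑ c : Fin k → Bool, (h2 (cnt c) * D3 l ar υ (sel U F c) + h1 (cnt c) * D3 l ar ψ (sel U F c)
      - h3 (cnt c) * D3 l υ ψ (sel U F c))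
    = cal l ((2 / σ) • ar) ((2 * a * σ) • υ) (ψ + (-(2 * σ ^ 2)) • υ) (fun j => σ * h1 j / 2)
      (fun j => (h2 j + 2 * σ ^ 2 * h1 j) / (4 * a)) (fun j => -h3 j / (2 * a * σ)) U F := by
  refine sum_congr rfl fun c _ => ?_
  simp only [D3_add2, D3_smul1, D3_smul2, D3_self12]
  field_simp; ring
end

variable (J : ℕ)

noncomputable def LM (a τ σt : ℝ) (l ar υ ψ : Fin (2 * J + 3) → ℝ)
    (U F : Fin (2 * J) → Fin (2 * J + 3) → ℝ) : ℝ :=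
  ∑ n, TT (rowC l υ ψ U F (nd J n) τ σt) (rowW ar υ ψ U F τ σt
    (ev0 a τ (pderiv 0 (gP J (mP J) n))) (ev0 a τ (pderiv 0 (gP J (nP J) n)))
    (ev0 a τ (pderiv 1 (gP J (mP J) n))) (ev0 a τ (pderiv 1 (gP J (nP J) n)))
    (ev0 a τ (gP J (mP J) n)) (ev0 a τ (gP J (nP J) n)))

noncomputable def BM (a τ σt : ℝ) (l ar υ ψ : Fin (2 * J + 3) → ℝ)
    (U F : Fin (2 * J) → Fin (2 * J + 3) → ℝ) : ℝ :=
  ∑ n, TT (rowC l υ ψ U F (nd J n) τ σt) (rowW ar υ ψ U F τ σt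
    (ev0 a τ (gP J (mP J) n)) (ev0 a τ (gP J (nP J) n)) 0 0 0 0)

theorem LM_eq (a τ σt : ℝ) (h : τ ^ 2 + σt ^ 2 = 1) (l ar υ ψ : Fin (2 * J + 3) → ℝ)
    (U F : Fin (2 * J) → Fin (2 * J + 3) → ℝ) :
    LM J a τ σt l ar υ ψ U F = ∑ c : Fin (2 * J) → Bool,
      (bb (2 * J) (qH2 J) a τ (cnt c) * D3 l ar υ (sel U F c)
      + bb (2 * J) (qH1 J) a τ (cnt c) * D3 l ar ψ (sel U F c)
      - σt * bb (2 * J) (qH3 J) a τ (cnt c) * D3 l υ ψ (sel U F c)) := by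
  simp only [LM, rowC, rowW, node _ _ _ _ _ _ _ _ _ _ _ _ _ _ _ h]
  rw [sum_comm]
  refine sum_congr rfl fun c _ => ?_
  have hc := cnt_le c
  set j := cnt c
  rw [← der1 J j hc, ← der2 J j hc, ← der3 J j hc,
    ← node_ev J (mP J) (j := j) (by omega), ← node_ev J (nP J) (j := j + 1) (by omega),
    ← node_evd J (mP J) (j := j) (by omega), ← node_evd J (mP J) (j := j) (by omega),
    ← node_evd J (mP J) (j := j + 1) (by omega), ← node_evd J (mP J) (j := j + 1) (by omega),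
    ← node_evd J (nP J) (j := j) (by omega), ← node_evd J (nP J) (j := j) (by omega),
    ← node_evd J (nP J) (j := j + 1) (by omega), ← node_evd J (nP J) (j := j + 1) (by omega)]
  simp only [mul_sum, sum_mul, ← sum_add_distrib, ← sum_sub_distrib]
  exact sum_congr rfl fun n _ => by ring

theorem BM_eq (a τ σt : ℝ) (h : τ ^ 2 + σt ^ 2 = 1) (l ar υ ψ : Fin (2 * J + 3) → ℝ)
    (U F : Fin (2 * J) → Fin (2 * J + 3) → ℝ) :
    BM J a τ σt l ar υ ψ U F = ∑ c : Fin (2 * J) → Bool,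
      (bb (2 * J) (anti (qH2 J)) a τ (cnt c) * D3 l ar υ (sel U F c)
      + bb (2 * J) (anti (qH1 J)) a τ (cnt c) * D3 l ar ψ (sel U F c)
      - 0 * D3 l υ ψ (sel U F c)) := by
  simp only [BM, rowC, rowW, node _ _ _ _ _ _ _ _ _ _ _ _ _ _ _ h]
  rw [sum_comm]
  refine sum_congr rfl fun c _ => ?_
  have hc := cnt_le c
  set j := cnt c
  rw [← val1 J j hc, ← val2 J j hc,
    ← node_ev J (mP J) (j := j) (by omega), ← node_ev J (nP J) (j := j + 1) (by omega),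
    ← node_ev J (mP J) (j := j + 1) (by omega), ← node_ev J (nP J) (j := j) (by omega)]
  simp only [mul_sum, sum_mul, ← sum_add_distrib, zero_mul, sub_zero]
  exact sum_congr rfl fun n _ => by ring

theorem dg_bb {k : ℕ} {p : PP} (hp : Hom k p) (a t y1 y2 : ℝ) :
    dg k (bb k p a t) y1 y2 = ev a t y1 y2 p := (taylor k hp a t y1 y2).symm

theorem dg_lin (k : ℕ) (x y : ℝ) (q q' : ℕ → ℝ) (y1 y2 : ℝ) :
    dg k (fun j => x * q j + y * q' j) y1 y2 = x * dg k q y1 y2 + y * dg k q' y1 y2 := by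
  simp only [dg, mul_sum, ← sum_add_distrib]
  exact sum_congr rfl fun c _ => by ring

/-- the Gram matrix, shrunk by `η` -/
noncomputable def GG {k : ℕ} (a σ τ η : ℝ) (l ar υ ψ : Fin (k + 3) → ℝ)
    (U F : Fin k → Fin (k + 3) → ℝ) : Matrix (Fin (k + 3)) (Fin (k + 3)) ℝ :=
  Gm l ((2 / σ) • ar) ((2 * a * σ) • υ) (ψ + (-(2 * σ ^ 2)) • υ) (-(2 * σ * √(rs a τ)))
    (σ * τ / √(rs a τ)) (√(1 - η) * a / √(rs a τ)) U F

theorem pair_metric {a σ τ η : ℝ} (ha : 0 < a) (ha1 : a < 1) (hσ : σ ^ 2 = 1 - a ^ 2)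
    (hη : η ≤ 1) (y1 y2 : ℝ) :
    (-(2 * σ * √(rs a τ)) * y1 + σ * τ / √(rs a τ) * y2) ^ 2 + (√(1 - η) * a / √(rs a τ) * y2) ^ 2
      = rR a τ y1 y2 - η * (a * y2) ^ 2 / rs a τ := by
  have hs := rs_pos (t := τ) ha ha1
  have h1 := Real.sq_sqrt hs.le
  have h2 := Real.sqrt_pos.2 hs
  have h3 := Real.sq_sqrt (sub_nonneg.2 hη)
  set ρ := √(rs a τ)
  set κ := √(1 - η)
  have h4 : ρ ^ 2 = a ^ 2 + σ ^ 2 * τ ^ 2 := by rw [h1, hσ]; rfl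
  rw [← h1, rR, ← hσ]
  field_simp
  linear_combination (4 * σ ^ 2 * y1 ^ 2 * ρ ^ 2 - y2 ^ 2) * h4 + a ^ 2 * y2 ^ 2 * h3

theorem LM_cal {a σ τ σt : ℝ} (ha : 0 < a) (hσ0 : 0 < σ) (h : τ ^ 2 + σt ^ 2 = 1)
    (l ar υ ψ : Fin (2 * J + 3) → ℝ) (U F : Fin (2 * J) → Fin (2 * J + 3) → ℝ) :
    LM J a τ σt l ar υ ψ U F = cal l ((2 / σ) • ar) ((2 * a * σ) • υ) (ψ + (-(2 * σ ^ 2)) • υ)
      (fun j => σ / 2 * bb (2 * J) (qH1 J) a τ j + 0 * bb (2 * J) (qH1 J) a τ j)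
      (fun j => 1 / (4 * a) * bb (2 * J) (qH2 J) a τ j + σ ^ 2 / (2 * a) * bb (2 * J) (qH1 J) a τ j)
      (fun j => -σt / (2 * a * σ) * bb (2 * J) (qH3 J) a τ j + 0 * bb (2 * J) (qH1 J) a τ j)
      U F := by
  rw [LM_eq J a τ σt h, conv_cal l ar υ ψ U F (bb (2 * J) (qH1 J) a τ) (bb (2 * J) (qH2 J) a τ)
    (fun j => σt * bb (2 * J) (qH3 J) a τ j) ha.ne' hσ0.ne']
  congr 1 <;> funext j <;> field_simp <;> ring

theorem dg_L (J : ℕ) {a σ τ σt : ℝ} (ha : 0 < a) (hσ0 : 0 < σ) (hσ : σ ^ 2 = 1 - a ^ 2)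
    (y1 y2 : ℝ) :
    dg (2 * (J + 1)) (fun j => σ / 2 * bb (2 * (J + 1)) (qH1 (J + 1)) a τ j
        + 0 * bb (2 * (J + 1)) (qH1 (J + 1)) a τ j) y1 y2
      = σ * ev a τ y1 y2 (pE (pX (J + 1)) (pK (J + 1)) (pT (J + 1))) ∧
    dg (2 * (J + 1)) (fun j => 1 / (4 * a) * bb (2 * (J + 1)) (qH2 (J + 1)) a τ j
        + σ ^ 2 / (2 * a) * bb (2 * (J + 1)) (qH1 (J + 1)) a τ j) y1 y2
      = -ev a τ y1 y2 (pQv (pK (J + 1)) (pT (J + 1))) ∧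
    dg (2 * (J + 1)) (fun j => -σt / (2 * a * σ) * bb (2 * (J + 1)) (qH3 (J + 1)) a τ j
        + 0 * bb (2 * (J + 1)) (qH1 (J + 1)) a τ j) y1 y2
      = -(σt * σ * (τ * ev a τ y1 y2 (pX (J + 1))
        - ev a τ y1 y2 (pZ (pK (J + 1)) (pT (J + 1))))) := by
  simp only [dg_lin, dg_bb (hom_H1 J), dg_bb (hom_H2 J), dg_bb (hom_H3 J)]
  simp only [qH1, qH2, qH3, pH1, pH2, pH3, map_mul, map_add, map_sub, map_neg, map_ofNat, ev_a,
    ev_t, ev_S, ← hσ]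
  refine ⟨by ring, ?_, ?_⟩ <;> field_simp <;> ring

theorem LM_le (J : ℕ) {a σ τ σt η : ℝ} (ha : 0 < a) (ha1 : a < 1) (hσ0 : 0 < σ)
    (hσ : σ ^ 2 = 1 - a ^ 2) (h : τ ^ 2 + σt ^ 2 = 1) (h0 : 0 ≤ η) (hη : η < 1)
    (h1 : η ≤ (1 - rs a τ) * rs a τ ^ 2 / (4 * (J + 1)))
    (l ar υ ψ : Fin (2 * (J + 1) + 3) → ℝ) (U F : Fin (2 * (J + 1)) → Fin (2 * (J + 1) + 3) → ℝ) :
    LM (J + 1) a τ σt l ar υ ψ U F ^ 2 ≤ (GG a σ τ η l ar υ ψ U F).det := by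
  have hs := Real.sqrt_pos.2 (rs_pos (t := τ) ha ha1)
  have hκ := Real.sqrt_pos.2 (sub_pos.2 hη)
  rw [LM_cal (J + 1) ha hσ0 h]
  refine cal_le1 (neg_ne_zero.2 (by positivity)) (by positivity) _ _ _ ?_ _ _ _ _ _ _
  intro y1 y2 hy
  rw [pair_metric ha ha1 hσ hη.le] at hy
  obtain ⟨e1, e2, e3⟩ := dg_L J (τ := τ) (σt := σt) ha hσ0 hσ y1 y2
  have := rN_le J ha ha1 (t := τ) (by nlinarith [sq_nonneg σt]) y1 y2 h0 h1
  rw [hy, one_pow, rN, ← hσ, show 1 - τ ^ 2 = σt ^ 2 by linarith] at this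
  rw [e1, e2, e3]
  linarith

theorem BM_le (J : ℕ) {a σ τ σt : ℝ} (ha : 0 < a) (ha1 : a ≤ 1 / 2) (hσ0 : 0 < σ)
    (hσ : σ ^ 2 = 1 - a ^ 2) (h : τ ^ 2 + σt ^ 2 = 1)
    (l ar υ ψ : Fin (2 * (J + 1) + 3) → ℝ) (U F : Fin (2 * (J + 1)) → Fin (2 * (J + 1) + 3) → ℝ) :
    BM (J + 1) a τ σt l ar υ ψ U F ^ 2
      ≤ (3 * 2 ^ (J + 1) * a) ^ 2 * (GG a σ τ 0 l ar υ ψ U F).det := by
  have hs := Real.sqrt_pos.2 (rs_pos (t := τ) ha (by linarith))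
  have hκ := Real.sqrt_pos.2 (sub_pos.2 (zero_lt_one' ℝ))
  rw [BM_eq (J + 1) a τ σt h, conv_cal l ar υ ψ U F (bb _ (anti (qH1 (J + 1))) a τ)
    (bb _ (anti (qH2 (J + 1))) a τ) (fun j => 0) ha.ne' hσ0.ne']
  refine cal_le (neg_ne_zero.2 (by positivity)) (by positivity) (by positivity) _ _ _ ?_ _ _ _ _ _ _
  intro y1 y2 hy
  rw [pair_metric ha (by linarith) hσ zero_le_one, zero_mul, zero_div, sub_zero] at hy
  have := anti_bound J ha ha1 (t := τ) (by nlinarith [sq_nonneg σt]) y1 y2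
  rw [hy, one_pow, mul_one, ← hσ] at this
  have e1 := dg_lin (2 * (J + 1)) (σ / 2) 0 (bb (2 * (J + 1)) (anti (qH1 (J + 1))) a τ)
    (bb (2 * (J + 1)) (anti (qH1 (J + 1))) a τ) y1 y2
  have e2 := dg_lin (2 * (J + 1)) (1 / (4 * a)) (σ ^ 2 / (2 * a))
    (bb (2 * (J + 1)) (anti (qH2 (J + 1))) a τ) (bb (2 * (J + 1)) (anti (qH1 (J + 1))) a τ) y1 y2
  simp only [dg_bb (hom_anti (hom_H1 J)), dg_bb (hom_anti (hom_H2 J))] at e1 e2
  have e3 : dg (2 * (J + 1)) (fun j => -0 / (2 * a * σ)) y1 y2 = 0 := by simp [dg]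
  rw [e3]
  convert this using 1
  rw [show (fun j => σ * bb (2 * (J + 1)) (anti (qH1 (J + 1))) a τ j / 2)
      = fun j => σ / 2 * bb (2 * (J + 1)) (anti (qH1 (J + 1))) a τ j
        + 0 * bb (2 * (J + 1)) (anti (qH1 (J + 1))) a τ j from funext fun j => by ring, e1,
    show (fun j => (bb (2 * (J + 1)) (anti (qH2 (J + 1))) a τ j
        + 2 * σ ^ 2 * bb (2 * (J + 1)) (anti (qH1 (J + 1))) a τ j) / (4 * a))
      = fun j => 1 / (4 * a) * bb (2 * (J + 1)) (anti (qH2 (J + 1))) a τ j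
        + σ ^ 2 / (2 * a) * bb (2 * (J + 1)) (anti (qH1 (J + 1))) a τ j from
      funext fun j => by field_simp; ring, e2]
  field_simp; ring

theorem LM_F0 (J : ℕ) {a σ τ σt : ℝ} (ha : 0 < a) (hσ0 : 0 < σ)
    (hσ : σ ^ 2 = 1 - a ^ 2) (h : τ ^ 2 + σt ^ 2 = 1)
    (l ar υ ψ : Fin (2 * (J + 1) + 3) → ℝ) (U : Fin (2 * (J + 1)) → Fin (2 * (J + 1) + 3) → ℝ) :
    LM (J + 1) a τ σt l ar υ ψ U 0 = (4 * σ ^ 2 * rs a τ) ^ (J + 1) * D3 l ((2 / σ) • ar)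
      (σ • (ψ + (-(2 * σ ^ 2)) • υ) + (-a) • ((2 * a * σ) • υ)) U := by
  obtain ⟨e1, e2, e3⟩ := dg_L J (τ := τ) (σt := σt) ha hσ0 hσ 1 0
  obtain ⟨f1, f2, f3⟩ := ev_leaf J a τ
  rw [LM_cal (J + 1) ha hσ0 h, cal_F0, e1, e2, e3, f1, f2, f3, ← hσ, D3_add2 _ _ (σ • _),
    D3_smul2 _ _ _ _ σ, D3_smul2 _ _ _ _ (-a)]
  ring

theorem GG_F0 (J : ℕ) {a σ τ : ℝ} (ha : 0 < a) (ha1 : a < 1) (hσ : σ ^ 2 = 1 - a ^ 2)
    (l ar υ ψ : Fin (2 * (J + 1) + 3) → ℝ) (U : Fin (2 * (J + 1)) → Fin (2 * (J + 1) + 3) → ℝ) :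
    ∃ H : Matrix _ _ ℝ, H.PosSemidef ∧ GG a σ τ 0 l ar υ ψ U 0 = H + oo (a • ψ) ∧
      H.det = ((4 * σ ^ 2 * rs a τ) ^ (J + 1) * D3 l ((2 / σ) • ar)
        (σ • (ψ + (-(2 * σ ^ 2)) • υ) + (-a) • ((2 * a * σ) • υ)) U) ^ 2 := by
  have hs := Real.sq_sqrt (rs_pos (t := τ) ha ha1).le
  refine ⟨oo l + oo ((2 / σ) • ar) + oo (σ • (ψ + (-(2 * σ ^ 2)) • υ) + (-a) • ((2 * a * σ) • υ))
    + ∑ i, oo ((-(2 * σ * √(rs a τ))) • U i),
    (((oo_psd _).add (oo_psd _)).add (oo_psd _)).add (posSemidef_sum _ fun i _ => oo_psd _), ?_, ?_⟩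
  · have h1 := oo_rot σ (-a) (by linarith) (ψ + (-(2 * σ ^ 2)) • υ) ((2 * a * σ) • υ)
    have h2 : (- -a) • (ψ + (-(2 * σ ^ 2)) • υ) + σ • (2 * a * σ) • υ = a • ψ := by module
    rw [h2] at h1
    simp only [GG, Gm, Pi.zero_apply, smul_zero, add_zero, oo_zero]
    rw [eq_sub_of_add_eq' h1]; abel
  · rw [← D3_sq, MultilinearMap.map_smul_univ, prod_const, card_univ, Fintype.card_fin, pow_mul,
      smul_eq_mul, neg_sq, mul_pow (2 * σ), hs]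
    ring

theorem LM_rigid (J : ℕ) {a σ τ σt : ℝ} (ha : 0 < a) (ha1 : a < 1) (hσ0 : 0 < σ)
    (hσ : σ ^ 2 = 1 - a ^ 2) (h : τ ^ 2 + σt ^ 2 = 1) (hτ : τ ^ 2 < 1)
    (l ar υ ψ : Fin (2 * (J + 1) + 3) → ℝ) (U F : Fin (2 * (J + 1)) → Fin (2 * (J + 1) + 3) → ℝ)
    (hpos : 0 < (GG a σ τ 0 l ar υ ψ U F).det)
    (heq : (GG a σ τ 0 l ar υ ψ U F).det ≤ LM (J + 1) a τ σt l ar υ ψ U F ^ 2) :
    F = 0 ∧ ψ = 0 := by
  have hs0 := rs_pos (t := τ) ha ha1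
  have hs1 : rs a τ < 1 := by
    have : 0 < 1 - a ^ 2 := by nlinarith
    unfold rs; nlinarith
  have hF : F = 0 := by
    set η := (1 - rs a τ) * rs a τ ^ 2 / (4 * (J + 1)) with hη
    have hη0 : 0 < η := by have := sub_pos.2 hs1; positivity
    have hη1 : η < 1 := by
      rw [hη, div_lt_one (by positivity)]
      have : (0 : ℝ) ≤ J := Nat.cast_nonneg J
      have h3 : (1 - rs a τ) * rs a τ ^ 2 ≤ 1 * 1 :=
        mul_le_mul (by linarith) (pow_le_one₀ hs0.le hs1.le) (sq_nonneg _) zero_le_one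
      linarith
    have h1 := heq.trans (LM_le J ha ha1 hσ0 hσ h hη0.le hη1 le_rfl l ar υ ψ U F)
    have e : GG a σ τ 0 l ar υ ψ U F = GG a σ τ η l ar υ ψ U F
        + ∑ i, oo ((√η * a / √(rs a τ)) • F i) := by
      simp only [GG, Gm, add_assoc, ← sum_add_distrib, oo_smul, ← add_smul]
      congr 4
      refine sum_congr rfl fun i _ => ?_
      congr 2
      simp only [div_pow, mul_pow, Real.sq_sqrt hη0.le, Real.sq_sqrt (sub_nonneg.2 hη1.le),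
        sub_zero, Real.sqrt_one]
      ring
    have hpd : (GG a σ τ η l ar υ ψ U F).PosDef :=
      (Gm_psd ..).posDef_iff_det_ne_zero.2 (hpos.trans_le h1).ne'
    rw [e] at h1
    funext i
    have h2 := eq_zero_of_det_le hpd univ _ h1 (mem_univ i)
    have h3 : √η * a / √(rs a τ) ≠ 0 := by
      have := Real.sqrt_pos.2 hη0
      have := Real.sqrt_pos.2 hs0
      positivity
    exact (smul_eq_zero.1 h2).resolve_left h3
  refine ⟨hF, ?_⟩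
  subst hF
  obtain ⟨H, hH, e, hd⟩ := GG_F0 J (τ := τ) ha ha1 hσ l ar υ ψ U
  rw [LM_F0 J ha hσ0 hσ h, ← hd] at heq
  have hpd : H.PosDef := hH.posDef_iff_det_ne_zero.2 (hpos.trans_le heq).ne'
  rw [e] at heq
  have h2 := eq_zero_of_det_le hpd (univ : Finset Unit) (fun _ => a • ψ) (by simpa using heq)
    (mem_univ ())
  exact (smul_eq_zero.1 h2).resolve_left ha.ne'

end Pool.Agent.Lib.MP_13d336_gt
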