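import Pool.Agent.Lib.MP_13d336_gt.Field

set_option autoImplicit false
set_option linter.unusedSimpArgs false
set_option linter.unusedSectionVars false
set_option linter.unusedVariables false
set_option linter.deprecated false

namespace Pool.Agent.Lib.MP_13d336_gt

open Finset Filter Topology MeasureTheory Metric
open scoped RealInnerProductSpace ENNReal

variable {E : Type*} [NormedAddCommGroup E] [InnerProductSpace ℝ E] [FiniteDimensional ℝ E]
  [CompleteSpace E] [MeasurableSpace E] [BorelSpace E] {p : E}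

theorem exists_major {k : ℕ} (hE : Module.finrank ℝ E = k + 3) (hp : ‖p‖ = 1) :
    ∃ g : E → ℝ, Integrable g volume ∧ (∀ x, 0 ≤ g x) ∧
      ∀ x ∈ Om p, ‖x‖ ≤ 3 → ‖pr p x‖⁻¹ ^ (k + 1) ≤ g x := by
  have hv : Orthonormal ℝ ![p] := by
    rw [orthonormal_vecCons_iff]; simp [hp]
  obtain ⟨b, hb⟩ := exists_onb (k := k + 2) (m := 1) hE _ hv
  have b0 : b 0 = p := hb 0
  have h1 := ((volume_preserving_piFinSuccAbove (fun _ : Fin (k + 2 + 1) => ℝ) 0).comp
    (PiLp.volume_preserving_ofLp (Fin (k + 2 + 1)))).comp b.measurePreserving_repr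
  have i1 : Integrable ((Set.Icc (-3 : ℝ) 3).indicator fun _ => (1 : ℝ)) volume :=
    (integrable_indicator_iff measurableSet_Icc).2 (integrableOn_const (by simp))
  have i2 : Integrable ((ball (0 : Fin (k + 2) → ℝ) 4).indicator fun z => ‖z‖⁻¹ ^ (k + 1))
      volume := by
    rw [integrable_indicator_iff measurableSet_ball]
    refine integrableOn_ball_of_norm_le_rpow (C := 1) (α := ((k + 1 : ℕ) : ℝ)) (by simp) (by simp)
      (Eventually.of_forall fun z => ?_) (by fun_prop)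
    rw [Real.rpow_neg (norm_nonneg z), Real.rpow_natCast, one_mul, Real.norm_eq_abs,
      abs_of_nonneg (by positivity), inv_pow]
  refine ⟨_, h1.integrable_comp_of_integrable (i1.mul_prod i2), fun x => ?_, fun x hx h3 => ?_⟩
  · exact mul_nonneg (Set.indicator_nonneg (fun _ _ => zero_le_one) _)
      (Set.indicator_nonneg (fun _ _ => by positivity) _)
  · change _ ≤ (Set.Icc (-3 : ℝ) 3).indicator (fun _ => (1 : ℝ)) (b.repr x 0)
      * (ball (0 : Fin (k + 2) → ℝ) 4).indicator (fun z => ‖z‖⁻¹ ^ (k + 1))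
        (fun j => b.repr x (Fin.succAbove 0 j))
    simp only [OrthonormalBasis.repr_apply_apply, Fin.succAbove_zero, b0]
    set z : Fin (k + 2) → ℝ := fun j => ⟪b j.succ, x⟫ with hz
    have h4 : ‖z‖ ≤ ‖pr p x‖ := by
      refine (pi_norm_le_iff_of_nonneg (norm_nonneg _)).2 fun j => ?_
      have : ⟪b j.succ, x⟫ = ⟪b j.succ, pr p x⟫ := by
        rw [pr, inner_sub_right, inner_smul_right, ← b0,
          b.orthonormal.inner_eq_zero (Fin.succ_ne_zero j)]; ring
      simp only [hz, this]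
      simpa [b.orthonormal.1] using norm_inner_le_norm (𝕜 := ℝ) (b j.succ) (pr p x)
    have h5 : z ≠ 0 := by
      intro h
      have h6 := b.sum_sq_inner_right x
      rw [Fin.sum_univ_succ, b0] at h6
      have h7 : ∑ j : Fin (k + 2), ⟪b j.succ, x⟫ ^ 2 = 0 :=
        sum_eq_zero fun j _ => by rw [show ⟪b j.succ, x⟫ = 0 from congrFun h j]; ring
      have h8 := pr_sq hp x
      exact hx (norm_eq_zero.1 (pow_eq_zero_iff two_ne_zero |>.1 (by linarith)))
    have h6 := abs_lt.1 (Om.abs_lt hp hx)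
    rw [Set.indicator_of_mem (Set.mem_Icc.2 ⟨by linarith, by linarith⟩), one_mul,
      Set.indicator_of_mem (by rw [mem_ball_zero_iff]; linarith [norm_pr_le hp x])]
    have := norm_pos_iff.2 h5
    gcongr

/-- explicit density of a parallel field -/
noncomputable def db (J : ℕ) (p b x : E) : ℝ :=
  rs (aa p x) ⟪uh p x, b⟫ ^ J / aa p x ^ (2 * J + 1) / ‖x‖ ^ (2 * J + 3)

variable (J : ℕ) (hE : Module.finrank ℝ E = 2 * (J + 1) + 3) (hp : ‖p‖ = 1)
include hE hp

theorem dens_const {b : E} (hb : ‖b‖ = 1) (hpb : ⟪p, b⟫ = 0) {x : E} (hx : x ∈ Om p) :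
    dens (J + 1) p (fun _ => b) x = db (J + 1) p b x ∧
      Lf (J + 1) p (fun _ => b) x = -db (J + 1) p b x := by
  obtain ⟨h1, h2⟩ := ((good_const hb hpb).pd hp hx).leaf J hE (fderiv_const_apply b)
  have : dens (J + 1) p (fun _ => b) x = db (J + 1) p b x := by rw [dens, Yf, h2, db]
  exact ⟨this, h1.trans (congrArg Neg.neg this)⟩

theorem integrable_db {b : E} (hb : ‖b‖ = 1) {ψ : ℝ → ℝ} (hψ : Continuous ψ)
    (hψ0 : ∀ t, ψ t ≠ 0 → 1 ≤ t ∧ t ≤ 3) (hψ1 : ∀ t, |ψ t| ≤ 1) :
    Integrable (fun x => ψ ‖x‖ * db (J + 1) p b x) volume := by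
  obtain ⟨g, hg, g0, h⟩ := exists_major hE hp
  refine (hg.const_mul (6 ^ (2 * (J + 1) + 1))).mono' ?_ ?_
  · rw [← Measure.restrict_eq_self_of_ae_mem (ae_Om (by omega) p)]
    refine ContinuousOn.aestronglyMeasurable (fun x hx => ContinuousAt.continuousWithinAt ?_)
      (isOpen_Om p).measurableSet
    have h1 := (Om.contDiffAt_aa (n := 0) hp hx).continuousAt
    have h2 := (Om.contDiffAt_uh (n := 0) hx).continuousAt
    have h3 := (Om.aa_pos hp hx).ne'
    have h4 := (Om.norm_pos hp hx).ne'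
    unfold db rs
    fun_prop (disch := positivity)
  · filter_upwards [ae_Om (by omega) p] with x hx
    by_cases h0 : ψ ‖x‖ = 0
    · rw [h0, zero_mul, norm_zero]; have := g0 x; positivity
    obtain ⟨r1, r3⟩ := hψ0 _ h0
    have a0 := Om.aa_pos hp hx
    have a1 := Om.aa_lt hp hx
    have s0 := Om.sg_pos hp hx
    have s1 : sg p x ≤ 1 := by nlinarith [sg_sq hp x]
    have h1 : |⟪uh p x, b⟫| ≤ 1 := by
      simpa [hb, Om.norm_uh hx] using abs_real_inner_le_norm (uh p x) b
    have h2 := rs_pos (t := ⟪uh p x, b⟫) a0 a1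
    have h3 := rs_le (t := ⟪uh p x, b⟫) a0 a1 (by rw [← sq_abs]; exact pow_le_one₀ (abs_nonneg _) h1)
    have h4 : (aa p x)⁻¹ ≤ 6 * ‖pr p x‖⁻¹ := by
      rw [← div_eq_mul_inv, le_div_iff₀ (norm_pos_iff.2 hx), inv_mul_le_iff₀ a0,
        norm_pr hp (norm_pos_iff.1 (by linarith))]
      calc ‖x‖ * (2 * aa p x * sg p x) ≤ 3 * (2 * aa p x * 1) := by gcongr
        _ = _ := by ring
    rw [Real.norm_eq_abs, abs_mul, db, abs_of_nonneg (a := _ / _ / _) (by positivity)]
    calc _ ≤ 1 * (1 / aa p x ^ (2 * (J + 1) + 1) / 1) := by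
          gcongr
          · exact hψ1 _
          · exact pow_le_one₀ h2.le h3
          · exact one_le_pow₀ r1
      _ = (aa p x)⁻¹ ^ (2 * (J + 1) + 1) := by rw [one_mul, div_one, one_div, inv_pow]
      _ ≤ (6 * ‖pr p x‖⁻¹) ^ (2 * (J + 1) + 1) := by gcongr
      _ ≤ _ := by rw [mul_pow]; gcongr; exact h x hx r3

omit hE in
theorem integral_db_eq {b b' : E} (hb : ‖b‖ = 1) (hpb : ⟪p, b⟫ = 0) (hb' : ‖b'‖ = 1)
    (hpb' : ⟪p, b'⟫ = 0) (ψ : ℝ → ℝ) :
    ∫ x, ψ ‖x‖ * db J p b x = ∫ x, ψ ‖x‖ * db J p b' x := by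
  let R : E ≃ₗᵢ[ℝ] E := Submodule.reflection (ℝ ∙ (b - b'))ᗮ
  have h1 : R b = b' := Submodule.reflection_sub (hb.trans hb'.symm)
  have h2 : R p = p := Submodule.reflection_mem_subspace_eq_self (by
    rw [Submodule.mem_orthogonal_singleton_iff_inner_left, inner_sub_right, hpb, hpb', sub_zero])
  rw [← R.measurePreserving.integral_comp R.toHomeomorph.measurableEmbedding
    fun x => ψ ‖x‖ * db J p b' x]
  refine integral_congr_ae (Eventually.of_forall fun x => ?_)
  have h3 : ⟪p, R x⟫ = ⟪p, x⟫ := by rw [← R.inner_map_map p x, h2]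
  have h4 : aa p (R x) = aa p x := by rw [aa, aa, cs, cs, h3, R.norm_map]
  have h5 : pr p (R x) = R (pr p x) := by rw [pr, pr, h3, map_sub, map_smul, h2]
  have h6 : uh p (R x) = R (uh p x) := by rw [uh, uh, h5, R.norm_map, map_neg, map_smul]
  simp only [db, h4, h6, ← h1, R.inner_map_map, R.norm_map]

omit hp in
theorem transfer {h : E → ℝ≥0∞} (hh : Measurable h) {g : ℝ → ℝ≥0∞} (hg : Measurable g) :
    ∫⁻ x, h (nz x) * g ‖x‖ = (∫⁻ y : sphere (0 : E) 1, h y ∂(volume : Measure E).toSphere)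
      * ∫⁻ r : Set.Ioi (0 : ℝ), g r ∂Measure.volumeIoiPow (Module.finrank ℝ E - 1) := by
  have : Nontrivial E := Module.nontrivial_of_finrank_pos (R := ℝ) (by omega)
  rw [← lintegral_prod_mul (f := fun y : sphere (0 : E) 1 => h y)
    (g := fun r : Set.Ioi (0 : ℝ) => g r) (hh.comp measurable_subtype_coe).aemeasurable
    (hg.comp measurable_subtype_coe).aemeasurable,
    ← (volume : Measure E).measurePreserving_homeomorphUnitSphereProd.lintegral_comp_emb
      (Homeomorph.measurableEmbedding _), ← restrict_compl_singleton (μ := volume) (0 : E),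
    ← lintegral_subtype_comap (measurableSet_singleton _).compl]
  simp [nz]

end Pool.Agent.Lib.MP_13d336_gt
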