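import Pool.Agent.Lib.MP_13d336_gt.Point

set_option autoImplicit false
set_option linter.unusedSimpArgs false
set_option linter.unusedSectionVars false
set_option linter.unusedVariables false
set_option linter.deprecated false

namespace Pool.Agent.Lib.MP_13d336_gt

open Finset MeasureTheory Function
open scoped RealInnerProductSpace

theorem dM_update_sum {N : ℕ} (A : Fin N → Fin N → ℝ) (j : Fin N) (r : Fin N → ℝ) :
    dM N (update A j r) = ∑ i, r i * dM N (update A j (Pi.single i 1)) := by
  conv_lhs => rw [pi_eq_sum_univ' r]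
  rw [MultilinearMap.map_update_sum]
  simp only [MultilinearMap.map_update_smul, smul_eq_mul]

theorem piola_alg {N : ℕ} (A : Fin N → Fin N → ℝ) {j l : Fin N} (hl : l ≠ j)
    (H : Fin N → Fin N → ℝ) (hH : ∀ i q, H i q = H q i) :
    ∑ i, dM N (update (update A j (Pi.single i 1)) l (H i)) = 0 := by
  have h1 : ∀ i q : Fin N, dM N (update (update A j (Pi.single i 1)) l (Pi.single q 1))
      = -dM N (update (update A j (Pi.single q 1)) l (Pi.single i 1)) := by
    intro i q
    have := (Matrix.detRowAlternating (n := Fin N) (R := ℝ)).map_swap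
      (update (update A j (Pi.single q 1)) l (Pi.single i 1)) hl
    rw [show update (update A j (Pi.single q 1)) l (Pi.single i 1) ∘ Equiv.swap l j
      = (update (update A j (Pi.single i 1)) l (Pi.single q 1)) from ?_] at this
    · exact this
    · funext x
      simp only [comp_apply]
      by_cases h1 : x = l
      · subst h1; simp [update_of_ne hl.symm]
      · by_cases h2 : x = j
        · subst h2; simp [update_of_ne h1]
        · simp [Equiv.swap_apply_of_ne_of_ne h1 h2, update_of_ne h1, update_of_ne h2]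
  have h2 : ∑ i, dM N (update (update A j (Pi.single i 1)) l (H i))
      = ∑ i, ∑ q, H i q * dM N (update (update A j (Pi.single i 1)) l (Pi.single q 1)) :=
    sum_congr rfl fun i _ => dM_update_sum _ _ _
  have h3 : ∑ i, ∑ q, H i q * dM N (update (update A j (Pi.single i 1)) l (Pi.single q 1))
      = -∑ i, ∑ q, H i q * dM N (update (update A j (Pi.single i 1)) l (Pi.single q 1)) := by
    conv_lhs => rw [sum_comm]
    simp only [← sum_neg_distrib]
    exact sum_congr rfl fun i _ => sum_congr rfl fun q _ => by rw [h1, hH]; ring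
  linarith

noncomputable def updL {N : ℕ} (j : Fin N) : (Fin N → Fin N → ℝ) →L[ℝ] (Fin N → Fin N → ℝ) :=
  LinearMap.toContinuousLinearMap
    { toFun := fun M => update M j 0
      map_add' := fun M M' => by
        funext l; by_cases h : l = j
        · subst h; simp
        · simp [update_of_ne h]
      map_smul' := fun t M => by
        funext l; by_cases h : l = j
        · subst h; simp
        · simp [update_of_ne h] }

theorem updL_add {N : ℕ} (j : Fin N) (M : Fin N → Fin N → ℝ) (r : Fin N → ℝ) :
    update M j r = updL j M + Pi.single j r := by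
  funext l; by_cases h : l = j
  · subst h; simp [updL]
  · simp [updL, update_of_ne h, Pi.single_eq_of_ne h]

variable {E : Type*} [NormedAddCommGroup E] [InnerProductSpace ℝ E] [FiniteDimensional ℝ E]
  [CompleteSpace E]

noncomputable def matL {N : ℕ} (b : OrthonormalBasis (Fin N) ℝ E) :
    (E →L[ℝ] E) →L[ℝ] (Fin N → Fin N → ℝ) :=
  LinearMap.toContinuousLinearMap
    { toFun := mat b
      map_add' := mat_add b
      map_smul' := mat_smul b }

/-- cofactors of the Jacobian matrix -/
noncomputable def cof {N : ℕ} (b : OrthonormalBasis (Fin N) ℝ E) (c : E → E) (i j : Fin N)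
    (x : E) : ℝ := dM N (update (mat b (fderiv ℝ c x)) j (Pi.single i 1))

theorem cof_eq {N : ℕ} (b : OrthonormalBasis (Fin N) ℝ E) (c : E → E) (i j : Fin N) :
    cof b c i j = dC N ∘ fun x => updL j (matL b (fderiv ℝ c x)) + Pi.single j (Pi.single i 1) := by
  funext x
  rw [cof, updL_add]; rfl

theorem contDiffAt_cof {N : ℕ} (b : OrthonormalBasis (Fin N) ℝ E) {c : E → E} {x : E}
    (hc : ContDiffAt ℝ 2 c x) (i j : Fin N) : ContDiffAt ℝ 1 (cof b c i j) x := by
  rw [cof_eq]
  have h1 : ContDiffAt ℝ 1 (fderiv ℝ c) x := hc.fderiv_right (by norm_num)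
  exact (dC N).contDiff.contDiffAt.comp x
    (((updL j).contDiff.contDiffAt.comp x ((matL b).contDiff.contDiffAt.comp x h1)).add
      contDiffAt_const)

theorem piola {N : ℕ} (b : OrthonormalBasis (Fin N) ℝ E) {c : E → E} {x : E}
    (hc : ContDiffAt ℝ 2 c x) (j : Fin N) : ∑ i, fderiv ℝ (cof b c i j) x (b i) = 0 := by
  have h1 : ContDiffAt ℝ 1 (fderiv ℝ c) x := hc.fderiv_right (by norm_num)
  have h2 := (h1.differentiableAt one_ne_zero).hasFDerivAt
  have hs : IsSymmSndFDerivAt ℝ c x := hc.isSymmSndFDerivAt (by simp)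
  have h3 : ∀ i, fderiv ℝ (cof b c i j) x (b i) = TT (update (mat b (fderiv ℝ c x)) j
      (Pi.single i 1)) (update (mat b (fderiv ℝ (fderiv ℝ c) x (b i))) j 0) := by
    intro i
    have h4 := (((updL j).hasFDerivAt.comp x ((matL b).hasFDerivAt.comp x h2)).add_const
      (Pi.single j (Pi.single i 1)))
    have h5 := ((dC N).hasFDerivAt _).comp x h4
    rw [cof_eq]
    refine (congrFun (congrArg DFunLike.coe h5.fderiv) (b i)).trans ?_
    rw [ContinuousLinearMap.comp_apply, linearDeriv_dC, updL_add]
    rfl
  simp only [h3, TT]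
  rw [sum_comm]
  refine sum_eq_zero fun l _ => ?_
  by_cases hl : l = j
  · subst hl
    simp
  · simp only [update_of_ne hl]
    exact piola_alg _ hl (fun i => mat b (fderiv ℝ (fderiv ℝ c) x (b i)) l)
      fun i q => by simp only [mat]; rw [hs]

variable [MeasurableSpace E] [BorelSpace E]

theorem integrable_of_cpt {F : E → ℝ} {K : Set E} (hK : IsCompact K)
    (hF : ∀ x ∈ K, ContinuousAt F x) (h0 : ∀ x ∉ K, F x = 0) : Integrable F volume := by
  rw [← integrableOn_iff_integrable_of_support_subset (s := K)
    (fun x hx => by by_contra h; exact hx (h0 x h))]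
  exact ContinuousOn.integrableOn_compact hK fun x hx => (hF x hx).continuousWithinAt

theorem null_lagr {c φ : E → E} (hφ : ContDiff ℝ 1 φ) (hK : HasCompactSupport φ)
    (hc : ∀ x ∈ tsupport φ, ContDiffAt ℝ 2 c x) :
    Integrable (fun x => TE (fderiv ℝ c x) (fderiv ℝ φ x)) volume ∧
      ∫ x, TE (fderiv ℝ c x) (fderiv ℝ φ x) = 0 := by
  let b := stdOrthonormalBasis ℝ E
  let g : Fin (Module.finrank ℝ E) → E → ℝ := fun j x => ⟪b j, φ x⟫
  have hg : ∀ j, ContDiff ℝ 1 (g j) := fun j => contDiff_const.inner ℝ hφ
  have hgd : ∀ j x v, fderiv ℝ (g j) x v = ⟪b j, fderiv ℝ φ x v⟫ := by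
    intro j x v
    have := (innerSL ℝ (b j)).hasFDerivAt.comp x
      (hφ.differentiable one_ne_zero x).hasFDerivAt
    exact congrFun (congrArg DFunLike.coe this.fderiv) v
  have hsub : ∀ j, tsupport (g j) ⊆ tsupport φ := fun j =>
    closure_mono fun x hx h => hx (by simp [g, h])
  have e : ∀ x, TE (fderiv ℝ c x) (fderiv ℝ φ x)
      = ∑ j, ∑ i, cof b c i j x * fderiv ℝ (g j) x (b i) := by
    intro x
    rw [TE_eq b, TT]
    refine sum_congr rfl fun j _ => ?_
    rw [dM_update_sum]
    exact sum_congr rfl fun i _ => by rw [hgd, mul_comm]; rfl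
  have g0 : ∀ j, ∀ x ∉ tsupport φ, g j x = 0 := fun j x hx =>
    image_eq_zero_of_notMem_tsupport fun h => hx (hsub j h)
  have i1 : ∀ i j, Integrable (fun x => cof b c i j x * fderiv ℝ (g j) x (b i)) volume := by
    intro i j
    refine integrable_of_cpt hK (fun x hx => (contDiffAt_cof b (hc x hx) i j).continuousAt.mul
      (((hg j).continuous_fderiv one_ne_zero).clm_apply continuous_const).continuousAt) ?_
    intro x hx
    rw [fderiv_of_notMem_tsupport ℝ fun h => hx (hsub j h)]; simp
  have i2 : ∀ i j, Integrable (fun x => fderiv ℝ (cof b c i j) x (b i) * g j x) volume := by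
    intro i j
    refine integrable_of_cpt hK (fun x hx => ContinuousAt.mul ?_ (hg j).continuous.continuousAt) ?_
    · exact ((contDiffAt_cof b (hc x hx) i j).continuousAt_fderiv one_ne_zero).clm_apply
        continuousAt_const
    · intro x hx; rw [g0 j x hx, mul_zero]
  have i3 : ∀ i j, Integrable (fun x => cof b c i j x * g j x) volume := by
    intro i j
    refine integrable_of_cpt hK (fun x hx => (contDiffAt_cof b (hc x hx) i j).continuousAt.mul
      (hg j).continuous.continuousAt) ?_
    intro x hx; rw [g0 j x hx, mul_zero]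
  simp only [e]
  refine ⟨integrable_finset_sum _ fun j _ => integrable_finset_sum _ fun i _ => i1 i j, ?_⟩
  rw [integral_finset_sum _ fun j _ => integrable_finset_sum _ fun i _ => i1 i j]
  refine sum_eq_zero fun j _ => ?_
  rw [integral_finset_sum _ fun i _ => i1 i j]
  have h4 : ∀ i, ∫ x, cof b c i j x * fderiv ℝ (g j) x (b i)
      = -∫ x, fderiv ℝ (cof b c i j) x (b i) * g j x := fun i =>
    integral_mul_fderiv_eq_neg_fderiv_mul_of_integrable (i2 i j) (i1 i j) (i3 i j)
      (fun x hx => (contDiffAt_cof b (hc x (hsub j hx)) i j).differentiableAt one_ne_zero)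
      (fun x _ => (hg j).differentiable one_ne_zero x)
  simp only [h4]
  rw [sum_neg_distrib, ← integral_finset_sum _ fun i _ => i2 i j, neg_eq_zero]
  refine integral_eq_zero_of_ae (Filter.Eventually.of_forall fun x => ?_)
  by_cases hx : x ∈ tsupport φ
  · simp only [← sum_mul, piola b (hc x hx) j, zero_mul, Pi.zero_apply]
  · simp [g0 j x hx]

end Pool.Agent.Lib.MP_13d336_gt
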