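import Pool.Agent.Lib.MP_13d336_gt.Mat

set_option autoImplicit false
set_option linter.unusedSimpArgs false
set_option linter.unusedSectionVars false
set_option linter.unusedVariables false
set_option linter.deprecated false

namespace Pool.Agent.Lib.MP_13d336_gt

open Finset Matrix MvPolynomial
open scoped RealInnerProductSpace

section
variable {k : ℕ}

noncomputable def rowI (r a σ τ σt : ℝ) (l ar υ : Fin (k + 3) → ℝ) (U : Fin k → Fin (k + 3) → ℝ) :
    Fin (k + 3) → Fin (k + 3) → ℝ :=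
  stk (r • ((1 - 2 * a ^ 2) • l + (-(2 * a * σ)) • ((2 / σ) • ar)))
    (r • (τ • ((-(2 * a * σ)) • l + (-(1 - 2 * a ^ 2)) • ((2 / σ) • ar)) + σt • ((2 * a * σ) • υ)))
    (r • (σt • ((-(2 * a * σ)) • l + (-(1 - 2 * a ^ 2)) • ((2 / σ) • ar))
      + (-τ) • ((2 * a * σ) • υ)))
    fun i => (-(2 * a * σ * r)) • U i

noncomputable def rowY (σ τ : ℝ) (υ ψ : Fin (k + 3) → ℝ) (U F : Fin k → Fin (k + 3) → ℝ) :
    Fin (k + 3) → Fin (k + 3) → ℝ :=
  stk 0 0 (ψ + (-(2 * σ ^ 2)) • υ) fun i => F i + (-(2 * σ ^ 2 * τ)) • U i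

theorem GG_eq {r a σ τ σt : ℝ} (ha : 0 < a) (ha1 : a < 1) (hσ : σ ^ 2 = 1 - a ^ 2)
    (h : τ ^ 2 + σt ^ 2 = 1) (l ar υ ψ : Fin (k + 3) → ℝ) (U F : Fin k → Fin (k + 3) → ℝ) :
    ∑ j, oo (rowI r a σ τ σt l ar υ U j) + r ^ 2 • ∑ j, oo (rowY σ τ υ ψ U F j)
      = r ^ 2 • GG a σ τ 0 l ar υ ψ U F := by
  have hs := rs_pos (t := τ) ha ha1
  have h1 := Real.sq_sqrt hs.le
  have h2 := Real.sqrt_pos.2 hs
  have e : ∀ i, oo ((-(2 * a * σ * r)) • U i) + r ^ 2 • oo (F i + (-(2 * σ ^ 2 * τ)) • U i)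
      = r ^ 2 • (oo ((-(2 * σ * √(rs a τ))) • U i + (σ * τ / √(rs a τ)) • F i)
        + oo ((√(1 - 0) * a / √(rs a τ)) • F i)) := by
    intro i
    ext x y
    simp only [oo, Matrix.add_apply, Matrix.smul_apply, vecMulVec_apply, Pi.add_apply,
      Pi.smul_apply, smul_eq_mul, sub_zero, Real.sqrt_one]
    set ρ := √(rs a τ)
    have h4 : ρ ^ 2 = a ^ 2 + σ ^ 2 * τ ^ 2 := by rw [h1, hσ]; rfl
    field_simp
    linear_combination (r ^ 2 * F i x * F i y - 4 * r ^ 2 * σ ^ 2 * ρ ^ 2 * U i x * U i y) * h4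
  simp only [GG, Gm, rowI, rowY, stk, Fin.sum_univ_succ, Fin.cons_zero, Fin.cons_succ, smul_add,
    smul_sum, oo_zero, smul_zero, zero_add]
  simp only [← smul_add, ← e, sum_add_distrib]
  set ϱ := (2 / σ) • ar
  set w := (2 * a * σ) • υ
  have e2 : oo (r • ((1 - 2 * a ^ 2) • l + (-(2 * a * σ)) • ϱ))
      + oo (r • (τ • ((-(2 * a * σ)) • l + (-(1 - 2 * a ^ 2)) • ϱ) + σt • w))
      + oo (r • (σt • ((-(2 * a * σ)) • l + (-(1 - 2 * a ^ 2)) • ϱ) + (-τ) • w))
      = r ^ 2 • (oo l + oo ϱ + oo w) := by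
    ext x y
    simp only [oo, Matrix.add_apply, Matrix.smul_apply, vecMulVec_apply, Pi.add_apply,
      Pi.smul_apply, smul_eq_mul]
    linear_combination r ^ 2 * ((2 * a * σ * l x + (1 - 2 * a ^ 2) * ϱ x)
      * (2 * a * σ * l y + (1 - 2 * a ^ 2) * ϱ y) + w x * w y) * h
      + r ^ 2 * 4 * a ^ 2 * (l x * l y + ϱ x * ϱ y) * hσ
  rw [eq_sub_of_add_eq (eq_sub_of_add_eq e2)]
  simp only [smul_add]
  abel

theorem dM_rowI (J : ℕ) {r a σ τ σt : ℝ} (hσ : σ ^ 2 = 1 - a ^ 2) (h : τ ^ 2 + σt ^ 2 = 1)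
    (l ar υ : Fin (2 * J + 3) → ℝ) (U : Fin (2 * J) → Fin (2 * J + 3) → ℝ) :
    dM _ (rowI r a σ τ σt l ar υ U)
      = r ^ (2 * J + 3) * (2 * a * σ) ^ (2 * J) * D3 l ((2 / σ) • ar) ((2 * a * σ) • υ) U := by
  rw [rowI, ← D3_apply, MultilinearMap.map_smul_univ, prod_const, card_univ, Fintype.card_fin,
    pow_mul, neg_sq, ← pow_mul]
  generalize (2 / σ) • ar = ϱ
  generalize (2 * a * σ) • υ = w
  simp only [D3_add0, D3_add1, D3_add2, D3_smul0, D3_smul1, D3_smul2, D3_self01, D3_self02,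
    D3_self12, D3_swap01 w l ϱ, D3_swap12 l ϱ w, D3_swap12 ϱ l w, smul_eq_mul]
  linear_combination (2 * a * σ * r) ^ (2 * J) * r ^ 3 * D3 l ϱ w U
    * (((1 - 2 * a ^ 2) ^ 2 + 4 * a ^ 2 * σ ^ 2) * h + 4 * a ^ 2 * hσ)
end

/-- the determinant as a continuous multilinear map -/
noncomputable def dC (N : ℕ) : ContinuousMultilinearMap ℝ (fun _ : Fin N => Fin N → ℝ) ℝ :=
  ⟨dM N, Continuous.matrix_det (A := fun A : Fin N → Fin N → ℝ => Matrix.of A) continuous_id⟩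

theorem hasFDerivAt_dM {N : ℕ} (A : Fin N → Fin N → ℝ) :
    HasFDerivAt (dM N) ((dC N).linearDeriv A) A := (dC N).hasFDerivAt A

theorem linearDeriv_dC {N : ℕ} (A B : Fin N → Fin N → ℝ) : (dC N).linearDeriv A B = TT A B :=
  ContinuousMultilinearMap.linearDeriv_apply _ _ _

variable {E : Type*} [NormedAddCommGroup E] [InnerProductSpace ℝ E] [FiniteDimensional ℝ E]
  [CompleteSpace E]

/-- matrix in an orthonormal frame -/
noncomputable def mat {N : ℕ} (b : OrthonormalBasis (Fin N) ℝ E) (A : E →L[ℝ] E) :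
    Fin N → Fin N → ℝ := fun j i => ⟪b j, A (b i)⟫

theorem dM_mat {N : ℕ} (b : OrthonormalBasis (Fin N) ℝ E) (A : E →L[ℝ] E) :
    dM N (mat b A) = A.det := by
  rw [ContinuousLinearMap.det, ← LinearMap.det_toMatrix b.toBasis, dM_apply]
  congr 1
  ext j i
  simp [mat, LinearMap.toMatrix_apply, OrthonormalBasis.repr_apply_apply]

theorem mat_add {N : ℕ} (b : OrthonormalBasis (Fin N) ℝ E) (A B : E →L[ℝ] E) :
    mat b (A + B) = mat b A + mat b B := by
  funext j i; simp [mat, inner_add_right]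

theorem mat_smul {N : ℕ} (b : OrthonormalBasis (Fin N) ℝ E) (t : ℝ) (A : E →L[ℝ] E) :
    mat b (t • A) = t • mat b A := by
  funext j i; simp [mat, inner_smul_right]

/-- derivative of the determinant -/
noncomputable def TE (A B : E →L[ℝ] E) : ℝ := deriv (fun ε : ℝ => (A + ε • B).det) 0

theorem TE_eq {N : ℕ} (b : OrthonormalBasis (Fin N) ℝ E) (A B : E →L[ℝ] E) :
    TE A B = TT (mat b A) (mat b B) := by
  have h1 : HasDerivAt (fun ε : ℝ => mat b A + ε • mat b B) (mat b B) 0 := by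
    simpa using ((hasDerivAt_id (0 : ℝ)).smul_const (mat b B)).const_add (mat b A)
  have h2 := (hasFDerivAt_dM (mat b A + (0 : ℝ) • mat b B)).comp_hasDerivAt (0 : ℝ) h1
  rw [zero_smul, add_zero, linearDeriv_dC] at h2
  rw [TE, ← h2.deriv]
  congr 1
  funext ε
  rw [← dM_mat b, mat_add, mat_smul]; rfl

/-- the volume density of a graph -/
noncomputable def gd (D : E →L[ℝ] E) : ℝ :=
  √(ContinuousLinearMap.id ℝ E + (ContinuousLinearMap.adjoint D).comp D).det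

theorem gram_mat {N : ℕ} (b : OrthonormalBasis (Fin N) ℝ E) (D : E →L[ℝ] E) :
    ∑ j, oo (mat b D j) = Matrix.of (mat b ((ContinuousLinearMap.adjoint D).comp D)) := by
  ext i j
  simp only [oo, Matrix.sum_apply, vecMulVec_apply, mat, of_apply, ContinuousLinearMap.comp_apply,
    ContinuousLinearMap.adjoint_inner_right]
  rw [← b.sum_inner_mul_inner]
  exact sum_congr rfl fun l _ => by rw [real_inner_comm]

theorem gram_id {N : ℕ} (b : OrthonormalBasis (Fin N) ℝ E) :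
    ∑ j, oo (mat b (ContinuousLinearMap.id ℝ E) j) = 1 := by
  rw [gram_mat]
  ext i j
  simp [mat, b.inner_eq_ite, one_apply]

theorem det_gd {N : ℕ} (b : OrthonormalBasis (Fin N) ℝ E) (D : E →L[ℝ] E) :
    (ContinuousLinearMap.id ℝ E + (ContinuousLinearMap.adjoint D).comp D).det
      = (1 + ∑ j, oo (mat b D j)).det := by
  rw [← dM_mat b, gram_mat, dM_apply, mat_add]
  congr 1
  ext i j
  simp [mat, b.inner_eq_ite, one_apply]

theorem gd_sq {N : ℕ} (b : OrthonormalBasis (Fin N) ℝ E) (D : E →L[ℝ] E) :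
    gd D ^ 2 = (1 + ∑ j, oo (mat b D j)).det := by
  rw [gd, det_gd b, Real.sq_sqrt]
  exact (pd_sum PosDef.one _ _).det_pos.le

theorem gd_pos (D : E →L[ℝ] E) : 0 < gd D := by
  rw [gd, det_gd (stdOrthonormalBasis ℝ E), Real.sqrt_pos]
  exact (pd_sum PosDef.one _ _).det_pos

theorem gd_congr {D D' : E →L[ℝ] E} (h : ∀ z w, ⟪D z, D w⟫ = ⟪D' z, D' w⟫) : gd D = gd D' := by
  have : (ContinuousLinearMap.adjoint D).comp D = (ContinuousLinearMap.adjoint D').comp D' := by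
    ext w
    apply ext_inner_left ℝ
    intro z
    simp only [ContinuousLinearMap.comp_apply, ContinuousLinearMap.adjoint_inner_right, h]
  rw [gd, gd, this]

theorem continuous_gd : Continuous (gd : (E →L[ℝ] E) → ℝ) := by
  unfold gd
  refine Real.continuous_sqrt.comp (ContinuousLinearMap.continuous_det.comp ?_)
  exact continuous_const.add
    ((ContinuousLinearMap.adjoint (𝕜 := ℝ) (E := E) (F := E)).continuous.clm_comp continuous_id)

theorem exists_onb {k m : ℕ} (hE : Module.finrank ℝ E = k + m) (v : Fin m → E)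
    (hv : Orthonormal ℝ v) : ∃ b : OrthonormalBasis (Fin (k + m)) ℝ E,
      ∀ i : Fin m, b (Fin.castLE (Nat.le_add_left m k) i) = v i := by
  let v' : Fin (k + m) → E := fun i => if h : i.val < m then v ⟨i, h⟩ else 0
  let s : Set (Fin (k + m)) := {i | i.val < m}
  have h1 : s.restrict v' = v ∘ fun i : s => ⟨i.1.val, i.2⟩ := by
    funext i
    exact dif_pos i.2
  have h2 : Orthonormal ℝ (s.restrict v') := by
    rw [h1]
    exact hv.comp _ fun i j hij => Subtype.ext (Fin.ext (by simpa using hij))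
  obtain ⟨b, hb⟩ := h2.exists_orthonormalBasis_extension_of_card_eq (by simp [hE])
  refine ⟨b, fun i => ?_⟩
  rw [hb _ i.2]
  exact dif_pos i.2

theorem exists_frame {k : ℕ} (hE : Module.finrank ℝ E = k + 3) {p u f : E} (hp : ‖p‖ = 1)
    (hu : ‖u‖ = 1) (hf : ‖f‖ = 1) (pu : ⟪p, u⟫ = 0) (pf : ⟪p, f⟫ = 0) :
    ∃ (b : OrthonormalBasis (Fin (k + 3)) ℝ E) (σt : ℝ), b 0 = p ∧ b (Fin.succ 0) = f ∧
      u = ⟪u, f⟫ • f + σt • b (Fin.succ (Fin.succ 0)) ∧ ⟪u, f⟫ ^ 2 + σt ^ 2 = 1 := by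
  set τ := ⟪u, f⟫ with hτ
  have hn : ‖u - τ • f‖ ^ 2 = 1 - τ ^ 2 := by
    rw [norm_sub_sq_real, hu, inner_smul_right, norm_smul, hf, ← hτ, mul_one, Real.norm_eq_abs,
      sq_abs]
    ring
  by_cases h0 : u - τ • f = 0
  · have hv : Orthonormal ℝ ![p, f] := by
      rw [orthonormal_vecCons_iff, orthonormal_vecCons_iff]
      simp [hp, hf, pf]
    obtain ⟨b, hb⟩ := exists_onb (k := k + 1) (m := 2) hE _ hv
    refine ⟨b, 0, hb 0, hb 1, by rw [zero_smul, add_zero]; exact sub_eq_zero.1 h0, ?_⟩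
    rw [h0] at hn; simp at hn; linarith
  · have hpos := norm_pos_iff.2 h0
    have hv : Orthonormal ℝ ![p, f, ‖u - τ • f‖⁻¹ • (u - τ • f)] := by
      rw [orthonormal_vecCons_iff, orthonormal_vecCons_iff, orthonormal_vecCons_iff]
      have : ⟪f, u⟫ = τ := real_inner_comm _ _
      simp [hp, hf, pf, pu, Fin.forall_fin_two, inner_smul_right, inner_sub_right, this,
        norm_smul, hpos.ne']
    obtain ⟨b, hb⟩ := exists_onb (k := k) (m := 3) hE _ hv
    refine ⟨b, ‖u - τ • f‖, hb 0, hb 1, ?_, by linarith⟩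
    have := hb 2
    change b (Fin.succ (Fin.succ 0)) = ‖u - τ • f‖⁻¹ • (u - τ • f) at this
    rw [this, smul_inv_smul₀ hpos.ne']; abel

end Pool.Agent.Lib.MP_13d336_gt
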