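import Pool.Agent.Lib.MP_13d336_gt.Point

set_option autoImplicit false
set_option linter.unusedSimpArgs false
set_option linter.unusedSectionVars false
set_option linter.unusedVariables false
set_option linter.deprecated false

namespace Pool.Agent.Lib.MP_13d336_gt

open Finset Matrix MvPolynomial
open scoped RealInnerProductSpace

variable {E : Type*} [NormedAddCommGroup E] [InnerProductSpace ℝ E] [FiniteDimensional ℝ E]
  [CompleteSpace E]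

/-- first order data at a point -/
structure PD (p u f : E) (U F : E →L[ℝ] E) (l' a' : E →L[ℝ] ℝ) (r a σ : ℝ) : Prop where
  hp : ‖p‖ = 1
  hu : ‖u‖ = 1
  hf : ‖f‖ = 1
  pu : ⟪p, u⟫ = 0
  pf : ⟪p, f⟫ = 0
  pU : ∀ z, ⟪p, U z⟫ = 0
  uU : ∀ z, ⟪u, U z⟫ = 0
  pF : ∀ z, ⟪p, F z⟫ = 0
  fF : ∀ z, ⟪f, F z⟫ = 0
  r0 : 0 < r
  a0 : 0 < a
  a1 : a < 1
  σ0 : 0 < σ
  hσ : σ ^ 2 = 1 - a ^ 2
  hI : ∀ z, z = r • (l' z • ((1 - 2 * a ^ 2) • p - (2 * a * σ) • u)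
    + a' z • ((-(4 * a)) • p - (2 * (1 - 2 * a ^ 2) / σ) • u) - (2 * a * σ) • U z)

noncomputable def dtau (u f : E) (U F : E →L[ℝ] E) : E →L[ℝ] ℝ :=
  (innerSL ℝ u).comp F + (innerSL ℝ f).comp U

noncomputable def DC (p : E) (U F : E →L[ℝ] E) (l' : E →L[ℝ] ℝ) (t : ℝ) : E →L[ℝ] E :=
  t • U + F + l'.smulRight p

noncomputable def DW (u f : E) (U F : E →L[ℝ] E) (a' : E →L[ℝ] ℝ) (ga ga' gt gt' g g' : ℝ) :
    E →L[ℝ] E :=
  (g • U + (ga • a' + gt • dtau u f U F).smulRight u)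
    + (g' • F + (ga' • a' + gt' • dtau u f U F).smulRight f)

noncomputable def YY (u f : E) (U F : E →L[ℝ] E) (σ : ℝ) : E →L[ℝ] E :=
  F + (2 * σ ^ 2) • (((innerSL ℝ f).comp U).smulRight u - ⟪u, f⟫ • U)

noncomputable def LE (J : ℕ) (p u f : E) (U F : E →L[ℝ] E) (l' a' : E →L[ℝ] ℝ) (a : ℝ) : ℝ :=
  ∑ n, TE (DC p U F l' (nd J n)) (DW u f U F a'
    (ev0 a ⟪u, f⟫ (pderiv 0 (gP J (mP J) n))) (ev0 a ⟪u, f⟫ (pderiv 0 (gP J (nP J) n)))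
    (ev0 a ⟪u, f⟫ (pderiv 1 (gP J (mP J) n))) (ev0 a ⟪u, f⟫ (pderiv 1 (gP J (nP J) n)))
    (ev0 a ⟪u, f⟫ (gP J (mP J) n)) (ev0 a ⟪u, f⟫ (gP J (nP J) n)))

noncomputable def BE (J : ℕ) (p u f : E) (U F : E →L[ℝ] E) (l' a' : E →L[ℝ] ℝ) (a : ℝ) : ℝ :=
  ∑ n, TE (DC p U F l' (nd J n))
    (a'.smulRight (ev0 a ⟪u, f⟫ (gP J (mP J) n) • u + ev0 a ⟪u, f⟫ (gP J (nP J) n) • f))

theorem mat_stk {k : ℕ} (b : OrthonormalBasis (Fin (k + 3)) ℝ E) (A : E →L[ℝ] E)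
    {r0 r1 r2 : Fin (k + 3) → ℝ} {c : Fin k → Fin (k + 3) → ℝ}
    (h0 : ∀ i, ⟪b 0, A (b i)⟫ = r0 i) (h1 : ∀ i, ⟪b (Fin.succ 0), A (b i)⟫ = r1 i)
    (h2 : ∀ i, ⟪b (Fin.succ (Fin.succ 0)), A (b i)⟫ = r2 i)
    (h3 : ∀ (j : Fin k) i, ⟪b j.succ.succ.succ, A (b i)⟫ = c j i) : mat b A = stk r0 r1 r2 c := by
  funext j i
  refine Fin.cases (h0 i) (fun j => Fin.cases (h1 i) (fun j => Fin.cases (h2 i) (fun j => h3 j i) j) j) j

theorem PD.frame {k : ℕ} (hE : Module.finrank ℝ E = k + 3) {p u f : E} {U F : E →L[ℝ] E}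
    {l' a' : E →L[ℝ] ℝ} {r a σ : ℝ} (h : PD p u f U F l' a' r a σ) :
    ∃ (b : OrthonormalBasis (Fin (k + 3)) ℝ E) (σt : ℝ) (l ar υ ψ : Fin (k + 3) → ℝ)
      (Ur Fr : Fin k → Fin (k + 3) → ℝ), ⟪u, f⟫ ^ 2 + σt ^ 2 = 1 ∧
      (∀ t, mat b (DC p U F l' t) = rowC l υ ψ Ur Fr t ⟪u, f⟫ σt) ∧
      (∀ ga ga' gt gt' g g', mat b (DW u f U F a' ga ga' gt gt' g g')
        = rowW ar υ ψ Ur Fr ⟪u, f⟫ σt ga ga' gt gt' g g') ∧
      mat b (ContinuousLinearMap.id ℝ E) = rowI r a σ ⟪u, f⟫ σt l ar υ Ur ∧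
      mat b (YY u f U F σ) = rowY σ ⟪u, f⟫ υ ψ Ur Fr ∧
      mat b F = stk 0 0 ψ Fr ∧
      (∀ g g' : ℝ, mat b (l'.smulRight (g • u + g' • f))
        = stk 0 ((g * ⟪u, f⟫ + g') • l) ((g * σt) • l) 0) := by
  obtain ⟨b, σt, b0, b1, hu, hτ⟩ := exists_frame hE h.hp h.hu h.hf h.pu h.pf
  set τ := ⟪u, f⟫ with hτd
  set e := b (Fin.succ (Fin.succ 0)) with he
  have ob : ∀ i j, i ≠ j → ⟪b i, b j⟫ = 0 := fun i j hij => b.orthonormal.inner_eq_zero hij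
  have s0 : ∀ {n : ℕ} (j : Fin n), j.succ ≠ 0 := fun j => Fin.succ_ne_zero j
  have s1 : ∀ {n : ℕ} (j : Fin n), j.succ.succ ≠ Fin.succ 0 :=
    fun j hj => s0 j (Fin.succ_injective _ hj)
  have s2 : ∀ {n : ℕ} (j : Fin n), j.succ.succ.succ ≠ Fin.succ (Fin.succ 0) :=
    fun j hj => s1 j (Fin.succ_injective _ hj)
  have pp : ⟪p, p⟫ = 1 := by rw [real_inner_self_eq_norm_sq, h.hp]; norm_num
  have ff : ⟪f, f⟫ = 1 := by rw [real_inner_self_eq_norm_sq, h.hf]; norm_num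
  have ee : ⟪e, e⟫ = 1 := by rw [real_inner_self_eq_norm_sq, b.orthonormal.1]; norm_num
  have fp : ⟪f, p⟫ = 0 := by rw [real_inner_comm, h.pf]
  have fu : ⟪f, u⟫ = τ := real_inner_comm _ _
  have ep : ⟪e, p⟫ = 0 := by rw [← b0]; exact ob _ _ (s0 _)
  have ef : ⟪e, f⟫ = 0 := by rw [← b1]; exact ob _ _ (s1 _)
  have eu : ⟪e, u⟫ = σt := by
    rw [hu, inner_add_right, inner_smul_right, inner_smul_right, ef, ee]; ring
  have jp : ∀ j : Fin k, ⟪b j.succ.succ.succ, p⟫ = 0 := fun j => by rw [← b0]; exact ob _ _ (s0 _)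
  have jf : ∀ j : Fin k, ⟪b j.succ.succ.succ, f⟫ = 0 := fun j => by rw [← b1]; exact ob _ _ (s1 _)
  have ju : ∀ j : Fin k, ⟪b j.succ.succ.succ, u⟫ = 0 := fun j => by
    rw [hu, inner_add_right, inner_smul_right, inner_smul_right, jf, ob _ _ (s2 _)]; ring
  have ux : ∀ x, ⟪u, x⟫ = τ * ⟪f, x⟫ + σt * ⟪e, x⟫ := fun x => by
    conv_lhs => rw [hu]
    rw [inner_add_left, real_inner_smul_left, real_inner_smul_left]
  obtain ⟨υ, fU, eU⟩ : ∃ υ : Fin (k + 3) → ℝ, (∀ i, ⟪f, U (b i)⟫ = -σt * υ i) ∧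
      ∀ i, ⟪e, U (b i)⟫ = τ * υ i := by
    refine ⟨fun i => -σt * ⟪f, U (b i)⟫ + τ * ⟪e, U (b i)⟫, fun i => ?_, fun i => ?_⟩
    · have := h.uU (b i)
      rw [ux] at this
      linear_combination τ * this - ⟪f, U (b i)⟫ * hτ
    · have := h.uU (b i)
      rw [ux] at this
      linear_combination σt * this - ⟪e, U (b i)⟫ * hτ
  have uF : ∀ z, ⟪u, F z⟫ = σt * ⟪e, F z⟫ := fun z => by rw [ux, h.fF]; ring
  have hσ := h.σ0.ne'
  refine ⟨b, σt, fun i => l' (b i), fun i => a' (b i), υ, fun i => ⟪e, F (b i)⟫,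
    fun j i => ⟪b j.succ.succ.succ, U (b i)⟫, fun j i => ⟪b j.succ.succ.succ, F (b i)⟫, hτ,
    fun t => ?_, fun ga ga' gt gt' g g' => ?_, ?_, ?_, ?_, fun g g' => ?_⟩
  all_goals
    refine mat_stk b _ (fun i => ?_) (fun i => ?_) (fun i => ?_) (fun j i => ?_) <;>
    try rw [ContinuousLinearMap.id_apply, h.hI (b i)]
  all_goals
    simp only [DC, DW, YY, dtau, ← he, b0, b1, ← hτd, ContinuousLinearMap.add_apply,
      ContinuousLinearMap.sub_apply,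
      ContinuousLinearMap.smul_apply, ContinuousLinearMap.smulRight_apply,
      ContinuousLinearMap.comp_apply, innerSL_apply_apply, inner_add_right, inner_sub_right,
      inner_smul_right, pp, ff, fp, fu, ep, ef, eu, jp, jf, ju, h.pu, h.pf, h.pU, h.pF, h.fF,
      fU, eU, uF, Pi.add_apply, Pi.smul_apply, Pi.zero_apply, smul_eq_mul]
  all_goals first | ring1 | (field_simp; ring1) | linear_combination (-2 * σ ^ 2 * υ i) * hτ

theorem PD.GG {k : ℕ} {p u f : E} {U F : E →L[ℝ] E}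
    {l' a' : E →L[ℝ] ℝ} {r a σ : ℝ} (h : PD p u f U F l' a' r a σ)
    (b : OrthonormalBasis (Fin (k + 3)) ℝ E) {σt : ℝ} {l ar υ ψ : Fin (k + 3) → ℝ}
    {Ur Fr : Fin k → Fin (k + 3) → ℝ} (hτ : ⟪u, f⟫ ^ 2 + σt ^ 2 = 1)
    (hI : mat b (ContinuousLinearMap.id ℝ E) = rowI r a σ ⟪u, f⟫ σt l ar υ Ur)
    (hY : mat b (YY u f U F σ) = rowY σ ⟪u, f⟫ υ ψ Ur Fr) :
    (GG a σ ⟪u, f⟫ 0 l ar υ ψ Ur Fr).det = (gd (r • YY u f U F σ) / r ^ (k + 3)) ^ 2 := by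
  have h1 := GG_eq (r := r) h.a0 h.a1 h.hσ hτ l ar υ ψ Ur Fr
  rw [← hI, ← hY, gram_id] at h1
  have := h.r0
  rw [div_pow, gd_sq b, mat_smul]
  simp only [Pi.smul_apply, oo_smul, ← smul_sum]
  rw [h1, det_smul, Fintype.card_fin]
  field_simp
  ring

variable (J : ℕ) (hE : Module.finrank ℝ E = 2 * (J + 1) + 3) {p u f : E} {U F : E →L[ℝ] E}
  {l' a' : E →L[ℝ] ℝ} {r a σ : ℝ} (h : PD p u f U F l' a' r a σ)
include hE h

theorem PD.LE_le :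
    |LE (J + 1) p u f U F l' a' a| ≤ gd (r • YY u f U F σ) / r ^ (2 * (J + 1) + 3) := by
  obtain ⟨b, σt, l, ar, υ, ψ, Ur, Fr, hτ, hC, hW, hI, hY, -, -⟩ := h.frame hE
  have h1 := LM_le J h.a0 h.a1 h.σ0 h.hσ hτ le_rfl zero_lt_one
    (by have := sub_nonneg.2 (rs_le h.a0 h.a1 (t := ⟪u, f⟫) (by nlinarith [sq_nonneg σt]))
        positivity) l ar υ ψ Ur Fr
  rw [h.GG b hτ hI hY] at h1
  simp only [LE, TE_eq b, hC, hW]
  exact abs_le_of_sq_le_sq' h1 (by have := gd_pos (r • YY u f U F σ); have := h.r0; positivity)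
    |> abs_le.2

theorem PD.BE_le (ha : a ≤ 1 / 2) : |BE (J + 1) p u f U F l' a' a|
    ≤ 3 * 2 ^ (J + 1) * a * (gd (r • YY u f U F σ) / r ^ (2 * (J + 1) + 3)) := by
  obtain ⟨b, σt, l, ar, υ, ψ, Ur, Fr, hτ, hC, hW, hI, hY, -, -⟩ := h.frame hE
  have h1 := BM_le J h.a0 ha h.σ0 h.hσ hτ l ar υ ψ Ur Fr
  rw [h.GG b hτ hI hY, ← mul_pow] at h1
  have e : ∀ g g' : ℝ, a'.smulRight (g • u + g' • f) = DW u f U F a' g g' 0 0 0 0 := by
    intro g g'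
    ext z
    simp [DW, smul_smul, mul_comm]
  simp only [BE, e, TE_eq b, hC, hW]
  exact abs_le_of_sq_le_sq' h1
    (by have := gd_pos (r • YY u f U F σ); have := h.r0; have := h.a0; positivity) |> abs_le.2

theorem PD.rigid (hτ1 : ⟪u, f⟫ ^ 2 < 1)
    (heq : gd (r • YY u f U F σ) / r ^ (2 * (J + 1) + 3) ≤ |LE (J + 1) p u f U F l' a' a|) :
    F = 0 := by
  obtain ⟨b, σt, l, ar, υ, ψ, Ur, Fr, hτ, hC, hW, hI, hY, hF, -⟩ := h.frame hE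
  have hpos : 0 < gd (r • YY u f U F σ) / r ^ (2 * (J + 1) + 3) := by
    have := gd_pos (r • YY u f U F σ); have := h.r0; positivity
  have h1 := LM_rigid J h.a0 h.a1 h.σ0 h.hσ hτ hτ1 l ar υ ψ Ur Fr
    (by rw [h.GG b hτ hI hY]; positivity) (by
      rw [h.GG b hτ hI hY, ← sq_abs (LM ..)]
      simp only [LE, TE_eq b, hC, hW] at heq
      exact pow_le_pow_left₀ hpos.le heq 2)
  rw [h1.1, h1.2] at hF
  have h2 : ∀ i, F (b i) = 0 := by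
    intro i
    rw [← b.sum_repr' (F (b i))]
    refine sum_eq_zero fun j _ => ?_
    have : ⟪b j, F (b i)⟫ = 0 := by
      refine (congrFun (congrFun hF j) i).trans ?_
      refine Fin.cases rfl (fun j => Fin.cases rfl (fun j => Fin.cases rfl (fun j => rfl) j) j) j
    rw [this, zero_smul]
  ext z
  rw [← b.sum_repr' z, map_sum]
  simp [h2]

theorem PD.leaf (hF0 : F = 0) :
    LE (J + 1) p u f U F l' a' a = -(gd (r • YY u f U F σ) / r ^ (2 * (J + 1) + 3)) ∧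
    gd (r • YY u f U F σ) = rs a ⟪u, f⟫ ^ (J + 1) / a ^ (2 * (J + 1) + 1) := by
  obtain ⟨b, σt, l, ar, υ, ψ, Ur, Fr, hτ, hC, hW, hI, hY, hF, -⟩ := h.frame hE
  have hψ : ψ = 0 := by
    funext i
    have := congrFun (congrFun hF (Fin.succ (Fin.succ 0))) i
    exact this.symm.trans (by simp [hF0, mat])
  have hFr : Fr = 0 := by
    funext j i
    have := congrFun (congrFun hF j.succ.succ.succ) i
    exact this.symm.trans (by simp [hF0, mat])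
  subst hψ hFr
  have ha := h.a0
  have hσ := h.σ0
  have hr := h.r0
  have hs := rs_pos (t := ⟪u, f⟫) h.a0 h.a1
  have h1 := dM_rowI (J + 1) (r := r) h.hσ hτ l ar υ Ur
  rw [← hI, dM_mat, ContinuousLinearMap.det, ContinuousLinearMap.coe_id,
    LinearMap.det_id] at h1
  have e : σ • ((0 : Fin (2 * (J + 1) + 3) → ℝ) + (-(2 * σ ^ 2)) • υ) + (-a) • ((2 * a * σ) • υ)
      = (-a⁻¹) • ((2 * a * σ) • υ) := by
    funext i
    simp only [Pi.add_apply, Pi.smul_apply, Pi.zero_apply, smul_eq_mul]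
    field_simp
    linear_combination (-2 * υ i) * h.hσ
  have h2 : (4 * σ ^ 2 * rs a ⟪u, f⟫) ^ (J + 1) * D3 l ((2 / σ) • ar)
      (σ • ((0 : Fin (2 * (J + 1) + 3) → ℝ) + (-(2 * σ ^ 2)) • υ) + (-a) • ((2 * a * σ) • υ)) Ur
      = -(rs a ⟪u, f⟫ ^ (J + 1) / a ^ (2 * (J + 1) + 1) / r ^ (2 * (J + 1) + 3)) := by
    rw [e, D3_smul2, eq_div_of_mul_eq (by positivity) ((mul_comm _ _).trans h1.symm),
      pow_mul (2 * a * σ), pow_succ a, pow_mul a, mul_pow (4 * σ ^ 2),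
      show (2 * a * σ) ^ 2 = 4 * σ ^ 2 * a ^ 2 by ring, mul_pow (4 * σ ^ 2)]
    field_simp
  obtain ⟨H, -, eH, hd⟩ := GG_F0 J (τ := ⟪u, f⟫) h.a0 h.a1 h.hσ l ar υ 0 Ur
  rw [smul_zero, oo_zero, add_zero] at eH
  rw [← eH, h.GG b hτ hI hY, h2, neg_sq] at hd
  have h3 := (pow_left_inj₀ (by have := gd_pos (r • YY u f U F σ); positivity) (by positivity)
    two_ne_zero).1 hd
  constructor
  · simp only [LE, TE_eq b, hC, hW]
    rw [h3, ← h2]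
    exact LM_F0 J h.a0 h.σ0 h.hσ hτ l ar υ 0 Ur
  · rwa [div_left_inj' (by positivity)] at h3

theorem PD.radial (t g g' : ℝ) : TE (DC p U F l' t) (l'.smulRight (g • u + g' • f)) = 0 := by
  obtain ⟨b, σt, l, ar, υ, ψ, Ur, Fr, hτ, hC, -, -, -, -, hl⟩ := h.frame hE
  rw [TE_eq b, hC, hl, rowC, TT_stk, D3_zero0, D3_smul1, D3_self01, D3_smul2 _ _ l, D3_self02]
  simp

end Pool.Agent.Lib.MP_13d336_gt
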