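import Mathlib

set_option autoImplicit false

namespace Pool.Agent.Lib.MP_13d336_gt

open PowerSeries Finset

/-- Catalan type fixed point `D = 1 + w D^2`. -/
theorem exists_cat {R : Type*} [CommRing R] (w : PowerSeries R) (hw : constantCoeff w = 0) :
    ∃ D : PowerSeries R, D = 1 + w * D ^ 2 := by
  have hs : HasSubst w := HasSubst.of_constantCoeff_zero' hw
  let c : PowerSeries R := PowerSeries.map (Nat.castRingHom R) catalanSeries
  have hc : c = 1 + X * c ^ 2 := by
    have h := congrArg (PowerSeries.map (Nat.castRingHom R)) catalanSeries_sq_mul_X_add_one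
    simp only [map_add, map_mul, map_pow, map_X, map_one] at h
    show c = 1 + X * c ^ 2
    rw [mul_comm, add_comm]; exact h.symm
  refine ⟨substAlgHom hs c, ?_⟩
  have h := congrArg (substAlgHom hs) hc
  rw [map_add, map_mul, map_pow, map_one, substAlgHom_X] at h
  exact h

abbrev PS := PowerSeries (Polynomial ℝ)

noncomputable def sS : PS := PowerSeries.C Polynomial.X
noncomputable def uS : PS := 1 - sS

/-- The three series: `c` (Catalan), `y = 1 - x`, `k`. -/
theorem exists_series : ∃ c y k : PS, c = 1 + uS * X * c ^ 2 ∧ constantCoeff y = 0 ∧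
    2 * y = sS * X * c ^ 2 + y ^ 2 ∧ (1 - y) * k = c := by
  obtain ⟨c, hc⟩ := exists_cat (uS * X : PS) (by simp)
  obtain ⟨D, hD⟩ := exists_cat
    (PowerSeries.C (Polynomial.C (1 / 4 : ℝ)) * (sS * X * c ^ 2) : PS) (by simp)
  set w : PS := PowerSeries.C (Polynomial.C (1 / 4 : ℝ)) * (sS * X * c ^ 2) with hw
  have h4 : 4 * w = sS * X * c ^ 2 := by
    have : (4 : PS) * PowerSeries.C (Polynomial.C (1 / 4 : ℝ)) = 1 := by
      have e : (4 : PS) = PowerSeries.C (Polynomial.C (4 : ℝ)) := by
        simp [map_ofNat]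
      rw [e, ← map_mul, ← map_mul]; norm_num
    rw [hw, ← mul_assoc, this, one_mul]
  have hy0 : constantCoeff (2 * w * D) = 0 := by simp [hw]
  refine ⟨c, 2 * w * D, invOfUnit (1 - 2 * w * D) 1 * c, hc, hy0, ?_, ?_⟩
  · rw [← h4]; linear_combination 4 * w * hD
  · rw [← mul_assoc, mul_invOfUnit _ _ (by rw [map_sub, hy0]; simp), one_mul]

noncomputable def cS : PS := exists_series.choose
noncomputable def yS : PS := exists_series.choose_spec.choose
noncomputable def kS : PS := exists_series.choose_spec.choose_spec.choose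
noncomputable def xS : PS := 1 - yS

theorem cS_eq : cS = 1 + uS * X * cS ^ 2 := exists_series.choose_spec.choose_spec.choose_spec.1
theorem yS_zero : constantCoeff yS = 0 := exists_series.choose_spec.choose_spec.choose_spec.2.1
theorem yS_eq : 2 * yS = sS * X * cS ^ 2 + yS ^ 2 :=
  exists_series.choose_spec.choose_spec.choose_spec.2.2.1
theorem kS_eq : xS * kS = cS := exists_series.choose_spec.choose_spec.choose_spec.2.2.2

theorem xS_sq : xS ^ 2 = 1 - sS * X * cS ^ 2 := by
  unfold xS; linear_combination (-1 : PS) * yS_eq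

theorem xS_zero : constantCoeff xS = 1 := by simp [xS, yS_zero]
theorem cS_zero : constantCoeff cS = 1 := by rw [cS_eq]; simp
theorem kS_zero : constantCoeff kS = 1 := by
  have h := congrArg constantCoeff kS_eq
  rwa [map_mul, xS_zero, one_mul, cS_zero] at h

theorem E1 : uS * xS ^ 2 + sS * xS * kS = 1 := by
  have h1 := xS_sq; have h2 := kS_eq; have h3 := cS_eq
  unfold uS at *
  linear_combination (1 - sS) * h1 + sS * h2 + sS * h3

theorem xS_ne : xS ≠ 0 := by
  intro h; have := xS_zero; rw [h] at this; simp at this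

theorem E2 : uS * xS * kS + (sS - X) * kS ^ 2 = 1 := by
  have h1 := xS_sq; have h2 := kS_eq; have h3 := cS_eq
  apply mul_left_cancel₀ (pow_ne_zero 2 xS_ne)
  unfold uS at *
  linear_combination ((1 - sS) * xS ^ 2 + (sS - X) * (xS * kS + cS)) * h2
    + ((1 - sS) * cS - 1) * h1 + (sS * cS + 1) * h3

/-- coefficientwise derivative in `s`. -/
noncomputable def Ds (f : PS) : PS := PowerSeries.mk fun n => Polynomial.derivative (coeff n f)

@[simp] theorem coeff_Ds (f : PS) (n : ℕ) : coeff n (Ds f) = Polynomial.derivative (coeff n f) := by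
  simp [Ds]

theorem Ds_add (f g : PS) : Ds (f + g) = Ds f + Ds g := by ext n; simp
theorem Ds_sub (f g : PS) : Ds (f - g) = Ds f - Ds g := by ext n; simp
theorem Ds_mul (f g : PS) : Ds (f * g) = Ds f * g + f * Ds g := by
  apply PowerSeries.ext; intro n
  simp only [coeff_Ds, coeff_mul, map_add, Polynomial.derivative_sum, Polynomial.derivative_mul,
    Finset.sum_add_distrib]
theorem Ds_one : Ds 1 = 0 := by
  apply PowerSeries.ext; intro n
  simp only [coeff_Ds, coeff_one]; split_ifs <;> simp
theorem Ds_X : Ds X = 0 := by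
  apply PowerSeries.ext; intro n
  simp only [coeff_Ds, coeff_X]; split_ifs <;> simp
theorem Ds_sS : Ds sS = 1 := by
  apply PowerSeries.ext; intro n
  simp only [coeff_Ds, sS, coeff_C, coeff_one]; split_ifs <;> simp

noncomputable def Dw (f : PS) : PS := PowerSeries.derivative (Polynomial ℝ) f

theorem Dw_add (f g : PS) : Dw (f + g) = Dw f + Dw g := by simp [Dw]
theorem Dw_sub (f g : PS) : Dw (f - g) = Dw f - Dw g := by simp [Dw]
theorem Dw_mul (f g : PS) : Dw (f * g) = Dw f * g + f * Dw g := by
  simp [Dw, Derivation.leibniz]; ring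
theorem Dw_one : Dw 1 = 0 := by simp [Dw]
theorem Dw_X : Dw X = 1 := by simp [Dw]
theorem Dw_sS : Dw sS = 0 := by simp [Dw, sS]

noncomputable def Delta : PS :=
  (2 * uS * xS + sS * kS) * (uS * xS + 2 * (sS - X) * kS) - uS * sS * xS * kS

theorem Delta_ne : Delta ≠ 0 := by
  intro h
  have h0 := congrArg constantCoeff h
  simp only [Delta, uS, sS, map_sub, map_mul, map_add, xS_zero, kS_zero, map_one, constantCoeff_C,
    constantCoeff_X, map_zero, map_ofNat] at h0
  have : (2 : Polynomial ℝ) = 0 := by linear_combination h0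
  exact two_ne_zero this

theorem T01 :
    2 * sS * Dw kS + 2 * uS * Dw xS = sS * kS + 2 * sS * X * Dw kS - 2 * uS * sS * Ds kS ∧
    sS * (kS + 2 * X * Dw kS + 2 * sS * Ds kS)
      = sS * xS - 2 * uS * sS * Ds xS - 2 * (1 + uS) * X * Dw xS := by
  have a1 := congrArg Dw E1
  have a2 := congrArg Dw E2
  have b1 := congrArg Ds E1
  have b2 := congrArg Ds E2
  simp only [sq, uS, Dw_add, Dw_sub, Dw_mul, Dw_one, Dw_X, Dw_sS, Ds_add, Ds_sub, Ds_mul, Ds_one,
    Ds_X, Ds_sS] at a1 a2 b1 b2
  have hxw : Delta * Dw xS = -sS * xS * kS ^ 2 := by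
    unfold Delta uS
    linear_combination ((1 - sS) * xS + 2 * (sS - X) * kS) * a1 - sS * xS * a2
  have hkw : Delta * Dw kS = (2 * uS * xS + sS * kS) * kS ^ 2 := by
    unfold Delta uS
    linear_combination (2 * (1 - sS) * xS + sS * kS) * a2 - (1 - sS) * kS * a1
  have hxs : Delta * Ds xS = (xS ^ 2 - xS * kS) * (uS * xS + 2 * (sS - X) * kS)
      - sS * xS * (xS * kS - kS ^ 2) := by
    unfold Delta uS
    linear_combination ((1 - sS) * xS + 2 * (sS - X) * kS) * b1 - sS * xS * b2
  have hks : Delta * Ds kS = (2 * uS * xS + sS * kS) * (xS * kS - kS ^ 2)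
      - uS * kS * (xS ^ 2 - xS * kS) := by
    unfold Delta uS
    linear_combination (2 * (1 - sS) * xS + sS * kS) * b2 - (1 - sS) * kS * b1
  constructor
  · apply mul_left_cancel₀ Delta_ne
    have : Delta * (2 * sS * Dw kS + 2 * uS * Dw xS) =
        2 * sS * (Delta * Dw kS) + 2 * uS * (Delta * Dw xS) := by ring
    rw [this]
    have : Delta * (sS * kS + 2 * sS * X * Dw kS - 2 * uS * sS * Ds kS) =
        Delta * sS * kS + 2 * sS * X * (Delta * Dw kS) - 2 * uS * sS * (Delta * Ds kS) := by ring
    rw [this, hxw, hkw, hks]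
    unfold Delta uS; ring
  · apply mul_left_cancel₀ Delta_ne
    have : Delta * (sS * (kS + 2 * X * Dw kS + 2 * sS * Ds kS)) =
        sS * (Delta * kS + 2 * X * (Delta * Dw kS) + 2 * sS * (Delta * Ds kS)) := by ring
    rw [this]
    have : Delta * (sS * xS - 2 * uS * sS * Ds xS - 2 * (1 + uS) * X * Dw xS) =
        Delta * sS * xS - 2 * uS * sS * (Delta * Ds xS) - 2 * (1 + uS) * X * (Delta * Dw xS) := by
      ring
    rw [this, hxw, hkw, hks, hxs]
    unfold Delta uS; ring

/-- coefficient polynomials -/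
noncomputable def xc (j : ℕ) : Polynomial ℝ := coeff j xS
noncomputable def kc (j : ℕ) : Polynomial ℝ := coeff j kS

theorem xc_zero : xc 0 = 1 := by simp [xc, xS_zero]
theorem kc_zero : kc 0 = 1 := by simp [kc, kS_zero]

theorem coeff_X_mul_Dw (f : PS) (j : ℕ) : coeff j (X * Dw f) = (j : Polynomial ℝ) * coeff j f := by
  cases j with
  | zero => simp
  | succ j => rw [coeff_succ_X_mul, Dw, coeff_derivative]; push_cast; ring

theorem T0c (j : ℕ) :
    2 * ((j : Polynomial ℝ) + 1) * (Polynomial.X * kc (j + 1) + (1 - Polynomial.X) * xc (j + 1))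
      = Polynomial.X * (2 * (j : Polynomial ℝ) + 1) * kc j
        - 2 * (1 - Polynomial.X) * Polynomial.X * Polynomial.derivative (kc j) := by
  have h := T01.1
  have e2 : (2 : PS) = PowerSeries.C 2 := by simp [map_ofNat]
  have eu : uS = PowerSeries.C (1 - Polynomial.X) := by simp [uS, sS]
  have h' : PowerSeries.C (2 * Polynomial.X) * Dw kS
      + PowerSeries.C (2 * (1 - Polynomial.X)) * Dw xS
      = PowerSeries.C Polynomial.X * kS + PowerSeries.C (2 * Polynomial.X) * (X * Dw kS)
        - PowerSeries.C (2 * (1 - Polynomial.X) * Polynomial.X) * Ds kS := by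
    simp only [map_mul, ← e2, ← eu]
    unfold sS at h; linear_combination h
  have h2 := congrArg (coeff j) h'
  simp only [map_add, map_sub, coeff_C_mul, coeff_X_mul_Dw, coeff_Ds] at h2
  simp only [Dw, coeff_derivative] at h2
  unfold xc kc
  linear_combination h2

theorem T1c (j : ℕ) :
    Polynomial.X * ((2 * (j : Polynomial ℝ) + 1) * kc j + 2 * Polynomial.X * Polynomial.derivative (kc j))
      = Polynomial.X * xc j
        - 2 * (1 - Polynomial.X) * Polynomial.X * Polynomial.derivative (xc j)
        - 2 * (2 - Polynomial.X) * (j : Polynomial ℝ) * xc j := by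
  have h := T01.2
  have e2 : (2 : PS) = PowerSeries.C 2 := by simp [map_ofNat]
  have eu : uS = PowerSeries.C (1 - Polynomial.X) := by simp [uS, sS]
  have h' : PowerSeries.C Polynomial.X * kS + PowerSeries.C (2 * Polynomial.X) * (X * Dw kS)
      + PowerSeries.C (2 * Polynomial.X * Polynomial.X) * Ds kS
      = PowerSeries.C Polynomial.X * xS
        - PowerSeries.C (2 * (1 - Polynomial.X) * Polynomial.X) * Ds xS
        - PowerSeries.C (2 * (1 + (1 - Polynomial.X))) * (X * Dw xS) := by
    simp only [map_mul, map_add, map_one, ← e2, ← eu]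
    unfold sS at h; linear_combination h
  have h2 := congrArg (coeff j) h'
  simp only [map_add, map_sub, coeff_C_mul, coeff_X_mul_Dw, coeff_Ds] at h2
  unfold xc kc
  linear_combination h2

end Pool.Agent.Lib.MP_13d336_gt
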