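import Pool.Agent.Lib.MP_13d336_gt.Series

set_option autoImplicit false
set_option linter.unusedSimpArgs false

namespace Pool.Agent.Lib.MP_13d336_gt

open MvPolynomial Finset

/-- polynomials in `a, t, U, F`. -/
abbrev PP := MvPolynomial (Fin 4) ℝ

noncomputable def va : PP := X 0
noncomputable def vt : PP := X 1
noncomputable def vU : PP := X 2
noncomputable def vF : PP := X 3

noncomputable def pS : PP := 1 - va * va
noncomputable def psm : PP := va * va + pS * vt * vt
noncomputable def pV : PP := vF - 2 * pS * vt * vU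
noncomputable def pR : PP := 4 * va * va * pS * vU * vU + pV * pV
noncomputable def pXi : PP := vt * vF - 2 * psm * vU
noncomputable def pph : PP := va * vF

noncomputable def pZ (K T : PP) : PP := pXi * K * pV + vt * T
noncomputable def pE (Xx K T : PP) : PP := (1 - vt * vt) * Xx + vt * pZ K T
noncomputable def pQv (K T : PP) : PP := va * T - 2 * va * pS * pXi * K * vU
noncomputable def pH1 (Xx K T : PP) : PP := 2 * pE Xx K T
noncomputable def pH2 (Xx K T : PP) : PP := -(4 * (pS * pE Xx K T + va * pQv K T))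
noncomputable def pH3 (Xx K T : PP) : PP := 2 * va * pS * (vt * Xx - pZ K T)

noncomputable def starL (H1 H2 H3 : PP) : PP :=
  pderiv 0 H3 - pderiv 1 (H1 + H2) - vF * pderiv 2 H1
noncomputable def starR (H1 H2 : PP) : PP := pderiv 3 H2 - vt * pderiv 2 H1

noncomputable def star (Xx K T : PP) : PP :=
  (1 - vt * vt) * starL (pH1 Xx K T) (pH2 Xx K T) (pH3 Xx K T)
    - (vU - vt * vF) * starR (pH1 Xx K T) (pH2 Xx K T)

theorem d_two (i : Fin 4) : pderiv i (2 : PP) = 0 := by
  have : (2 : PP) = C 2 := by simp [map_ofNat]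
  rw [this, pderiv_C]
theorem d_four (i : Fin 4) : pderiv i (4 : PP) = 0 := by
  have : (4 : PP) = C 4 := by simp [map_ofNat]
  rw [this, pderiv_C]

theorem d0a : pderiv 0 va = 1 := by simp [va]
theorem d0t : pderiv 0 vt = 0 := by simp [vt]
theorem d0U : pderiv 0 vU = 0 := by simp [vU]
theorem d0F : pderiv 0 vF = 0 := by simp [vF]
theorem d1a : pderiv 1 va = 0 := by simp [va]
theorem d1t : pderiv 1 vt = 1 := by simp [vt]
theorem d1U : pderiv 1 vU = 0 := by simp [vU]
theorem d1F : pderiv 1 vF = 0 := by simp [vF]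
theorem d2a : pderiv 2 va = 0 := by simp [va]
theorem d2t : pderiv 2 vt = 0 := by simp [vt]
theorem d2U : pderiv 2 vU = 1 := by simp [vU]
theorem d2F : pderiv 2 vF = 0 := by simp [vF]
theorem d3a : pderiv 3 va = 0 := by simp [va]
theorem d3t : pderiv 3 vt = 0 := by simp [vt]
theorem d3U : pderiv 3 vU = 0 := by simp [vU]
theorem d3F : pderiv 3 vF = 1 := by simp [vF]

/-- explicit form of the operator `star`. -/
theorem star_eq (Xx K T : PP) : star Xx K T =
    (1 - vt * vt) * (-2 * pS * vt * Xx + 2 * va * pS * vt * pderiv 0 Xx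
      + (1 - vt * vt) * (2 - 4 * va * va) * pderiv 1 Xx + (2 * vt * vU - 2 * vF) * pderiv 2 Xx
      + pS * (4 * vU - 4 * vt * vF) * pderiv 3 Xx)
    + ((8*va^6*vt^5*vU^2 - 16*va^6*vt^3*vU^2 + 8*va^6*vt*vU^2 - 24*va^4*vt^5*vU^2
        + 8*va^4*vt^4*vU*vF + 40*va^4*vt^3*vU^2 - 4*va^4*vt^2*vU*vF - 16*va^4*vt*vU^2
        - 4*va^4*vU*vF + 24*va^2*vt^5*vU^2 - 16*va^2*vt^4*vU*vF - 32*va^2*vt^3*vU^2
        + 2*va^2*vt^3*vF^2 + 12*va^2*vt^2*vU*vF + 8*va^2*vt*vU^2 + 2*va^2*vt*vF^2
        - 8*vt^5*vU^2 + 8*vt^4*vU*vF + 8*vt^3*vU^2 - 2*vt^3*vF^2 - 8*vt^2*vU*vF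
        + 2*vt*vF^2) * K
      - 2 * va * pS * (1 - vt * vt) * pXi * pV * pderiv 0 K
      + (1 - vt * vt) * pXi * (-8*va^4*vt^2*vU + 8*va^4*vU + 12*va^2*vt^2*vU - 4*va^2*vt*vF
          - 8*va^2*vU - 4*vt^2*vU + 2*vt*vF) * pderiv 1 K
      + pXi * pV * vt * (2 * vt * vU - 2 * vF) * pderiv 2 K
      + pS * pXi * pXi * (4 * vU - 4 * vt * vF) * pderiv 3 K)
    + (2 * pS * (1 - vt * vt) * vt * T - 2 * va * pS * (1 - vt * vt) * vt * pderiv 0 T
      + (1 - vt * vt) * (4 * va^2 - 4 * va^2 * vt^2 + 2 * vt^2) * pderiv 1 T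
      + vt * vt * (2 * vt * vU - 2 * vF) * pderiv 2 T
      + psm * (4 * vU - 4 * vt * vF) * pderiv 3 T) := by
  simp only [star, starL, starR, pH1, pH2, pH3, pE, pQv, pZ, pXi, pV, psm, pS, map_add, map_sub,
    map_neg, pderiv_mul, pderiv_one, d_two, d_four, d0a, d0t, d0U, d0F, d1a, d1t, d1U, d1F,
    d2a, d2t, d2U, d2F, d3a, d3t, d3U, d3F]
  ring

theorem star_rec (Xx K T g1 g2 g3 : PP) :
    star (pR * Xx + g1) (pR * K + g2) g3
      = pR * (star Xx K T - star 0 0 T) + star g1 g2 g3 := by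
  simp only [star_eq, map_add, pderiv_mul, map_zero]
  simp only [pR, pXi, pV, psm, pS, map_add, map_sub,
    pderiv_mul, pderiv_one, d_two, d_four, d0a, d0t, d0U, d0F, d1a, d1t, d1U, d1F,
    d2a, d2t, d2U, d2F, d3a, d3t, d3U, d3F]
  ring

noncomputable def ev1 (p : Polynomial ℝ) : PP := Polynomial.aeval psm p

theorem d_ev1 (i : Fin 4) (p : Polynomial ℝ) :
    pderiv i (ev1 p) = ev1 (Polynomial.derivative p) * pderiv i psm := by
  unfold ev1
  rw [Derivation.map_aeval]; rfl

noncomputable def pX : ℕ → PP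
  | 0 => 1
  | J + 1 => pR * pX J + ev1 (xc (J + 1)) * (pph * pph * pph ^ (2 * J))

noncomputable def pK : ℕ → PP
  | 0 => 0
  | J + 1 => pR * pK J + ev1 (kc J) * pph ^ (2 * J)

noncomputable def pT (J : ℕ) : PP := ev1 (kc J) * pph ^ (2 * J)

theorem psm_ne : psm ≠ 0 := by
  intro h
  have := congrArg (eval (fun _ => (1 : ℝ))) h
  simp [psm, pS, va, vt] at this

theorem star_zero (J : ℕ) : star (pX J) (pK J) (pT J) = 0 := by
  induction J with
  | zero =>
    simp only [pX, pK, pT, kc_zero, ev1, map_one, mul_zero, pow_zero, mul_one, star_eq,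
      pderiv_one, map_zero]
    ring
  | succ J ih =>
    have e : pT (J + 1) = ev1 (kc (J + 1)) * (pph * pph * pph ^ (2 * J)) := by
      rw [pT]; ring
    rw [pX, pK, e, star_rec _ _ (pT J), ih, pT]
    set Q := pph ^ (2 * J) with hQ
    have ha : va * pderiv 0 Q = 2 * (J : PP) * Q := by
      rw [hQ, pderiv_pow]
      simp only [pph, pderiv_mul, d0a, d0F]
      cases J with
      | zero => simp
      | succ J =>
        rw [show 2 * (J + 1) - 1 = 2 * J + 1 by omega, show 2 * (J + 1) = 2 * J + 1 + 1 by omega]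
        push_cast; ring
    have hF : vF * pderiv 3 Q = 2 * (J : PP) * Q := by
      rw [hQ, pderiv_pow]
      simp only [pph, pderiv_mul, d3a, d3F]
      cases J with
      | zero => simp
      | succ J =>
        rw [show 2 * (J + 1) - 1 = 2 * J + 1 by omega, show 2 * (J + 1) = 2 * J + 1 + 1 by omega]
        push_cast; ring
    have ht : pderiv 1 Q = 0 := by
      rw [hQ, pderiv_pow]; simp only [pph, pderiv_mul, d1a, d1F]; ring
    have hU : pderiv 2 Q = 0 := by
      rw [hQ, pderiv_pow]; simp only [pph, pderiv_mul, d2a, d2F]; ring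
    have h0 := congrArg (Polynomial.aeval psm) (T0c J)
    have h1 := congrArg (Polynomial.aeval psm) (T1c (J + 1))
    simp only [map_add, map_mul, map_sub, map_one, map_natCast, map_ofNat, Polynomial.aeval_X]
      at h0 h1
    change 2 * ((J : PP) + 1) * (psm * ev1 (kc (J + 1)) + (1 - psm) * ev1 (xc (J + 1))) =
      psm * (2 * (J : PP) + 1) * ev1 (kc J)
        - 2 * (1 - psm) * psm * ev1 (Polynomial.derivative (kc J)) at h0
    change psm * ((2 * ((J + 1 : ℕ) : PP) + 1) * ev1 (kc (J + 1))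
        + 2 * psm * ev1 (Polynomial.derivative (kc (J + 1)))) =
      psm * ev1 (xc (J + 1)) - 2 * (1 - psm) * psm * ev1 (Polynomial.derivative (xc (J + 1)))
        - 2 * (2 - psm) * ((J + 1 : ℕ) : PP) * ev1 (xc (J + 1)) at h1
    push_cast at h1
    apply mul_left_cancel₀ psm_ne
    simp only [star_eq, pderiv_mul, map_zero, d_ev1, ht, hU]
    set k0 := ev1 (kc J)
    set k1 := ev1 (kc (J + 1))
    set x1 := ev1 (xc (J + 1))
    set k0d := ev1 (Polynomial.derivative (kc J))
    set k1d := ev1 (Polynomial.derivative (kc (J + 1)))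
    set x1d := ev1 (Polynomial.derivative (xc (J + 1)))
    set Qa := pderiv 0 Q
    set QF := pderiv 3 Q
    have key : ∀ m1 m2 m3 m4 A : PP, A = m1 * (va * Qa - 2 * (J : PP) * Q)
        + m2 * (vF * QF - 2 * (J : PP) * Q)
        + m3 * (2 * ((J : PP) + 1) * (psm * k1 + (1 - psm) * x1) -
          (psm * (2 * (J : PP) + 1) * k0 - 2 * (1 - psm) * psm * k0d))
        + m4 * (psm * ((2 * ((J : PP) + 1) + 1) * k1 + 2 * psm * k1d) -
          (psm * x1 - 2 * (1 - psm) * psm * x1d - 2 * (2 - psm) * ((J : PP) + 1) * x1)) →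
        A = psm * 0 := by
      intro m1 m2 m3 m4 A hA
      rw [hA, ha, hF, h0, h1]; ring
    apply key
      (psm * (pS * (1 - vt * vt) * va * va * vF * (4 * vU * k0 - 2 * vF * vt * k1
        + 2 * vF * vt * x1)))
      (psm * ((vU - vt * vF) * va * va * vF * (-4 * k0 + 4 * psm * k1
        + 4 * pS * (1 - vt * vt) * x1)))
      (4 * va * va * vF * Q * (psm * vU - vt * vF))
      (2 * va * va * vF * vF * pS * (1 - vt * vt) * vt * Q)
    simp only [pR, pph, pXi, pV, psm, pS, map_add, map_sub,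
      pderiv_mul, pderiv_one, d_two, d_four, d0a, d0t, d0U, d0F, d1a, d1t, d1U, d1F,
      d2a, d2t, d2U, d2F, d3a, d3t, d3U, d3F]
    ring

end Pool.Agent.Lib.MP_13d336_gt
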