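import Pool.Agent.Lib.MP_13d336_gt.Geom
import Pool.Agent.Lib.MP_13d336_gt.Null

set_option autoImplicit false
set_option linter.unusedSimpArgs false
set_option linter.unusedSectionVars false
set_option linter.unusedVariables false
set_option linter.deprecated false

namespace Pool.Agent.Lib.MP_13d336_gt

open Finset Filter Topology MeasureTheory MvPolynomial
open scoped RealInnerProductSpace

variable {E : Type*} [NormedAddCommGroup E] [InnerProductSpace ℝ E] [FiniteDimensional ℝ E]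
  [CompleteSpace E]

theorem TE_add (A B B' : E →L[ℝ] E) : TE A (B + B') = TE A B + TE A B' := by
  simp only [TE_eq (stdOrthonormalBasis ℝ E), ← linearDeriv_dC, mat_add, map_add]

theorem TE_smul (A B : E →L[ℝ] E) (t : ℝ) : TE A (t • B) = t * TE A B := by
  simp only [TE_eq (stdOrthonormalBasis ℝ E), ← linearDeriv_dC, mat_smul, map_smul, smul_eq_mul]

theorem contDiffAt_ev0 {a t : E → ℝ} {x : E} {n : WithTop ℕ∞} (ha : ContDiffAt ℝ n a x)
    (ht : ContDiffAt ℝ n t x) (P : PP) : ContDiffAt ℝ n (fun y => ev0 (a y) (t y) P) x := by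
  induction P using MvPolynomial.induction_on with
  | C c => simp only [ev0_C]; exact contDiffAt_const
  | add p q hp hq => simp only [map_add]; exact hp.add hq
  | mul_X p i hp =>
    simp only [map_mul]
    refine hp.mul ?_
    fin_cases i
    · simpa [ev0] using ha
    · simpa [ev0] using ht
    · simpa [ev0] using contDiffAt_const
    · simpa [ev0] using contDiffAt_const

theorem hasFDerivAt_ev0 {a t : E → ℝ} {a' t' : E →L[ℝ] ℝ} {x : E} (ha : HasFDerivAt a a' x)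
    (ht : HasFDerivAt t t' x) (P : PP) : HasFDerivAt (fun y => ev0 (a y) (t y) P)
      (ev0 (a x) (t x) (pderiv 0 P) • a' + ev0 (a x) (t x) (pderiv 1 P) • t') x := by
  have h := hasFDerivAt_eval (g := fun i y => ![a y, t y, 0, 0] i) (g' := ![a', t', 0, 0])
    (x := x) (by
      intro i; fin_cases i
      · exact ha
      · exact ht
      all_goals exact hasFDerivAt_const _ x) P
  simpa [Fin.sum_univ_four, ev0] using h

/-- admissible sections in the flat picture -/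
def Good (p : E) (f : E → E) : Prop :=
  ∀ x ∈ Om p, ContDiffAt ℝ 2 f x ∧ ‖f x‖ = 1 ∧ ⟪p, f x⟫ = 0

noncomputable def Lf (J : ℕ) (p : E) (f : E → E) (x : E) : ℝ :=
  LE J p (uh p x) (f x) (fderiv ℝ (uh p) x) (fderiv ℝ f x) (fderiv ℝ ell x) (fderiv ℝ (aa p) x)
    (aa p x)

noncomputable def Bf (J : ℕ) (p : E) (f : E → E) (x : E) : ℝ :=
  BE J p (uh p x) (f x) (fderiv ℝ (uh p) x) (fderiv ℝ f x) (fderiv ℝ ell x) (fderiv ℝ (aa p) x)
    (aa p x)

noncomputable def Yf (p : E) (f : E → E) (x : E) : E →L[ℝ] E :=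
  ‖x‖ • YY (uh p x) (f x) (fderiv ℝ (uh p) x) (fderiv ℝ f x) (sg p x)

noncomputable def dens (J : ℕ) (p : E) (f : E → E) (x : E) : ℝ := gd (Yf p f x) / ‖x‖ ^ (2 * J + 3)

theorem dens_nonneg (J : ℕ) (p : E) (f : E → E) (x : E) : 0 ≤ dens J p f x :=
  div_nonneg (gd_pos _).le (by positivity)

theorem Lf_congr (J : ℕ) (p : E) {f g : E → E} {x : E} (h : f =ᶠ[𝓝 x] g) :
    Lf J p f x = Lf J p g x := by rw [Lf, Lf, h.fderiv_eq, h.eq_of_nhds]

theorem Bf_congr (J : ℕ) (p : E) {f g : E → E} {x : E} (h : f =ᶠ[𝓝 x] g) :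
    Bf J p f x = Bf J p g x := by rw [Bf, Bf, h.fderiv_eq, h.eq_of_nhds]

theorem dens_congr (J : ℕ) (p : E) {f g : E → E} {x : E} (h : f =ᶠ[𝓝 x] g) :
    dens J p f x = dens J p g x := by rw [dens, dens, Yf, Yf, h.fderiv_eq, h.eq_of_nhds]

variable {p x : E} {f : E → E}

theorem Good.pd (hf : Good p f) (hp : ‖p‖ = 1) (hx : x ∈ Om p) :
    PD p (uh p x) (f x) (fderiv ℝ (uh p) x) (fderiv ℝ f x) (fderiv ℝ ell x) (fderiv ℝ (aa p) x)
      ‖x‖ (aa p x) (sg p x) :=
  Om.pd hp hx ((hf x hx).1.differentiableAt two_ne_zero)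
    (by filter_upwards [(isOpen_Om p).mem_nhds hx] with y hy using (hf y hy).2.1)
    (by filter_upwards [(isOpen_Om p).mem_nhds hx] with y hy using (hf y hy).2.2)

theorem good_const {b : E} (hb : ‖b‖ = 1) (hpb : ⟪p, b⟫ = 0) : Good p fun _ => b :=
  fun _ _ => ⟨contDiffAt_const, hb, hpb⟩

variable [MeasurableSpace E] [BorelSpace E]

theorem ae_Om (hE : 2 ≤ Module.finrank ℝ E) (p : E) : ∀ᵐ x, x ∈ Om p := by
  have h1 : (ℝ ∙ p) ≠ ⊤ := by
    intro h
    have := finrank_span_le_card (R := ℝ) ({p} : Set E)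
    rw [h, finrank_top] at this
    simp at this; omega
  have h2 := Measure.addHaar_submodule (volume : Measure E) _ h1
  rw [ae_iff]
  refine measure_mono_null (fun x hx => ?_) h2
  simp only [Om, Set.mem_setOf_eq, not_not, pr, sub_eq_zero] at hx
  rw [hx]
  exact Submodule.smul_mem _ _ (Submodule.mem_span_singleton_self p)

theorem dct0 {F : ℕ → E → ℝ} {G h : E → ℝ} {c : ℝ} (hF : ∀ n, Integrable (F n) volume)
    (hc : ∀ n, ∫ x, F n x = c) (hh : Integrable h volume) (hb : ∀ n, ∀ᵐ x, |F n x| ≤ h x)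
    (hl : ∀ᵐ x, Tendsto (fun n => F n x) atTop (𝓝 (G x))) :
    Integrable G volume ∧ ∫ x, G x = c := by
  have h1 := tendsto_integral_of_dominated_convergence h (fun n => (hF n).1) hh hb hl
  simp only [hc] at h1
  refine ⟨hh.mono' (aestronglyMeasurable_of_tendsto_ae atTop (fun n => (hF n).1) hl) ?_,
    (tendsto_nhds_unique tendsto_const_nhds h1).symm⟩
  filter_upwards [hl, ae_all_iff.2 hb] with x h1 h2
  exact le_of_tendsto h1.abs (Eventually.of_forall h2)

theorem stokes (J : ℕ) (hE : Module.finrank ℝ E = 2 * (J + 1) + 3) (hp : ‖p‖ = 1) (hf : Good p f)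
    {ψ χ : ℝ → ℝ} (hψ : ContDiff ℝ 1 ψ) (hψ0 : ∀ t, ψ t ≠ 0 → 1 ≤ t ∧ t ≤ 3)
    (hχ : ContDiff ℝ 1 χ) {δ δ' : ℝ} (hδ : 0 < δ) (hδ' : δ' < 1)
    (hχ0 : ∀ t, χ t ≠ 0 → δ ≤ t ∧ t ≤ δ') :
    Integrable (fun x => ψ ‖x‖ * (χ (aa p x) * Lf (J + 1) p f x
      + deriv χ (aa p x) * Bf (J + 1) p f x)) volume ∧
    ∫ x, ψ ‖x‖ * (χ (aa p x) * Lf (J + 1) p f x + deriv χ (aa p x) * Bf (J + 1) p f x) = 0 := by
  let τ : E → ℝ := fun x => ⟪uh p x, f x⟫
  let c : Fin (2 * (J + 1) + 2) → E → E := fun n x => nd (J + 1) n • uh p x + f x + ell x • p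
  let w : Fin (2 * (J + 1) + 2) → E → E := fun n x =>
    ev0 (aa p x) (τ x) (gP (J + 1) (mP (J + 1)) n) • uh p x
      + ev0 (aa p x) (τ x) (gP (J + 1) (nP (J + 1)) n) • f x
  let θ : E → ℝ := fun x => ψ ‖x‖ * χ (aa p x)
  let φ : Fin (2 * (J + 1) + 2) → E → E := fun n x => θ x • w n x
  let K : Set E := Metric.closedBall 0 3 ∩ {x | 2 * δ * √(1 - δ' ^ 2) ≤ ‖pr p x‖}
  have hK : IsCompact K := (isCompact_closedBall _ _).inter_right
    (isClosed_le continuous_const (contDiff_pr p (n := 0)).continuous.norm)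
  have hsupp : ∀ n, tsupport (φ n) ⊆ K ∧ tsupport (φ n) ⊆ Om p := by
    intro n
    by_cases hd : δ ≤ δ'
    · have hpos : 0 < 2 * δ * √(1 - δ' ^ 2) :=
        mul_pos (by positivity) (Real.sqrt_pos.2 (by nlinarith))
      suffices h : tsupport (φ n) ⊆ K from ⟨h, fun x hx => norm_pos_iff.1 (hpos.trans_le (h hx).2)⟩
      refine closure_minimal (fun x hx => ?_) hK.isClosed
      have h1 : θ x ≠ 0 := fun h => hx (by simp [φ, h])
      obtain ⟨a1, a2⟩ := hψ0 _ (left_ne_zero_of_mul h1)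
      obtain ⟨a3, a4⟩ := hχ0 _ (right_ne_zero_of_mul h1)
      refine ⟨by simpa using a2, ?_⟩
      have h2 : √(1 - δ' ^ 2) ≤ sg p x := by
        rw [Real.sqrt_le_left (sg_nonneg p x), sg_sq hp]
        nlinarith
      rw [Set.mem_setOf_eq, norm_pr hp (norm_pos_iff.1 (by linarith))]
      calc 2 * δ * √(1 - δ' ^ 2) ≤ 2 * aa p x * sg p x := by
            have := aa_nonneg p x; gcongr
        _ ≤ _ := le_mul_of_one_le_left (by have := sg_nonneg p x; have := aa_nonneg p x; positivity) a1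
    · have : tsupport (φ n) = ∅ := by
        rw [tsupport_eq_empty_iff]
        funext x
        have : χ (aa p x) = 0 := by
          by_contra h; exact hd ((hχ0 _ h).1.trans (hχ0 _ h).2)
        simp [φ, θ, this]
      simp [this]
  have hτ : ∀ x ∈ Om p, ContDiffAt ℝ 1 τ x := fun x hx =>
    (Om.contDiffAt_uh hx).inner ℝ ((hf x hx).1.of_le (by norm_num))
  have hc : ∀ n, ∀ x ∈ Om p, ContDiffAt ℝ 2 (c n) x := fun n x hx =>
    (((Om.contDiffAt_uh hx).const_smul _).add (hf x hx).1).add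
      ((contDiffAt_ell (norm_pos_iff.1 (Om.norm_pos hp hx))).smul contDiffAt_const)
  have hw : ∀ n, ∀ x ∈ Om p, ContDiffAt ℝ 1 (w n) x := fun n x hx =>
    ((contDiffAt_ev0 (Om.contDiffAt_aa hp hx) (hτ x hx) _).smul (Om.contDiffAt_uh hx)).add
      ((contDiffAt_ev0 (Om.contDiffAt_aa hp hx) (hτ x hx) _).smul ((hf x hx).1.of_le (by norm_num)))
  have hθ : ∀ x ∈ Om p, ContDiffAt ℝ 1 θ x := fun x hx =>
    (hψ.contDiffAt.comp x (contDiffAt_norm ℝ (norm_pos_iff.1 (Om.norm_pos hp hx)))).mul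
      (hχ.contDiffAt.comp x (Om.contDiffAt_aa hp hx))
  have hφ : ∀ n, ContDiff ℝ 1 (φ n) := by
    intro n
    rw [contDiff_iff_contDiffAt]
    intro x
    by_cases hx : x ∈ Om p
    · exact (hθ x hx).smul (hw n x hx)
    · exact contDiffAt_const.congr_of_eventuallyEq
        (notMem_tsupport_iff_eventuallyEq.1 fun h => hx ((hsupp n).2 h))
  have key := fun n => null_lagr (c := c n) (hφ n) (hK.of_isClosed_subset (isClosed_tsupport _)
    (hsupp n).1) fun x hx => hc n x ((hsupp n).2 hx)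
  have e : ∀ x ∈ Om p, ∑ n, TE (fderiv ℝ (c n) x) (fderiv ℝ (φ n) x)
      = ψ ‖x‖ * (χ (aa p x) * Lf (J + 1) p f x + deriv χ (aa p x) * Bf (J + 1) p f x) := by
    intro x hx
    have hx0 := norm_pos_iff.1 (Om.norm_pos hp hx)
    have hu := Om.hasFDerivAt_uh hx
    have ha := Om.hasFDerivAt_aa hp hx
    have hF := ((hf x hx).1.differentiableAt two_ne_zero).hasFDerivAt
    have hl := ((contDiffAt_ell (n := 1) hx0).differentiableAt one_ne_zero).hasFDerivAt
    have ht : HasFDerivAt τ (dtau (uh p x) (f x) (fderiv ℝ (uh p) x) (fderiv ℝ f x)) x := by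
      refine (hu.inner ℝ hF).congr_fderiv ?_
      ext z
      simp [dtau, real_inner_comm]
    have h1 : ∀ n, fderiv ℝ (c n) x
        = DC p (fderiv ℝ (uh p) x) (fderiv ℝ f x) (fderiv ℝ ell x) (nd (J + 1) n) := fun n =>
      (((hu.fun_const_smul _).fun_add hF).fun_add (hl.smul_const p)).fderiv
    have h2 := ((hψ.differentiable one_ne_zero ‖x‖).hasDerivAt.comp_hasFDerivAt x
      (hasFDerivAt_norm_ell hx0)).fun_mul
      ((hχ.differentiable one_ne_zero (aa p x)).hasDerivAt.comp_hasFDerivAt x ha)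
    have h3 : ∀ n, fderiv ℝ (φ n) x = θ x • DW (uh p x) (f x) (fderiv ℝ (uh p) x) (fderiv ℝ f x)
        (fderiv ℝ (aa p) x) (ev0 (aa p x) (τ x) (pderiv 0 (gP (J + 1) (mP (J + 1)) n)))
        (ev0 (aa p x) (τ x) (pderiv 0 (gP (J + 1) (nP (J + 1)) n)))
        (ev0 (aa p x) (τ x) (pderiv 1 (gP (J + 1) (mP (J + 1)) n)))
        (ev0 (aa p x) (τ x) (pderiv 1 (gP (J + 1) (nP (J + 1)) n)))
        (ev0 (aa p x) (τ x) (gP (J + 1) (mP (J + 1)) n))
        (ev0 (aa p x) (τ x) (gP (J + 1) (nP (J + 1)) n))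
        + ((ψ ‖x‖ * deriv χ (aa p x)) • (fderiv ℝ (aa p) x).smulRight (w n x)
          + (χ (aa p x) * deriv ψ ‖x‖ * ‖x‖) • (fderiv ℝ ell x).smulRight (w n x)) := by
      intro n
      refine (h2.fun_smul (((hasFDerivAt_ev0 ha ht _).fun_smul hu).fun_add
        ((hasFDerivAt_ev0 ha ht _).fun_smul hF))).fderiv.trans ?_
      congr 1
      ext z
      simp only [ContinuousLinearMap.add_apply, ContinuousLinearMap.smul_apply,
        ContinuousLinearMap.smulRight_apply, Function.comp_apply, smul_eq_mul, w]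
      module
    simp only [h1, h3, TE_add, TE_smul, w, (hf.pd hp hx).radial J hE, mul_zero, add_zero,
      sum_add_distrib, ← mul_sum]
    simp only [θ, Lf, Bf, LE, BE, τ]
    ring
  have hae : (fun x => ∑ n, TE (fderiv ℝ (c n) x) (fderiv ℝ (φ n) x)) =ᵐ[volume] fun x =>
      ψ ‖x‖ * (χ (aa p x) * Lf (J + 1) p f x + deriv χ (aa p x) * Bf (J + 1) p f x) :=
    (ae_Om (by omega) p).mono e
  refine ⟨(integrable_finset_sum _ fun n _ => (key n).1).congr hae, ?_⟩
  rw [← integral_congr_ae hae, integral_finset_sum _ fun n _ => (key n).1]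
  exact sum_eq_zero fun n _ => (key n).2

end Pool.Agent.Lib.MP_13d336_gt
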