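import Pool.Agent.Lib.MP_13d336_gt.Banach
import Pool.Agent.Lib.MP_13d336_gt.Coef

set_option autoImplicit false
set_option linter.unusedSimpArgs false
set_option linter.unusedSectionVars false

namespace Pool.Agent.Lib.MP_13d336_gt

open Finset Matrix

variable {ι : Type*} [Fintype ι] [DecidableEq ι]

/-- rank one matrix -/
def oo (r : ι → ℝ) : Matrix ι ι ℝ := vecMulVec r r

theorem oo_psd (r : ι → ℝ) : (oo r).PosSemidef := by
  have := posSemidef_vecMulVec_self_star r
  simpa [oo] using this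

theorem pd_add {G : Matrix ι ι ℝ} (hG : G.PosDef) (r : ι → ℝ) : (G + oo r).PosDef :=
  hG.add_posSemidef (oo_psd r)

noncomputable def ipm (G : Matrix ι ι ℝ) (u v : ι → ℝ) : ℝ := u ⬝ᵥ G⁻¹ *ᵥ v

theorem ipm_comm {G : Matrix ι ι ℝ} (hG : G.PosDef) (u v : ι → ℝ) : ipm G u v = ipm G v u := by
  have h := hG.inv.isHermitian
  rw [IsHermitian, conjTranspose_eq_transpose_of_trivial] at h
  rw [ipm, ipm, dotProduct_mulVec, ← mulVec_transpose, h, dotProduct_comm]

theorem ipm_nonneg {G : Matrix ι ι ℝ} (hG : G.PosDef) (u : ι → ℝ) : 0 ≤ ipm G u u := by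
  simpa [ipm] using hG.inv.posSemidef.dotProduct_mulVec_nonneg u

theorem ipm_pos {G : Matrix ι ι ℝ} (hG : G.PosDef) {u : ι → ℝ} (hu : u ≠ 0) : 0 < ipm G u u := by
  simpa [ipm] using hG.inv.dotProduct_mulVec_pos hu

theorem ipm_lin (G : Matrix ι ι ℝ) (a b c d : ℝ) (u v u' v' : ι → ℝ) :
    ipm G (a • u + b • v) (c • u' + d • v') = a * c * ipm G u u' + a * d * ipm G u v'
      + b * c * ipm G v u' + b * d * ipm G v v' := by
  simp only [ipm, mulVec_add, mulVec_smul, add_dotProduct, dotProduct_add, smul_dotProduct,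
    dotProduct_smul, smul_eq_mul]
  ring

theorem det_two {G : Matrix ι ι ℝ} (hG : G.PosDef) (u v : ι → ℝ) :
    (G + oo u + oo v).det
      = G.det * ((1 + ipm G u u) * (1 + ipm G v v) - ipm G u v * ipm G v u) := by
  let V : Matrix (Fin 2) ι ℝ := Matrix.of ![u, v]
  have e : G + oo u + oo v = G + Vᵀ * V := by
    rw [add_assoc]; congr 1
    ext i j; simp [oo, V, mul_apply, vecMulVec_apply, Fin.sum_univ_two]
  have e2 : ∀ a b, (V * G⁻¹ * Vᵀ) a b = ipm G (V a) (V b) := by
    intro a b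
    rw [Matrix.mul_assoc, ipm]; rfl
  rw [e, det_add_mul _ _ (isUnit_iff_ne_zero.2 hG.det_pos.ne'), det_fin_two]
  simp only [Matrix.add_apply, e2, one_apply_eq, one_apply_ne (by decide : (0 : Fin 2) ≠ 1),
    one_apply_ne (by decide : (1 : Fin 2) ≠ 0), zero_add]
  rfl

theorem det_one' {G : Matrix ι ι ℝ} (hG : G.PosDef) (u : ι → ℝ) :
    (G + oo u).det = G.det * (1 + ipm G u u) := by
  have := det_two hG u 0
  simpa [oo, ipm] using this

theorem det_le_add {G : Matrix ι ι ℝ} (hG : G.PosDef) (u : ι → ℝ) : G.det ≤ (G + oo u).det := by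
  rw [det_one' hG]
  nlinarith [hG.det_pos, ipm_nonneg hG u]

theorem pd_sum {κ : Type*} {G : Matrix ι ι ℝ} (hG : G.PosDef) (s : Finset κ) (r : κ → ι → ℝ) :
    (G + ∑ i ∈ s, oo (r i)).PosDef :=
  hG.add_posSemidef (posSemidef_sum _ fun i _ => oo_psd (r i))

theorem det_le_sum {κ : Type*} {G : Matrix ι ι ℝ} (hG : G.PosDef) (s : Finset κ) (r : κ → ι → ℝ) :
    G.det ≤ (G + ∑ i ∈ s, oo (r i)).det := by
  classical
  induction s using Finset.induction_on with
  | empty => simp
  | insert a s ha ih =>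
    rw [sum_insert ha, add_comm (oo (r a)), ← add_assoc]
    exact ih.trans (det_le_add (pd_sum hG s r) _)

theorem eq_zero_of_det_le {κ : Type*} {G : Matrix ι ι ℝ} (hG : G.PosDef) (s : Finset κ)
    (r : κ → ι → ℝ) (h : (G + ∑ i ∈ s, oo (r i)).det ≤ G.det) {i : κ} (hi : i ∈ s) : r i = 0 := by
  classical
  by_contra hne
  rw [← add_sum_erase s _ hi, ← add_assoc] at h
  have h1 := det_le_sum (pd_add hG (r i)) (s.erase i) r
  have h2 := det_one' hG (r i)
  have h3 := ipm_pos hG hne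
  nlinarith [hG.det_pos]

theorem pair_step {G : Matrix ι ι ℝ} (hG : G.PosDef) (φ1 φ2 : (ι → ℝ) →ₗ[ℝ] ℝ)
    (h : ∀ c s : ℝ, c ^ 2 + s ^ 2 = 1 → ∀ r, (c * φ1 r + s * φ2 r) ^ 2 ≤ (G + oo r).det)
    (u v : ι → ℝ) : (φ1 u + φ2 v) ^ 2 ≤ (G + oo u + oo v).det := by
  have hD := hG.det_pos
  have h' : ∀ c s : ℝ, c ^ 2 + s ^ 2 = 1 → ∀ r,
      (c * φ1 r + s * φ2 r) ^ 2 ≤ G.det * ipm G r r := by
    intro c s hcs r
    by_contra hcon
    push Not at hcon
    set A := (c * φ1 r + s * φ2 r) ^ 2 - G.det * ipm G r r with hA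
    have hA0 : 0 < A := by linarith
    have h1 := h c s hcs ((Real.sqrt (G.det / A) + 1) • r)
    set τ := Real.sqrt (G.det / A) + 1 with hτ
    have h2 : ipm G (τ • r) (τ • r) = τ ^ 2 * ipm G r r := by
      have := ipm_lin G τ 0 τ 0 r r r r
      simp only [zero_smul, add_zero] at this
      rw [this]; ring
    rw [det_one' hG, h2, map_smul, map_smul, smul_eq_mul, smul_eq_mul] at h1
    have h3 : τ ^ 2 * A ≤ G.det := by rw [hA]; nlinarith
    have h4 : G.det / A < τ ^ 2 := by
      have h5 := Real.sq_sqrt (div_pos hD hA0).le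
      have h6 := Real.sqrt_nonneg (G.det / A)
      rw [hτ]; nlinarith
    rw [div_lt_iff₀ hA0] at h4
    linarith
  obtain ⟨θ, -, hθ⟩ : ∃ θ ∈ Set.Icc 0 (Real.pi / 2), (Real.cos θ ^ 2 - Real.sin θ ^ 2) * ipm G u v
      + Real.cos θ * Real.sin θ * (ipm G v v - ipm G u u) = 0 := by
    have hc : ContinuousOn (fun θ => (Real.cos θ ^ 2 - Real.sin θ ^ 2) * ipm G u v
      + Real.cos θ * Real.sin θ * (ipm G v v - ipm G u u)) (Set.uIcc 0 (Real.pi / 2)) := by
      fun_prop
    have := intermediate_value_uIcc hc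
    rw [Set.uIcc_of_le (by positivity : (0 : ℝ) ≤ Real.pi / 2)] at this
    apply this
    simp only [Real.cos_zero, Real.sin_zero, Real.cos_pi_div_two, Real.sin_pi_div_two]
    rw [Set.mem_uIcc]
    rcases le_total 0 (ipm G u v) with h | h
    · right; constructor <;> nlinarith
    · left; constructor <;> nlinarith
  set c := Real.cos θ
  set s := Real.sin θ
  have hcs : c ^ 2 + s ^ 2 = 1 := Real.cos_sq_add_sin_sq θ
  have a1 := h' c s hcs (c • u + s • v)
  have a2 := h' (-s) c (by linarith) ((-s) • u + c • v)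
  rw [ipm_lin] at a1 a2
  simp only [map_add, map_smul, smul_eq_mul] at a1 a2
  rw [det_two hG]
  rw [ipm_comm hG v u] at a1 a2 ⊢
  have n1 := ipm_nonneg hG (c • u + s • v)
  have n2 := ipm_nonneg hG ((-s) • u + c • v)
  rw [ipm_lin, ipm_comm hG v u] at n1 n2
  set p := c * c * ipm G u u + c * s * ipm G u v + s * c * ipm G u v + s * s * ipm G v v
  set q := -s * -s * ipm G u u + -s * c * ipm G u v + c * -s * ipm G u v + c * c * ipm G v v
  set A := c * (c * φ1 u + s * φ1 v) + s * (c * φ2 u + s * φ2 v)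
  set B := -s * (-s * φ1 u + c * φ1 v) + c * (-s * φ2 u + c * φ2 v)
  have eAB : φ1 u + φ2 v = A + B := by
    simp only [A, B]; linear_combination (-(φ1 u + φ2 v)) * hcs
  have epq : (1 + ipm G u u) * (1 + ipm G v v) - ipm G u v * ipm G u v = (1 + p) * (1 + q) := by
    simp only [p, q]
    linear_combination (-(ipm G u u + ipm G v v) - (c ^ 2 + s ^ 2 + 1) *
      (ipm G u u * ipm G v v - ipm G u v * ipm G u v)) * hcs
      - ((c ^ 2 - s ^ 2) * ipm G u v + c * s * (ipm G v v - ipm G u u)) * hθ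
  rw [eAB, epq]
  have hAB : (A * B) ^ 2 ≤ (G.det * (1 + p * q) / 2) ^ 2 := by
    have h1 : A ^ 2 * B ^ 2 ≤ (G.det * p) * (G.det * q) :=
      mul_le_mul a1 a2 (sq_nonneg _) (by positivity)
    have h2 : 0 ≤ G.det ^ 2 * (1 - p * q) ^ 2 := by positivity
    nlinarith
  have hAB' : A * B ≤ G.det * (1 + p * q) / 2 :=
    (abs_le_of_sq_le_sq' hAB (by positivity)).2
  nlinarith

variable {Q : Type*} [NormedAddCommGroup Q] [InnerProductSpace ℝ Q]

/-- the blossom of the sequence `b` -/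
noncomputable def blos (k : ℕ) (b : ℕ → Q) (y : Fin k → ℝ × ℝ) : Q :=
  ∑ c : Fin k → Bool, (∏ i, if c i then (y i).1 else (y i).2) • b (cnt c)

noncomputable def pairing {R : Type*} [AddCommGroup R] [Module ℝ R] (k : ℕ) (b : ℕ → Q)
    (δ : MultilinearMap ℝ (fun _ : Fin k => R) Q) (U F : Fin k → R) : ℝ :=
  ∑ c : Fin k → Bool, inner ℝ (b (cnt c)) (δ fun i => if c i then U i else F i)

theorem blos_cons (k : ℕ) (b : ℕ → Q) (y : ℝ × ℝ) (ys : Fin k → ℝ × ℝ) :
    blos (k + 1) b (Fin.cons y ys) = blos k (fun i => y.1 • b (i + 1) + y.2 • b i) ys := by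
  simp only [blos, sum_bool_succ, Fin.prod_univ_succ, Fin.cons_zero, Fin.cons_succ, cnt_cons,
    if_true, Bool.false_eq_true, if_false, add_zero, smul_add, sum_add_distrib, smul_smul,
    mul_comm]

theorem torus {α β γ : ℝ} (hα : α ≠ 0) (hγ : γ ≠ 0) (k : ℕ) (b : ℕ → Q)
    (δ : MultilinearMap ℝ (fun _ : Fin k => ι → ℝ) Q) (G : Matrix ι ι ℝ) (hG : G.PosDef)
    (hA : ∀ y : Fin k → ℝ × ℝ, (∀ i, (α * (y i).1 + β * (y i).2) ^ 2 + (γ * (y i).2) ^ 2 = 1) →
      ‖blos k b y‖ ≤ 1)
    (hB : ∀ q r, ‖q‖ ≤ 1 → inner ℝ q (δ r) ^ 2 ≤ (G + ∑ i, oo (r i)).det)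
    (U F : Fin k → ι → ℝ) :
    pairing k b δ U F ^ 2 ≤ (G + ∑ i, (oo (α • U i + β • F i) + oo (γ • F i))).det := by
  induction k generalizing b G with
  | zero =>
    have h1 := hA (fun i => i.elim0) (fun i => i.elim0)
    have h2 := hB (b 0) (fun i => i.elim0) (by simpa [blos, cnt] using h1)
    simp only [pairing, univ_unique, sum_singleton, cnt, univ_eq_empty, sum_empty] at h2 ⊢
    exact le_of_eq_of_le (congrArg (fun z => inner ℝ (b 0) (δ z) ^ 2) (Subsingleton.elim _ _)) h2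
  | succ k ih =>
    let rows : (Fin k → Bool) → Fin k → ι → ℝ := fun c i => if c i then U i.succ else F i.succ
    let ψ : (ℕ → Q) → (ι → ℝ) →ₗ[ℝ] ℝ := fun b =>
      { toFun := fun r => pairing k b (δ.curryLeft r) (fun i => U i.succ) (fun i => F i.succ)
        map_add' := fun r r' => by
          simp only [pairing, map_add, MultilinearMap.add_apply, inner_add_right, sum_add_distrib]
        map_smul' := fun c r => by
          simp only [pairing, map_smul, MultilinearMap.smul_apply, inner_smul_right, mul_sum,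
            smul_eq_mul, RingHom.id_apply] }
    have hψ : ∀ (y1 y2 : ℝ) r, y1 * ψ (fun i => b (i + 1)) r + y2 * ψ b r
        = ψ (fun i => y1 • b (i + 1) + y2 • b i) r := by
      intro y1 y2 r
      simp only [ψ, pairing, LinearMap.coe_mk, AddHom.coe_mk, inner_add_left, inner_smul_left,
        mul_sum, sum_add_distrib, RCLike.conj_to_real]
    have e : pairing (k + 1) b δ U F = ψ (fun i => b (i + 1)) (U 0) + ψ b (F 0) := by
      simp only [ψ, pairing, LinearMap.coe_mk, AddHom.coe_mk, sum_bool_succ, cnt_cons, if_true,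
        Bool.false_eq_true, if_false, add_zero, MultilinearMap.curryLeft_apply]
      congr 1 <;> refine sum_congr rfl fun c _ => ?_ <;> congr 2 <;> funext i <;>
        refine Fin.cases ?_ (fun i => ?_) i <;> simp
    set G' := G + ∑ i : Fin k, (oo (α • U i.succ + β • F i.succ) + oo (γ • F i.succ)) with hG'
    have hG'p : G'.PosDef := hG.add_posSemidef
      (posSemidef_sum _ fun i _ => (oo_psd _).add (oo_psd _))
    have key := pair_step hG'p (α⁻¹ • ψ (fun i => b (i + 1)))
      ((-β / (α * γ)) • ψ (fun i => b (i + 1)) + γ⁻¹ • ψ b) ?_ (α • U 0 + β • F 0) (γ • F 0)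
    · rw [e, Fin.sum_univ_succ]
      refine le_of_eq_of_le (congrArg (· ^ 2) ?_) (key.trans_eq (congrArg Matrix.det ?_))
      · simp only [LinearMap.smul_apply, LinearMap.add_apply, map_add, map_smul, smul_eq_mul]
        field_simp; ring
      · rw [hG']; abel
    · intro c s hcs r
      have e2 : c * (α⁻¹ • ψ (fun i => b (i + 1))) r
          + s * ((-β / (α * γ)) • ψ (fun i => b (i + 1)) + γ⁻¹ • ψ b) r
          = (c / α - s * β / (α * γ)) * ψ (fun i => b (i + 1)) r + (s / γ) * ψ b r := by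
        simp only [LinearMap.smul_apply, LinearMap.add_apply, smul_eq_mul]; ring
      rw [e2, hψ]
      have := ih (fun i => (c / α - s * β / (α * γ)) • b (i + 1) + (s / γ) • b i) (δ.curryLeft r)
        (G + oo r) (pd_add hG r) ?_ ?_ (fun i => U i.succ) (fun i => F i.succ)
      · rw [hG', add_right_comm]; exact this
      · intro y hy
        rw [← blos_cons k b (c / α - s * β / (α * γ), s / γ) y]
        apply hA
        intro i
        refine Fin.cases ?_ (fun i => by simpa using hy i) i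
        simp only [Fin.cons_zero]
        rw [← hcs]; field_simp; ring
      · intro q rs hq
        have := hB q (Fin.cons r rs) hq
        rw [Fin.sum_univ_succ, ← add_assoc] at this
        simpa using this

theorem blos_le {α β γ : ℝ} (hα : α ≠ 0) (hγ : γ ≠ 0) (k : ℕ) (b : ℕ → Q)
    (h : ∀ y1 y2 : ℝ, (α * y1 + β * y2) ^ 2 + (γ * y2) ^ 2 = 1 →
      ‖∑ c : Fin k → Bool, (y1 ^ cnt c * y2 ^ (k - cnt c)) • b (cnt c)‖ ≤ 1)
    (y : Fin k → ℝ × ℝ) (hy : ∀ i, (α * (y i).1 + β * (y i).2) ^ 2 + (γ * (y i).2) ^ 2 = 1) :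
    ‖blos k b y‖ ≤ 1 := by
  let H := EuclideanSpace ℝ (Fin 2)
  let l1 : H →L[ℝ] ℝ := α⁻¹ • EuclideanSpace.proj (0 : Fin 2)
    - (β / (α * γ)) • EuclideanSpace.proj (1 : Fin 2)
  let l2 : H →L[ℝ] ℝ := γ⁻¹ • EuclideanSpace.proj (1 : Fin 2)
  let B : ContinuousMultilinearMap ℝ (fun _ : Fin k => H) Q :=
    ∑ c : Fin k → Bool, ((ContinuousMultilinearMap.mkPiAlgebra ℝ (Fin k) ℝ).compContinuousLinearMap
      fun i => if c i then l1 else l2).smulRight (b (cnt c))
  have hB : ∀ a : Fin k → H, B a = blos k b fun i => (l1 (a i), l2 (a i)) := by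
    intro a
    simp only [B, blos, ContinuousMultilinearMap.sum_apply,
      ContinuousMultilinearMap.smulRight_apply,
      ContinuousMultilinearMap.compContinuousLinearMap_apply,
      ContinuousMultilinearMap.mkPiAlgebra_apply]
    refine sum_congr rfl fun c _ => ?_
    congr 1
    exact prod_congr rfl fun i _ => by split_ifs <;> rfl
  have hl1 : ∀ x : H, l1 x = α⁻¹ * x 0 - β / (α * γ) * x 1 := fun x => rfl
  have hl2 : ∀ x : H, l2 x = γ⁻¹ * x 1 := fun x => rfl
  have hn : ∀ x : H, (α * l1 x + β * l2 x) ^ 2 + (γ * l2 x) ^ 2 = ‖x‖ ^ 2 := by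
    intro x
    rw [EuclideanSpace.real_norm_sq_eq, Fin.sum_univ_two, hl1, hl2]
    field_simp; ring
  have key := banach B.toMultilinearMap B.cont ?_ ?_
    (fun i => !₂[α * (y i).1 + β * (y i).2, γ * (y i).2]) ?_
  · change ‖B _‖ ≤ 1 at key
    rw [hB] at key
    convert key using 3 with i
    ext
    · simp [hl1]; field_simp; ring
    · simp [hl2]; field_simp
  · intro a i j
    change B _ = B _
    rw [hB, hB, blos, blos]
    rw [← Equiv.sum_comp (Equiv.arrowCongr (Equiv.swap i j) (Equiv.refl Bool))]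
    refine sum_congr rfl fun c _ => ?_
    have e1 : cnt ((Equiv.arrowCongr (Equiv.swap i j) (Equiv.refl Bool)) c) = cnt c := by
      unfold cnt
      rw [← Equiv.sum_comp (Equiv.swap i j)]
      simp
    rw [e1]
    congr 1
    rw [← Equiv.prod_comp (Equiv.swap i j)]
    simp
  · intro x hx
    change ‖B _‖ ≤ 1
    rw [hB, blos]
    have := h (l1 x) (l2 x) (by rw [hn, hx]; norm_num)
    convert this using 4 with c
    rw [prod_ite, prod_const, prod_const]
    have e1 : cnt c = #{i | c i = true} := by rw [cnt, card_filter]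
    have e2 := card_filter_add_card_filter_not (s := univ) (fun i => c i = true)
    rw [card_univ, Fintype.card_fin] at e2
    rw [e1, show k - #{i | c i = true} = #{i | ¬ c i = true} by omega]
  · intro i
    have : ‖(!₂[α * (y i).1 + β * (y i).2, γ * (y i).2] : H)‖ ^ 2 = 1 := by
      rw [EuclideanSpace.real_norm_sq_eq, Fin.sum_univ_two, ← hy i]; simp
    nlinarith [norm_nonneg (!₂[α * (y i).1 + β * (y i).2, γ * (y i).2] : H)]

end Pool.Agent.Lib.MP_13d336_gt
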